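import Mathlib

/-!
# JOB GL-5: two involutions which do not commute

`F` is a family of binary relations of a finite set `O`, closed under composition and finite intersections. `σ₁, σ₂` are involutions; `F`
contains their graphs, the relations `Θ_i = {(a, b) : b = a ∨ b = σ_i a}`, and `{(a, b) : b = x₀}`.

`dihed`. Let `ρ = σ₁ ∘ σ₂` (a permutation), so `σ₁ ρ σ₁ = ρ⁻¹`. For `m : ℤ` let `s_m = ρ^m σ₁`; it is an involution, `s_0 = σ₁`, `s_{-1} = σ₂`,
`s_m ρ^d = ρ^{m-d} σ₁ = ρ^{-d} s_m`, `s_{m + j} s_m = ρ^j`, `s_{m + 2} = ρ s_m ρ⁻¹`. The graphs of `ρ`, `ρ⁻¹ = σ₂ σ₁` are in `F`.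
(1) `Θ^m = {(a, b) : b = a ∨ b = s_m a}` is in `F` for all `m`: for `m = 0, -1` by hypothesis, and `Θ^{m + 2}` is the composition of the graph
of `ρ⁻¹`, `Θ^m` and the graph of `ρ`; similarly `Θ^{m - 2}`.
(2) For `j ≥ 1` let `C^m_j` be the composition of `Θ^m, Θ^{m + 1}, ..., Θ^{m + j - 1}` (first `Θ^m`). By induction on `j`: `C^m_j a b` iff
`b = ρ^d a` or `b = ρ^d s_m a` for some `0 ≤ d ≤ j - 1` (`s_{m + j} ρ^d a = ρ^{j - d} s_m a`, `s_{m + j} ρ^d s_m a = ρ^{j - d} a`).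
(3) Let `k` be the period of `x₀` under `ρ` (`Function.minimalPeriod`). `k ≥ 3`, since `ρ ρ x₀ = x₀` would give
`σ₁ σ₂ x₀ = σ₂ σ₁ x₀` (and `ρ x₀ = x₀` too). Let `B` be the set of the `ρ^d x₀` and `ρ^d σ₁ x₀`, `0 ≤ d < k`; it is closed under `ρ, ρ⁻¹, σ₁, σ₂`,
and all its elements have the period `k` (`ρ^d σ₁ x₀ = σ₁ ρ^{-d} x₀`). The relation `{(a, b) : b ∈ B}` is the composition of `{(a, b) : b = x₀}`
and `C^0_k`.
(4) Let `S^m` be the composition of `C^m_{k - 1}` and the graph of `ρ`: `S^m a b` iff `b = ρ^d a` or `b = ρ^d s_m a` for some `1 ≤ d ≤ k - 1`.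
Let `R` be the intersection of `{(a, b) : b ∈ B}` and the `S^m`, `0 ≤ m < k`. Claim: `R a b` implies `b ∈ B` and `b = ρ^d a` for some
`1 ≤ d ≤ k - 1` (and so `a ∈ B`). Otherwise `S^0` gives `b = ρ^e σ₁ a = s_e a` with `1 ≤ e ≤ k - 1`, and `S^e` gives `b = ρ^d s_e a = ρ^d b` with
`1 ≤ d ≤ k - 1`, but `b` has the period `k`. Conversely `R (ρ^s x₀) (ρ^t x₀)` for `s ≠ t` in `Fin k` (`ρ^t x₀ = ρ^d ρ^s x₀` with
`d = (t - s) mod k`).
(5) `γ s = ρ^s x₀`. `κ a = s` if `a = ρ^s x₀` for some `s : Fin k`; otherwise `κ a = s` if `a = ρ^s σ₁ x₀` (arbitrary if there is no such `s`).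
If `R a b` then `a, b` are in `B` and `b = ρ^d a`: either both are of the form `ρ^s x₀` or none is, and the values differ by
`d mod k ≠ 0`.
-/

namespace Pool.Agent.H24.GL

section dihedAux

variable {O : Type}

/-- `ρ^d` iterated through a function. -/
theorem dihedX_key {ρ : ℕ → O → O} {σ₁ : O → O} {r : O → O}
    (h0 : ∀ a, ρ 0 a = a) (hs : ∀ n a, ρ (n + 1) a = ρ n (r a))
    (hs' : ∀ n a, ρ (n + 1) a = r (ρ n a))
    (hr : ∀ a, r (σ₁ (r a)) = σ₁ a) (d : ℕ) (a : O) : ρ d (σ₁ (ρ d a)) = σ₁ a := by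
  induction d generalizing a with
  | zero => rw [h0, h0]
  | succ d ih => rw [hs, hs' d a, hr, ih]

theorem dihedX_add {r : O → O} (m n : ℕ) (a : O) : r^[m + n] a = r^[m] (r^[n] a) :=
  Function.iterate_add_apply r m n a

theorem dihedX_key2 {σ₁ σ₂ : O → O} (i₁ : ∀ a, σ₁ (σ₁ a) = a) (i₂ : ∀ a, σ₂ (σ₂ a) = a)
    (d : ℕ) (a : O) :
    (fun a => σ₁ (σ₂ a))^[d] (σ₁ ((fun a => σ₁ (σ₂ a))^[d] a)) = σ₁ a := by
  refine dihedX_key (ρ := fun n a => (fun a => σ₁ (σ₂ a))^[n] a) (r := fun a => σ₁ (σ₂ a))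
    (fun a => rfl) (fun n a => rfl) (fun n a => Function.iterate_succ_apply' _ _ _) ?_ d a
  intro a
  show σ₁ (σ₂ (σ₁ (σ₁ (σ₂ a)))) = σ₁ a
  rw [i₁, i₂]

/-- the reflections: `s_{m + j} ρ^d a = ρ^{j - d} s_m a` for `d ≤ j`. -/
theorem dihedX_refl {r σ₁ : O → O} (hk : ∀ d a, r^[d] (σ₁ (r^[d] a)) = σ₁ a)
    {m j d : ℕ} (hd : d ≤ j) (a : O) :
    r^[m + j] (σ₁ (r^[d] a)) = r^[j - d] (r^[m] (σ₁ a)) := by
  have e1 : m + j = (m + (j - d)) + d := by omega
  rw [e1, dihedX_add, hk, Nat.add_comm m (j - d), dihedX_add]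

theorem dihedX_refl2 {r σ₁ : O → O} (i₁ : ∀ a, σ₁ (σ₁ a) = a)
    (hk : ∀ d a, r^[d] (σ₁ (r^[d] a)) = σ₁ a)
    {m j d : ℕ} (hd : d ≤ j) (a : O) :
    r^[m + j] (σ₁ (r^[d] (r^[m] (σ₁ a)))) = r^[j - d] a := by
  have e1 : m + j = (j - d) + (m + d) := by omega
  have e2 : r^[d] (r^[m] (σ₁ a)) = r^[m + d] (σ₁ a) := by
    rw [Nat.add_comm m d, dihedX_add]
  rw [e2, e1, dihedX_add, hk, i₁]

/-- exponents can be reduced. -/
theorem dihedX_mod {r : O → O} {k : ℕ} {y : O} (hy : r^[k] y = y) (n : ℕ) :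
    r^[n] y = r^[n % k] y := by
  have h1 : ∀ q, r^[k * q] y = y := by
    intro q
    induction q with
    | zero => rfl
    | succ q ih => rw [Nat.mul_succ, dihedX_add, hy, ih]
  conv_lhs => rw [← Nat.mod_add_div n k, dihedX_add, h1]

theorem dihedX_fin {r : O → O} {k : ℕ} (hk0 : 0 < k) {y : O} (hy : r^[k] y = y) (n : ℕ) :
    ∃ s : Fin k, r^[n] y = r^[(s : ℕ)] y :=
  ⟨⟨n % k, Nat.mod_lt n hk0⟩, dihedX_mod hy n⟩

theorem dihedX_back {r : O → O} (hinj : Function.Injective r) {k : ℕ} (hk0 : 0 < k) {y : O}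
    (hy : r^[k] y = y) {a : O} {d t : ℕ} (hd : d ≤ k) (h : r^[d] a = r^[t] y) :
    ∃ s : Fin k, a = r^[(s : ℕ)] y := by
  obtain ⟨s, hs⟩ := dihedX_fin hk0 hy (k - d + t)
  refine ⟨s, ?_⟩
  rw [← hs]
  apply (hinj.iterate d)
  rw [h, ← dihedX_add]
  have e : d + (k - d + t) = t + k := by omega
  rw [e, dihedX_add, hy]

/-- no small period on the orbit of a point. -/
theorem dihedX_noper {r : O → O} (hinj : Function.Injective r) {k : ℕ} {y : O}
    (hmin : ∀ d, 0 < d → d < k → r^[d] y ≠ y) {d e : ℕ} (hd0 : 0 < d) (hdk : d < k) :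
    r^[d] (r^[e] y) ≠ r^[e] y := by
  intro h
  apply hmin d hd0 hdk
  apply hinj.iterate e
  rw [← dihedX_add, Nat.add_comm e d, dihedX_add, h]

end dihedAux


theorem dihed {O : Type} [Finite O] {F : (O → O → Prop) → Prop}
    (hcomp : ∀ R S, F R → F S → F (fun a b => ∃ c, R a c ∧ S c b))
    (hint : ∀ (m : ℕ) (R : Fin m → O → O → Prop), 0 < m → (∀ i, F (R i)) →
      F (fun a b => ∀ i, R i a b))
    {σ₁ σ₂ : O → O} (i₁ : ∀ a, σ₁ (σ₁ a) = a) (i₂ : ∀ a, σ₂ (σ₂ a) = a)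
    (h₁ : F (fun a b => b = σ₁ a)) (h₂ : F (fun a b => b = σ₂ a))
    (t₁ : F (fun a b => b = a ∨ b = σ₁ a)) (t₂ : F (fun a b => b = a ∨ b = σ₂ a)) {x₀ : O}
    (h₀ : F (fun _ b => b = x₀)) (hne : σ₁ (σ₂ x₀) ≠ σ₂ (σ₁ x₀)) :
    ∃ (k : ℕ) (R : O → O → Prop) (κ : O → Fin k) (γ : Fin k → O), 3 ≤ k ∧ F R ∧
      (∀ a b, R a b → κ a ≠ κ b) ∧ ∀ s t, s ≠ t → R (γ s) (γ t) := by
  classical
  set r : O → O := fun a => σ₁ (σ₂ a) with hr
  have hinj₁ : Function.Injective σ₁ := fun a b h => by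
    rw [← i₁ a, ← i₁ b, h]
  have hinj₂ : Function.Injective σ₂ := fun a b h => by
    rw [← i₂ a, ← i₂ b, h]
  have hinj : Function.Injective r := fun a b h => hinj₂ (hinj₁ h)
  have hk : ∀ d a, r^[d] (σ₁ (r^[d] a)) = σ₁ a := dihedX_key2 i₁ i₂
  -- the graphs of `ρ` and `ρ⁻¹`
  have Fr : F (fun a b => b = r a) := by
    have h := hcomp _ _ h₂ h₁
    have e : (fun a b => ∃ c, c = σ₂ a ∧ b = σ₁ c) = (fun a b => b = r a) := by
      funext a b
      apply propext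
      constructor
      · rintro ⟨c, rfl, rfl⟩
        rfl
      · rintro rfl
        exact ⟨σ₂ a, rfl, rfl⟩
    rw [← e]
    exact h
  have Fr' : F (fun a b => b = σ₂ (σ₁ a)) := by
    have h := hcomp _ _ h₁ h₂
    have e : (fun a b => ∃ c, c = σ₁ a ∧ b = σ₂ c) = (fun a b => b = σ₂ (σ₁ a)) := by
      funext a b
      apply propext
      constructor
      · rintro ⟨c, rfl, rfl⟩
        rfl
      · rintro rfl
        exact ⟨σ₁ a, rfl, rfl⟩
    rw [← e]
    exact h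
  -- the relations `Θ^m`
  have Fth : ∀ m : ℕ, F (fun a b => b = a ∨ b = r^[m] (σ₁ a)) := by
    have step : ∀ m : ℕ, F (fun a b => b = a ∨ b = r^[m] (σ₁ a)) →
        F (fun a b => b = a ∨ b = r^[m + 2] (σ₁ a)) := by
      intro m hm
      have h := hcomp _ _ (hcomp _ _ Fr' hm) Fr
      have key : ∀ a, r (r^[m] (σ₁ (σ₂ (σ₁ a)))) = r^[m + 2] (σ₁ a) := by
        intro a
        have e2 : r^[m] (σ₁ (σ₂ (σ₁ a))) = r^[m + 1] (σ₁ a) := rfl
        rw [e2]
        exact (Function.iterate_succ_apply' r (m + 1) (σ₁ a)).symm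
      have e : (fun a b => ∃ c, (∃ c', c' = σ₂ (σ₁ a) ∧ (c = c' ∨ c = r^[m] (σ₁ c'))) ∧ b = r c)
          = (fun a b => b = a ∨ b = r^[m + 2] (σ₁ a)) := by
        funext a b
        apply propext
        constructor
        · rintro ⟨c, ⟨c', rfl, h1 | h1⟩, rfl⟩
          · left
            rw [h1]
            show σ₁ (σ₂ (σ₂ (σ₁ a))) = a
            rw [i₂, i₁]
          · right
            rw [h1, key]
        · rintro (h1 | h1)
          · refine ⟨σ₂ (σ₁ a), ⟨_, rfl, Or.inl rfl⟩, ?_⟩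
            rw [h1]
            show a = σ₁ (σ₂ (σ₂ (σ₁ a)))
            rw [i₂, i₁]
          · exact ⟨_, ⟨_, rfl, Or.inr rfl⟩, by rw [h1, key]⟩
      rw [← e]
      exact h
    have base1 : F (fun a b => b = a ∨ b = r^[1] (σ₁ a)) := by
      have h := hcomp _ _ (hcomp _ _ h₁ t₂) h₁
      have e : (fun a b => ∃ c, (∃ c', c' = σ₁ a ∧ (c = c' ∨ c = σ₂ c')) ∧ b = σ₁ c)
          = (fun a b => b = a ∨ b = r^[1] (σ₁ a)) := by
        funext a b
        apply propext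
        constructor
        · rintro ⟨c, ⟨c', rfl, h1 | h1⟩, rfl⟩
          · left
            rw [h1, i₁]
          · right
            rw [h1]
            rfl
        · rintro (h1 | h1)
          · exact ⟨σ₁ a, ⟨_, rfl, Or.inl rfl⟩, by rw [h1, i₁]⟩
          · exact ⟨_, ⟨_, rfl, Or.inr rfl⟩, by rw [h1]; rfl⟩
      rw [← e]
      exact h
    intro m
    induction m using Nat.twoStepInduction with
    | zero => exact t₁
    | one => exact base1
    | more m ih _ => exact step m ih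
  -- the relations `C^m_{j + 1}`
  have FC : ∀ m j : ℕ, F (fun a b => ∃ d, d ≤ j ∧ (b = r^[d] a ∨ b = r^[d] (r^[m] (σ₁ a)))) := by
    intro m j
    induction j with
    | zero =>
      have e : (fun a b => b = a ∨ b = r^[m] (σ₁ a)) =
          (fun a b => ∃ d, d ≤ 0 ∧ (b = r^[d] a ∨ b = r^[d] (r^[m] (σ₁ a)))) := by
        funext a b
        apply propext
        constructor
        · intro h
          exact ⟨0, le_refl _, h⟩
        · rintro ⟨d, hd, h⟩
          obtain rfl : d = 0 := by omega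
          exact h
      rw [← e]
      exact Fth m
    | succ j ih =>
      have h := hcomp _ _ ih (Fth (m + (j + 1)))
      have e : (fun a b => ∃ c, (∃ d, d ≤ j ∧ (c = r^[d] a ∨ c = r^[d] (r^[m] (σ₁ a)))) ∧
          (b = c ∨ b = r^[m + (j + 1)] (σ₁ c))) =
          (fun a b => ∃ d, d ≤ j + 1 ∧ (b = r^[d] a ∨ b = r^[d] (r^[m] (σ₁ a)))) := by
        funext a b
        apply propext
        constructor
        · rintro ⟨c, ⟨d, hd, hc⟩, hb | hb⟩
          · exact ⟨d, by omega, by rw [hb]; exact hc⟩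
          · rcases hc with hc | hc
            · refine ⟨j + 1 - d, by omega, Or.inr ?_⟩
              rw [hb, hc, dihedX_refl hk (by omega)]
            · refine ⟨j + 1 - d, by omega, Or.inl ?_⟩
              rw [hb, hc, dihedX_refl2 i₁ hk (by omega)]
        · rintro ⟨d, hd, hb⟩
          rcases Nat.lt_or_ge j d with hdj | hdj
          · obtain rfl : d = j + 1 := by omega
            rcases hb with hb | hb
            · refine ⟨r^[m] (σ₁ a), ⟨0, by omega, Or.inr rfl⟩, Or.inr ?_⟩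
              have := dihedX_refl2 i₁ hk (m := m) (j := j + 1) (d := 0) (by omega) a
              rw [hb]
              exact this.symm
            · refine ⟨a, ⟨0, by omega, Or.inl rfl⟩, Or.inr ?_⟩
              have := dihedX_refl hk (m := m) (j := j + 1) (d := 0) (by omega) a
              rw [hb]
              exact this.symm
          · exact ⟨b, ⟨d, hdj, hb⟩, Or.inl rfl⟩
      rw [← e]
      exact h
  -- the period
  have hex : ∃ k, 0 < k ∧ r^[k] x₀ = x₀ := by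
    obtain ⟨m, n, hmn, he⟩ : ∃ m n : ℕ, m < n ∧ r^[m] x₀ = r^[n] x₀ := by
      obtain ⟨m, n, hne', he⟩ := Finite.exists_ne_map_eq_of_infinite (fun n : ℕ => r^[n] x₀)
      rcases Nat.lt_or_gt_of_ne hne' with h | h
      · exact ⟨m, n, h, he⟩
      · exact ⟨n, m, h, he.symm⟩
    refine ⟨n - m, by omega, ?_⟩
    apply hinj.iterate m
    rw [← dihedX_add, show m + (n - m) = n by omega, ← he]
  obtain ⟨k, ⟨hk0, hkx⟩, hmin'⟩ : ∃ k, (0 < k ∧ r^[k] x₀ = x₀) ∧
      ∀ d, d < k → ¬ (0 < d ∧ r^[d] x₀ = x₀) :=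
    ⟨Nat.find hex, Nat.find_spec hex, fun d hd => Nat.find_min hex hd⟩
  have hmin : ∀ d, 0 < d → d < k → r^[d] x₀ ≠ x₀ := fun d h0 h1 h2 => hmin' d h1 ⟨h0, h2⟩
  have hk3 : 3 ≤ k := by
    have hk1 : k ≠ 1 := by
      rintro rfl
      apply hne
      have h1 : σ₁ (σ₂ x₀) = x₀ := hkx
      have h2 : σ₂ x₀ = σ₁ x₀ := by
        rw [← i₁ (σ₂ x₀), h1]
      rw [h1, ← h2, i₂]
    have hk2 : k ≠ 2 := by
      rintro rfl
      apply hne
      have h1 : σ₁ (σ₂ (σ₁ (σ₂ x₀))) = x₀ := hkx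
      have h2 := congrArg (fun z => σ₂ (σ₁ z)) h1
      simp only [i₁, i₂] at h2
      exact h2
    omega
  -- the second orbit
  have hmin2 : ∀ d, 0 < d → d < k → r^[d] (σ₁ x₀) ≠ σ₁ x₀ := by
    intro d h0 h1 h2
    apply hmin d h0 h1
    have h3 := hk d x₀
    have h4 : r^[d] (σ₁ (r^[d] x₀)) = r^[d] (σ₁ x₀) := by rw [h3, h2]
    have h5 := (hinj.iterate d) h4
    exact hinj₁ h5
  have hky : r^[k] (σ₁ x₀) = σ₁ x₀ := by
    have h3 := hk k x₀
    rw [hkx] at h3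
    exact h3
  -- the relation `b ∈ B`
  have FB : F (fun _ b => ∃ d, d ≤ k - 1 ∧ (b = r^[d] x₀ ∨ b = r^[d] (σ₁ x₀))) := by
    have h := hcomp _ _ h₀ (FC 0 (k - 1))
    have e : (fun (_ : O) b => ∃ c, c = x₀ ∧
        ∃ d, d ≤ k - 1 ∧ (b = r^[d] c ∨ b = r^[d] (r^[0] (σ₁ c)))) =
        (fun _ b => ∃ d, d ≤ k - 1 ∧ (b = r^[d] x₀ ∨ b = r^[d] (σ₁ x₀))) := by
      funext a b
      apply propext
      constructor
      · rintro ⟨c, hc, h'⟩
        rw [hc] at h'
        exact h'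
      · intro h'
        exact ⟨x₀, rfl, h'⟩
    rw [← e]
    exact h
  -- the relations `S^m`
  have FS : ∀ m : ℕ, F (fun a b => ∃ d, 1 ≤ d ∧ d ≤ k - 1 ∧
      (b = r^[d] a ∨ b = r^[d] (r^[m] (σ₁ a)))) := by
    intro m
    have h := hcomp _ _ (FC m (k - 2)) Fr
    have e : (fun a b => ∃ c, (∃ d, d ≤ k - 2 ∧ (c = r^[d] a ∨ c = r^[d] (r^[m] (σ₁ a)))) ∧
        b = r c) = (fun a b => ∃ d, 1 ≤ d ∧ d ≤ k - 1 ∧
      (b = r^[d] a ∨ b = r^[d] (r^[m] (σ₁ a)))) := by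
      funext a b
      apply propext
      constructor
      · rintro ⟨c, ⟨d, hd, hc⟩, rfl⟩
        refine ⟨d + 1, by omega, by omega, ?_⟩
        rcases hc with hc | hc
        · left
          rw [hc, Function.iterate_succ_apply' r d]
        · right
          rw [hc, Function.iterate_succ_apply' r d]
      · rintro ⟨d, hd1, hd, hb⟩
        obtain ⟨d, rfl⟩ : ∃ d', d = d' + 1 := ⟨d - 1, by omega⟩
        rcases hb with hb | hb
        · exact ⟨r^[d] a, ⟨d, by omega, Or.inl rfl⟩, by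
            rw [hb, Function.iterate_succ_apply' r d]⟩
        · exact ⟨r^[d] (r^[m] (σ₁ a)), ⟨d, by omega, Or.inr rfl⟩, by
            rw [hb, Function.iterate_succ_apply' r d]⟩
    rw [← e]
    exact h
  -- the relation `R`
  set R : O → O → Prop := fun a b => (∃ d, d ≤ k - 1 ∧ (b = r^[d] x₀ ∨ b = r^[d] (σ₁ x₀))) ∧
    ∀ m : Fin k, ∃ d, 1 ≤ d ∧ d ≤ k - 1 ∧
      (b = r^[d] a ∨ b = r^[d] (r^[(m : ℕ)] (σ₁ a))) with hR
  have FR : F R := by
    have h1 := hint k (fun m a b => ∃ d, 1 ≤ d ∧ d ≤ k - 1 ∧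
      (b = r^[d] a ∨ b = r^[d] (r^[(m : ℕ)] (σ₁ a)))) hk0 (fun m => FS m)
    have h2 := hint 2 (fun i => if i = 0 then
        (fun _ b => ∃ d, d ≤ k - 1 ∧ (b = r^[d] x₀ ∨ b = r^[d] (σ₁ x₀))) else
        (fun a b => ∀ m : Fin k, ∃ d, 1 ≤ d ∧ d ≤ k - 1 ∧
          (b = r^[d] a ∨ b = r^[d] (r^[(m : ℕ)] (σ₁ a))))) (by norm_num) (by
        intro i
        by_cases hi : i = 0
        · simp only [hi, if_true]
          exact FB
        · simp only [hi, if_false]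
          exact h1)
    have e : (fun a b => ∀ i : Fin 2, (if i = 0 then
        (fun (_ : O) (b : O) => ∃ d, d ≤ k - 1 ∧ (b = r^[d] x₀ ∨ b = r^[d] (σ₁ x₀))) else
        (fun a b => ∀ m : Fin k, ∃ d, 1 ≤ d ∧ d ≤ k - 1 ∧
          (b = r^[d] a ∨ b = r^[d] (r^[(m : ℕ)] (σ₁ a))))) a b) = R := by
      funext a b
      apply propext
      constructor
      · intro h
        exact ⟨by simpa using h 0, by simpa using h 1⟩
      · rintro ⟨h3, h4⟩ i
        by_cases hi : i = 0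
        · simp only [hi, if_true]
          exact h3
        · simp only [hi, if_false]
          exact h4
    rw [← e]
    exact h2
  -- elements of `B` have no small period
  have hnoper : ∀ b : O, (∃ d, d ≤ k - 1 ∧ (b = r^[d] x₀ ∨ b = r^[d] (σ₁ x₀))) →
      ∀ d, 0 < d → d < k → r^[d] b ≠ b := by
    rintro b ⟨e, -, he | he⟩ d hd0 hdk
    · rw [he]
      exact dihedX_noper hinj hmin hd0 hdk
    · rw [he]
      exact dihedX_noper hinj hmin2 hd0 hdk
  have hRrot : ∀ a b, R a b → ∃ d, 0 < d ∧ d < k ∧ b = r^[d] a := by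
    rintro a b ⟨hB, hS⟩
    obtain ⟨e, he1, he2, he3⟩ := hS ⟨0, hk0⟩
    rcases he3 with he3 | he3
    · exact ⟨e, by omega, by omega, he3⟩
    · obtain ⟨d, hd1, hd2, hd3⟩ := hS ⟨e, by omega⟩
      rcases hd3 with hd3 | hd3
      · exact ⟨d, by omega, by omega, hd3⟩
      · exfalso
        apply hnoper b hB d (by omega) (by omega)
        have h5 : b = r^[e] (σ₁ a) := he3
        rw [← h5] at hd3
        exact hd3.symm
  -- the functions
  let P : O → O → Prop := fun y a => ∃ s : Fin k, a = r^[(s : ℕ)] y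
  let κ : O → Fin k := fun a => if h : P x₀ a then Classical.choose h else
    if h : P (σ₁ x₀) a then Classical.choose h else ⟨0, hk0⟩
  have hκ1 : ∀ a, P x₀ a → a = r^[(κ a : ℕ)] x₀ := by
    intro a h
    have e : κ a = Classical.choose h := by
      show (if h : P x₀ a then Classical.choose h else
        if h : P (σ₁ x₀) a then Classical.choose h else ⟨0, hk0⟩) = _
      rw [dif_pos h]
    rw [e]
    exact Classical.choose_spec h
  have hκ2 : ∀ a, ¬ P x₀ a → P (σ₁ x₀) a → a = r^[(κ a : ℕ)] (σ₁ x₀) := by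
    intro a h' h
    have e : κ a = Classical.choose h := by
      show (if h : P x₀ a then Classical.choose h else
        if h : P (σ₁ x₀) a then Classical.choose h else ⟨0, hk0⟩) = _
      rw [dif_neg h', dif_pos h]
    rw [e]
    exact Classical.choose_spec h
  refine ⟨k, R, κ, fun s => r^[(s : ℕ)] x₀, hk3, FR, ?_, ?_⟩
  · intro a b hab hκ
    obtain ⟨d, hd0, hdk, hb⟩ := hRrot a b hab
    have hne' : a ≠ b := by
      intro h
      apply hnoper b hab.1 d hd0 hdk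
      rw [h] at hb
      exact hb.symm
    by_cases hPb : P x₀ b
    · have hPa : P x₀ a := by
        obtain ⟨t, ht⟩ := hPb
        exact dihedX_back hinj hk0 hkx (le_of_lt hdk) (hb.symm.trans ht)
      apply hne'
      rw [hκ1 a hPa, hκ1 b hPb, hκ]
    · have hPa : ¬ P x₀ a := by
        rintro ⟨s, hs⟩
        apply hPb
        obtain ⟨u, hu⟩ := dihedX_fin hk0 hkx (d + s)
        exact ⟨u, by rw [hb, hs, ← hu, dihedX_add]⟩
      have hPb2 : P (σ₁ x₀) b := by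
        obtain ⟨t, ht, h1 | h1⟩ := hab.1
        · exact absurd ⟨⟨t, by omega⟩, h1⟩ hPb
        · exact ⟨⟨t, by omega⟩, h1⟩
      have hPa2 : P (σ₁ x₀) a := by
        obtain ⟨t, ht⟩ := hPb2
        exact dihedX_back hinj hk0 hky (le_of_lt hdk) (hb.symm.trans ht)
      apply hne'
      rw [hκ2 a hPa hPa2, hκ2 b hPb hPb2, hκ]
  · intro s t hst
    have hsk := s.2
    have htk := t.2
    have hst' : (s : ℕ) ≠ (t : ℕ) := fun h => hst (Fin.ext h)
    refine ⟨⟨t, by omega, Or.inl rfl⟩, fun m => ?_⟩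
    rcases Nat.lt_or_gt_of_ne hst' with h | h
    · refine ⟨(t : ℕ) - s, by omega, by omega, Or.inl ?_⟩
      rw [← dihedX_add, Nat.sub_add_cancel (le_of_lt h)]
    · refine ⟨(t : ℕ) + k - s, by omega, by omega, Or.inl ?_⟩
      rw [← dihedX_add, Nat.sub_add_cancel (by omega), dihedX_add, hkx]

end Pool.Agent.H24.GL
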