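import Pool.Agent.H24.GL.FD
import Pool.Agent.H24.GL.Dihed

/-!
# JOB GL-6: a type whose bipartite graph has a long cycle

`swp`: let `num t = 2`. For `Dt t x y` there is exactly one `y'` such that the ends of the darts of type `t` at `x` are `y, y'`
(`∀ z, (if y = z then 1 else 0) + (if y' = z then 1 else 0) = M t x z`): `y' = y` if `M t x y = 2`, otherwise the other end.
`case_b`. `y ≠ y'` (by `z`), so `num t = 2` (`h2`; `num t ≥ 2` by `M_two`), and `M t x y = M t x y' = 1`. `num (bar t) = 2`: `t` is not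
matched, so `num (bar t) ≤ 2`; if it is `1` then `z = x` (`M (bar t) y z ≤ 1` ...: `Dt (bar t) y x` and `Dt (bar t) y z`, `M_two`), but
`Dt (bar t) y' x`, contradiction. Let `O = {a : LV × LV // Dt t a.1 a.2}`, `σ₁ (x, y) = (x, y')` with the other end `y'` of `x`,
`σ₂ (x, y) = (x', y)` with the other end `x'` of `y` for the type `bar t` (`swp`). They are involutions. At `x₀ = (x, y)`:
`σ₂ (σ₁ (x, y)) = (x'', y')` with the ends `x, x''` of `y'`; `σ₁ (σ₂ (x, y)) = (x', _)` with the ends `x, x'` of `y`. `z` is an end of `y` and not of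
`y'`, so `z = x'`, and `z ≠ x''`; so they do not commute.
`F R` iff `FD H κ (fun u => ∃ a b : O, R a b ∧ u (false, false) = a.1.1 ∧ u (false, true) = a.1.2 ∧ u (true, false) = b.1.1 ∧
u (true, true) = b.1.2)`, where the variables are `Bool × Bool` and `κ (_, false) = x`, `κ (_, true) = y`. Composition: `fd_ex` for two more
variables (`Bool`), `fd_comap`, `fd_and`. Intersection: `fd_all` (the pairs `a, b` are determined by `u`; `m > 0`). The graph of `σ₁`:
`u (false, false) = u (true, false)` (`fd_eq`, `fd_comap`) and `fd_st2` for `t` and the variables `(false, false), (false, true), (true, true)`,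
and `fd_dt` for `a` and `b`. `Θ₁`: `u (false, false) = u (true, false)` and `fd_dt` for `a`, `b` (an end of `x` is `y` or the other one). `σ₂`,
`Θ₂`: the same for `bar t`. `b = x₀`: `fd_const` for the two variables of `b`, `fd_dt` for `a`. Then `dihed`, `fd_hard` with `J = Bool`.
-/

namespace Pool.Agent.H24.GL

open Pool.Agent.H24.GC Pool.Agent.H24.GE Pool.Agent.H24.GG Pool.Agent.H24.GH Pool.Agent.H24.GI
  Pool.Agent.H24.GK Pool.Agent.PPS Pool.Agent.H64.Cook Pool.Agent.H79.Thr

variable {n : ℕ} {H : SimpleGraph (Fin n)}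

/-- the ends of the darts of type `t` at `x` are `y, y'` -/
private def CbS (H : SimpleGraph (Fin n)) (t : LT H) (x y y' : LV H) : Prop :=
  ∀ z, {b : Fin 3 | b ≠ 0 ∧ (![x, y, y'] b) = z}.ncard = (lab H).M t x z

open Classical in
private theorem cb_card (x y y' z : LV H) : {b : Fin 3 | b ≠ 0 ∧ (![x, y, y'] b) = z}.ncard =
    (if y = z then 1 else 0) + (if y' = z then 1 else 0) := by
  by_cases h1 : y = z
  · by_cases h2 : y' = z
    · have h3 : {b : Fin 3 | b ≠ 0 ∧ (![x, y, y'] b) = z} = {1, 2} := by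
        ext i
        fin_cases i <;> simp [h1, h2]
      rw [h3, Set.ncard_pair (by decide), if_pos h1, if_pos h2]
    · have h3 : {b : Fin 3 | b ≠ 0 ∧ (![x, y, y'] b) = z} = {1} := by
        ext i
        fin_cases i <;> simp [h1, h2]
      rw [h3, Set.ncard_singleton, if_pos h1, if_neg h2]
  · by_cases h2 : y' = z
    · have h3 : {b : Fin 3 | b ≠ 0 ∧ (![x, y, y'] b) = z} = {2} := by
        ext i
        fin_cases i <;> simp [h1, h2]
      rw [h3, Set.ncard_singleton, if_neg h1, if_pos h2]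
    · have h3 : {b : Fin 3 | b ≠ 0 ∧ (![x, y, y'] b) = z} = ∅ := by
        ext i
        fin_cases i <;> simp [h1, h2]
      rw [h3, Set.ncard_empty, if_neg h1, if_neg h2]

open Classical in
private theorem cbs_iff {t : LT H} {x y y' : LV H} : CbS H t x y y' ↔
    ∀ z, (if y = z then 1 else 0) + (if y' = z then 1 else 0) = (lab H).M t x z :=
  forall_congr' fun z => by rw [cb_card]

private theorem cbs_symm {t : LT H} {x y y' : LV H} (h : CbS H t x y y') : CbS H t x y' y := by
  rw [cbs_iff] at h ⊢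
  intro z
  rw [add_comm]
  exact h z

private theorem cbs_dt {t : LT H} {x y y' : LV H} (h : CbS H t x y y') :
    Dt (lab H) t x y' := by
  rw [cbs_iff] at h
  rw [dt_iff, ← h y', if_pos (rfl : y' = y')]
  omega

private theorem cbs_or {t : LT H} {x y y' z : LV H} (h : CbS H t x y y')
    (hz : Dt (lab H) t x z) : z = y ∨ z = y' := by
  rw [cbs_iff] at h
  rw [dt_iff, ← h z] at hz
  by_contra hc
  rw [not_or] at hc
  rw [if_neg (fun e => hc.1 e.symm), if_neg (fun e => hc.2 e.symm)] at hz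
  exact hz rfl

private theorem cbs_uniq {t : LT H} {x y y' y'' : LV H} (h : CbS H t x y y')
    (h' : CbS H t x y y'') : y'' = y' := by
  rw [cbs_iff] at h h'
  have h1 := h y'
  rw [← h' y', if_pos (rfl : y' = y')] at h1
  by_contra hc
  rw [if_neg hc] at h1
  omega

private theorem cbs_ex {t : LT H} (ht : (lab H).num t = 2) {x y : LV H}
    (h : Dt (lab H) t x y) : ∃ y', CbS H t x y y' := by
  obtain ⟨d, p1, p2, p3⟩ := h
  have h1 := (lab H).num_eq x t (by rw [← p1, (lab H).cl_tl, p3])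
  rw [ht, Set.ncard_eq_two] at h1
  obtain ⟨d₁, d₂, hne, h2⟩ := h1
  have key : ∀ d d' : LD H, d ≠ d' → {d | (lab H).tl d = x ∧ (lab H).ty d = t} = {d, d'} →
      CbS H t x ((lab H).hd d) ((lab H).hd d') := by
    intro d d' hdd h3
    rw [cbs_iff]
    intro z
    have h4 : {e | (lab H).tl e = x ∧ (lab H).ty e = t ∧ (lab H).hd e = z} =
        {e | e ∈ ({d, d'} : Set (LD H)) ∧ (lab H).hd e = z} := by
      rw [← h3]
      ext e
      exact and_assoc.symm
    unfold LS.M
    rw [h4]
    by_cases h5 : (lab H).hd d = z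
    · by_cases h6 : (lab H).hd d' = z
      · have h7 : {e | e ∈ ({d, d'} : Set (LD H)) ∧ (lab H).hd e = z} = {d, d'} := by
          ext e
          constructor
          · exact fun h => h.1
          · rintro (rfl | rfl)
            · exact ⟨Or.inl rfl, h5⟩
            · exact ⟨Or.inr rfl, h6⟩
        rw [h7, Set.ncard_pair hdd, if_pos h5, if_pos h6]
      · have h7 : {e | e ∈ ({d, d'} : Set (LD H)) ∧ (lab H).hd e = z} = {d} := by
          ext e
          constructor
          · rintro ⟨rfl | rfl, h⟩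
            · rfl
            · exact (h6 h).elim
          · rintro rfl
            exact ⟨Or.inl rfl, h5⟩
        rw [h7, Set.ncard_singleton, if_pos h5, if_neg h6]
    · by_cases h6 : (lab H).hd d' = z
      · have h7 : {e | e ∈ ({d, d'} : Set (LD H)) ∧ (lab H).hd e = z} = {d'} := by
          ext e
          constructor
          · rintro ⟨rfl | rfl, h⟩
            · exact (h5 h).elim
            · rfl
          · rintro rfl
            exact ⟨Or.inr rfl, h6⟩
        rw [h7, Set.ncard_singleton, if_neg h5, if_pos h6]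
      · have h7 : {e | e ∈ ({d, d'} : Set (LD H)) ∧ (lab H).hd e = z} = ∅ := by
          ext e
          constructor
          · rintro ⟨rfl | rfl, h⟩
            · exact (h5 h).elim
            · exact (h6 h).elim
          · exact fun h => h.elim
        rw [h7, Set.ncard_empty, if_neg h5, if_neg h6]
  have h3 : d ∈ ({d₁, d₂} : Set (LD H)) := by
    rw [← h2]
    exact ⟨p1, p3⟩
  rcases h3 with rfl | rfl
  · refine ⟨(lab H).hd d₂, ?_⟩
    rw [← p2]
    exact key d d₂ hne h2
  · refine ⟨(lab H).hd d₁, ?_⟩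
    rw [← p2]
    exact key d d₁ hne.symm (by rw [h2, Set.pair_comm])

theorem swp {t : LT H} (ht : (lab H).num t = 2) {x y : LV H} (h : Dt (lab H) t x y) :
    ∃ y', Dt (lab H) t x y' ∧ (∀ z, {b : Fin 3 | b ≠ 0 ∧ (![x, y, y'] b) = z}.ncard =
      (lab H).M t x z) ∧ ∀ y'', (∀ z, {b : Fin 3 | b ≠ 0 ∧ (![x, y, y''] b) = z}.ncard =
      (lab H).M t x z) → y'' = y' := by
  obtain ⟨y', h1⟩ := cbs_ex ht h
  exact ⟨y', cbs_dt h1, h1, fun y'' h2 => cbs_uniq h1 h2⟩

open Classical in
/-- the other end -/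
private noncomputable def cbo (H : SimpleGraph (Fin n)) (t : LT H) (x y : LV H) : LV H :=
  if h : ∃ y', CbS H t x y y' then h.choose else y

private theorem cbo_spec {t : LT H} (ht : (lab H).num t = 2) {x y : LV H}
    (h : Dt (lab H) t x y) : CbS H t x y (cbo H t x y) := by
  unfold cbo
  rw [dif_pos (cbs_ex ht h)]
  exact (cbs_ex ht h).choose_spec

private theorem cbo_eq {t : LT H} (ht : (lab H).num t = 2) {x y y' : LV H}
    (h : CbS H t x y y') : cbo H t x y = y' :=
  cbs_uniq h (cbo_spec ht (cbs_dt (cbs_symm h)))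

private theorem cbo_inv {t : LT H} (ht : (lab H).num t = 2) {x y : LV H}
    (h : Dt (lab H) t x y) : cbo H t x (cbo H t x y) = y :=
  cbo_eq ht (cbs_symm (cbo_spec ht h))

/-- the reversed dart -/
private theorem cb_back {t : LT H} {x y : LV H} (h : Dt (lab H) ((lab H).bar t) x y) :
    Dt (lab H) t y x := by
  have h1 := dt_symm h
  rwa [(lab H).bar_bar] at h1

private theorem cb_q {t : LT H} {a b c : LV H} {q : Fin 3 → LV H} (h0 : q 0 = a)
    (h1 : q 1 = b) (h2 : q 2 = c) :
    (∀ z, {i : Fin 3 | i ≠ 0 ∧ q i = z}.ncard = (lab H).M t (q 0) z) ↔ CbS H t a b c := by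
  have h3 : q = ![a, b, c] := by
    funext i
    fin_cases i
    · exact h0
    · exact h1
    · exact h2
  subst h3
  exact Iff.rfl

/-- the class function of the variables -/
private def cbk (x y : LV H) (b : Bool) : LV H := if b then y else x

/-- the relation of the values -/
private def cbR (H : SimpleGraph (Fin n)) (t : LT H)
    (R : {a : LV H × LV H // Dt (lab H) t a.1 a.2} → {a : LV H × LV H // Dt (lab H) t a.1 a.2} →
      Prop) (u : Bool × Bool → LV H) : Prop :=
  ∃ a b, R a b ∧ u (false, false) = a.1.1 ∧ u (false, true) = a.1.2 ∧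
    u (true, false) = b.1.1 ∧ u (true, true) = b.1.2

/-- the family of relations -/
private def cbF (H : SimpleGraph (Fin n)) (t : LT H) (x y : LV H)
    (R : {a : LV H × LV H // Dt (lab H) t a.1 a.2} → {a : LV H × LV H // Dt (lab H) t a.1 a.2} →
      Prop) : Prop :=
  FD H (fun p : Bool × Bool => cbk x y p.2) (cbR H t R)

private theorem cb_key {t : LT H}
    {R : {a : LV H × LV H // Dt (lab H) t a.1 a.2} → {a : LV H × LV H // Dt (lab H) t a.1 a.2} →
      Prop} {u : Bool × Bool → LV H} : cbR H t R u ↔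
    ∃ (h : Dt (lab H) t (u (false, false)) (u (false, true)))
      (h' : Dt (lab H) t (u (true, false)) (u (true, true))),
      R ⟨(u (false, false), u (false, true)), h⟩ ⟨(u (true, false), u (true, true)), h'⟩ := by
  constructor
  · rintro ⟨⟨⟨a1, a2⟩, ha⟩, ⟨⟨b1, b2⟩, hb⟩, hR, e1, e2, e3, e4⟩
    dsimp only at e1 e2 e3 e4
    subst e1 e2 e3 e4
    exact ⟨ha, hb, hR⟩
  · rintro ⟨h, h', hR⟩
    exact ⟨_, _, hR, rfl, rfl, rfl, rfl⟩

private theorem cb_mk {t : LT H} {x y : LV H}
    {R : {a : LV H × LV H // Dt (lab H) t a.1 a.2} → {a : LV H × LV H // Dt (lab H) t a.1 a.2} →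
      Prop} {ρ : (Bool × Bool → LV H) → Prop}
    (h : FD H (fun p : Bool × Bool => cbk x y p.2) ρ)
    (h' : ∀ u, (∃ (h : Dt (lab H) t (u (false, false)) (u (false, true)))
      (h' : Dt (lab H) t (u (true, false)) (u (true, true))),
      R ⟨(u (false, false), u (false, true)), h⟩ ⟨(u (true, false), u (true, true)), h'⟩) ↔ ρ u) :
    cbF H t x y R :=
  fd_iff h fun u _ => cb_key.trans (h' u)

section

variable (hm : Mul H) (hred : Redc (lab H))

include hm hred

private theorem cb_comp {t : LT H} {x y : LV H}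
    {R S : {a : LV H × LV H // Dt (lab H) t a.1 a.2} → {a : LV H × LV H // Dt (lab H) t a.1 a.2} →
      Prop} (hR : cbF H t x y R) (hS : cbF H t x y S) :
    cbF H t x y (fun a b => ∃ c, R a c ∧ S c b) := by
  have h1 := fd_comap hm hred
    (κ' := Sum.elim (fun p : Bool × Bool => cbk x y p.2) (fun b : Bool => cbk x y b)) hR
    (fun p : Bool × Bool => (if p.1 then Sum.inr p.2 else Sum.inl (false, p.2) :
      (Bool × Bool) ⊕ Bool)) (by rintro ⟨_ | _, _⟩ <;> rfl)
  have h2 := fd_comap hm hred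
    (κ' := Sum.elim (fun p : Bool × Bool => cbk x y p.2) (fun b : Bool => cbk x y b)) hS
    (fun p : Bool × Bool => (if p.1 then Sum.inl (true, p.2) else Sum.inr p.2 :
      (Bool × Bool) ⊕ Bool)) (by rintro ⟨_ | _, _⟩ <;> rfl)
  refine fd_iff (fd_ex (κ := fun p : Bool × Bool => cbk x y p.2)
    (κ₁ := fun b : Bool => cbk x y b) (fd_and h1 h2)) fun u hu => ?_
  constructor
  · rintro ⟨a, b, ⟨c, h3, h4⟩, e1, e2, e3, e4⟩
    refine ⟨fun b => if b then c.1.2 else c.1.1, ?_, ⟨a, c, h3, e1, e2, rfl, rfl⟩,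
      ⟨c, b, h4, rfl, rfl, e3, e4⟩⟩
    have h5 := dt_cl a.2
    have h6 := dt_cl c.2
    have e5 := hu (false, false)
    have e6 := hu (false, true)
    rw [e1] at e5
    rw [e2] at e6
    rintro (_ | _)
    · exact (h6.1.trans h5.1.symm).trans e5
    · exact (h6.2.trans h5.2.symm).trans e6
  · rintro ⟨u₁, hu₁, ⟨a, c, h3, e1, e2, e3, e4⟩, ⟨c', b, h4, f1, f2, f3, f4⟩⟩
    have e5 : c' = c := by
      refine Subtype.ext (Prod.ext ?_ ?_)
      · exact f1.symm.trans e3
      · exact f2.symm.trans e4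
    subst e5
    exact ⟨a, b, ⟨c', h3, h4⟩, e1, e2, f3, f4⟩

private theorem cb_int {t : LT H} {x y : LV H} (m : ℕ)
    (R : Fin m → {a : LV H × LV H // Dt (lab H) t a.1 a.2} →
      {a : LV H × LV H // Dt (lab H) t a.1 a.2} → Prop) (hm0 : 0 < m)
    (hR : ∀ i, cbF H t x y (R i)) : cbF H t x y (fun a b => ∀ i, R i a b) := by
  refine cb_mk (fd_all hm hred hR) fun u => ?_
  constructor
  · rintro ⟨h, h', h3⟩ i
    exact cb_key.mpr ⟨h, h', h3 i⟩
  · intro h3
    obtain ⟨h, h', -⟩ := cb_key.mp (h3 ⟨0, hm0⟩)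
    refine ⟨h, h', fun i => ?_⟩
    obtain ⟨g, g', h4⟩ := cb_key.mp (h3 i)
    exact h4

/-- `a` and `b` are darts -/
private theorem cb_dts {t : LT H} {x y : LV H} (h : Dt (lab H) t x y) :
    FD H (fun p : Bool × Bool => cbk x y p.2) (fun u =>
      Dt (lab H) t (u (false, false)) (u (false, true)) ∧
      Dt (lab H) t (u (true, false)) (u (true, true))) := by
  have d0 := fd_dt hm hred (t := t) (κ := cbk x y) (dt_cl h).1 (dt_cl h).2
  exact fd_and (fd_comap hm hred (κ' := fun p : Bool × Bool => cbk x y p.2) d0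
    (fun b : Bool => (false, b)) (fun _ => rfl))
    (fd_comap hm hred (κ' := fun p : Bool × Bool => cbk x y p.2) d0
    (fun b : Bool => (true, b)) (fun _ => rfl))

/-- equal first vertices -/
private theorem cb_e1 (x y : LV H) :
    FD H (fun p : Bool × Bool => cbk x y p.2) (fun u => u (false, false) = u (true, false)) :=
  fd_comap hm hred (κ' := fun p : Bool × Bool => cbk x y p.2) (fd_eq hm hred x)
    (fun b : Bool => (b, false)) (fun _ => rfl)

/-- equal second vertices -/
private theorem cb_e2 (x y : LV H) :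
    FD H (fun p : Bool × Bool => cbk x y p.2) (fun u => u (false, true) = u (true, true)) :=
  fd_comap hm hred (κ' := fun p : Bool × Bool => cbk x y p.2) (fd_eq hm hred y)
    (fun b : Bool => (b, true)) (fun _ => rfl)

private theorem cb_const {t : LT H} {x y : LV H} (h : Dt (lab H) t x y) :
    cbF H t x y (fun _ b => b = ⟨(x, y), h⟩) := by
  refine cb_mk (fd_and (cb_dts hm hred h) (fd_and
    (fd_comap hm hred (κ' := fun p : Bool × Bool => cbk x y p.2) (fd_const hm hred x)
    (fun _ : Unit => ((true, false) : Bool × Bool)) (fun _ => rfl))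
    (fd_comap hm hred (κ' := fun p : Bool × Bool => cbk x y p.2) (fd_const hm hred y)
    (fun _ : Unit => ((true, true) : Bool × Bool)) (fun _ => rfl)))) fun u => ?_
  constructor
  · rintro ⟨h1, h2, h3⟩
    exact ⟨⟨h1, h2⟩, congrArg (fun a => a.1.1) h3, congrArg (fun a => a.1.2) h3⟩
  · rintro ⟨⟨h1, h2⟩, h3, h4⟩
    exact ⟨h1, h2, Subtype.ext (Prod.ext h3 h4)⟩

private theorem cb_t1 {t : LT H} {x y : LV H} (h : Dt (lab H) t x y)
    (ht : (lab H).num t = 2)
    (σ : {a : LV H × LV H // Dt (lab H) t a.1 a.2} → {a : LV H × LV H // Dt (lab H) t a.1 a.2})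
    (hσ : ∀ a, (σ a).1 = (a.1.1, cbo H t a.1.1 a.1.2)) :
    cbF H t x y (fun a b => b = a ∨ b = σ a) := by
  refine cb_mk (fd_and (cb_dts hm hred h) (cb_e1 hm hred x y)) fun u => ?_
  constructor
  · rintro ⟨h1, h2, h3⟩
    refine ⟨⟨h1, h2⟩, ?_⟩
    rcases h3 with h3 | h3
    · exact (congrArg (fun a => a.1.1) h3).symm
    · have h4 := congrArg Subtype.val h3
      rw [hσ] at h4
      exact (congrArg Prod.fst h4).symm
  · rintro ⟨⟨h1, h2⟩, h3⟩
    refine ⟨h1, h2, ?_⟩
    have h4 := h2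
    rw [← h3] at h4
    rcases cbs_or (cbo_spec ht h1) h4 with h5 | h5
    · exact Or.inl (Subtype.ext (Prod.ext h3.symm h5))
    · refine Or.inr (Subtype.ext ?_)
      rw [hσ]
      exact Prod.ext h3.symm h5

private theorem cb_t2 {t : LT H} {x y : LV H} (h : Dt (lab H) t x y)
    (ht : (lab H).num ((lab H).bar t) = 2)
    (σ : {a : LV H × LV H // Dt (lab H) t a.1 a.2} → {a : LV H × LV H // Dt (lab H) t a.1 a.2})
    (hσ : ∀ a, (σ a).1 = (cbo H ((lab H).bar t) a.1.2 a.1.1, a.1.2)) :
    cbF H t x y (fun a b => b = a ∨ b = σ a) := by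
  refine cb_mk (fd_and (cb_dts hm hred h) (cb_e2 hm hred x y)) fun u => ?_
  constructor
  · rintro ⟨h1, h2, h3⟩
    refine ⟨⟨h1, h2⟩, ?_⟩
    rcases h3 with h3 | h3
    · exact (congrArg (fun a => a.1.2) h3).symm
    · have h4 := congrArg Subtype.val h3
      rw [hσ] at h4
      exact (congrArg Prod.snd h4).symm
  · rintro ⟨⟨h1, h2⟩, h3⟩
    refine ⟨h1, h2, ?_⟩
    have h4 := dt_symm h2
    rw [← h3] at h4
    rcases cbs_or (cbo_spec ht (dt_symm h1)) h4 with h5 | h5
    · exact Or.inl (Subtype.ext (Prod.ext h5 h3.symm))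
    · refine Or.inr (Subtype.ext ?_)
      rw [hσ]
      exact Prod.ext h5 h3.symm

private theorem cb_g1 {t : LT H} {x y : LV H} (h : Dt (lab H) t x y)
    (ht : (lab H).num t = 2)
    (σ : {a : LV H × LV H // Dt (lab H) t a.1 a.2} → {a : LV H × LV H // Dt (lab H) t a.1 a.2})
    (hσ : ∀ a, (σ a).1 = (a.1.1, cbo H t a.1.1 a.1.2)) :
    cbF H t x y (fun a b => b = σ a) := by
  have d0 := fd_st2 hm hred ht (κ := ![x, y, y]) (dt_cl h).1 (dt_cl h).2 (dt_cl h).2
  have h0 := fd_comap hm hred (κ' := fun p : Bool × Bool => cbk x y p.2) d0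
    (![(false, false), (false, true), (true, true)] : Fin 3 → Bool × Bool)
    (by intro i; fin_cases i <;> rfl)
  refine cb_mk (fd_and (fd_and (cb_dts hm hred h) (cb_e1 hm hred x y)) h0) fun u => ?_
  have h5 := cb_q (t := t) (q := fun i => u ((![(false, false), (false, true), (true, true)] :
    Fin 3 → Bool × Bool) i)) (a := u (false, false)) (b := u (false, true))
    (c := u (true, true)) rfl rfl rfl
  constructor
  · rintro ⟨h1, h2, h3⟩
    have h4 := congrArg Subtype.val h3
    rw [hσ] at h4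
    refine ⟨⟨⟨h1, h2⟩, (congrArg Prod.fst h4).symm⟩, h5.mpr ?_⟩
    have h6 : u (true, true) = cbo H t (u (false, false)) (u (false, true)) :=
      congrArg Prod.snd h4
    rw [h6]
    exact cbo_spec ht h1
  · rintro ⟨⟨⟨h1, h2⟩, h3⟩, h4⟩
    refine ⟨h1, h2, Subtype.ext ?_⟩
    rw [hσ]
    exact Prod.ext h3.symm (cbo_eq ht (h5.mp h4)).symm

private theorem cb_g2 {t : LT H} {x y : LV H} (h : Dt (lab H) t x y)
    (ht : (lab H).num ((lab H).bar t) = 2)
    (σ : {a : LV H × LV H // Dt (lab H) t a.1 a.2} → {a : LV H × LV H // Dt (lab H) t a.1 a.2})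
    (hσ : ∀ a, (σ a).1 = (cbo H ((lab H).bar t) a.1.2 a.1.1, a.1.2)) :
    cbF H t x y (fun a b => b = σ a) := by
  have h' := dt_symm h
  have d0 := fd_st2 hm hred ht (κ := ![y, x, x]) (dt_cl h').1 (dt_cl h').2 (dt_cl h').2
  have h0 := fd_comap hm hred (κ' := fun p : Bool × Bool => cbk x y p.2) d0
    (![(false, true), (false, false), (true, false)] : Fin 3 → Bool × Bool)
    (by intro i; fin_cases i <;> rfl)
  refine cb_mk (fd_and (fd_and (cb_dts hm hred h) (cb_e2 hm hred x y)) h0) fun u => ?_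
  have h5 := cb_q (t := (lab H).bar t) (q := fun i => u ((![(false, true), (false, false),
    (true, false)] : Fin 3 → Bool × Bool) i)) (a := u (false, true)) (b := u (false, false))
    (c := u (true, false)) rfl rfl rfl
  constructor
  · rintro ⟨h1, h2, h3⟩
    have h4 := congrArg Subtype.val h3
    rw [hσ] at h4
    refine ⟨⟨⟨h1, h2⟩, (congrArg Prod.snd h4).symm⟩, h5.mpr ?_⟩
    have h6 : u (true, false) = cbo H ((lab H).bar t) (u (false, true)) (u (false, false)) :=
      congrArg Prod.fst h4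
    rw [h6]
    exact cbo_spec ht (dt_symm h1)
  · rintro ⟨⟨⟨h1, h2⟩, h3⟩, h4⟩
    refine ⟨h1, h2, Subtype.ext ?_⟩
    rw [hσ]
    exact Prod.ext (cbo_eq ht (h5.mp h4)).symm h3.symm

end

private theorem cb_nm {t : LT H} {w a b : LV H} (ha : Dt (lab H) t w a)
    (hb : Dt (lab H) t w b) (h1 : a ≠ b) :
    ¬ Mtd (lab H) t ∧ ¬ Mtd (lab H) ((lab H).bar t) := by
  obtain ⟨d₁, p1, q1, r1⟩ := ha
  obtain ⟨d₂, p2, q2, r2⟩ := hb
  constructor
  · intro hm
    exact h1 (q1.symm.trans ((hm.1 d₁ d₂ r1 r2 (p1.trans p2.symm)).trans q2))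
  · intro hm
    exact h1 (q1.symm.trans ((hm.2 d₁ d₂ (by rw [(lab H).bar_bar, r1])
      (by rw [(lab H).bar_bar, r2]) (p1.trans p2.symm)).trans q2))

open Classical in
theorem case_b (hn : 0 < n) (hm : Mul H) (hred : Redc (lab H))
    (h2 : ∀ t, ¬ Mtd (lab H) t → (lab H).num t ≤ 2) {t : LT H} {x y y' z : LV H}
    (h : Dt (lab H) t x y) (h' : Dt (lab H) t x y') (hz : Dt (lab H) ((lab H).bar t) y z)
    (hz' : ¬ Dt (lab H) ((lab H).bar t) y' z) : ∀ L ∈ NP, Red L (CSet (TR H)) := by
  have hne : y ≠ y' := by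
    rintro rfl
    exact hz' hz
  have hnm := cb_nm h h' hne
  have hxz : x ≠ z := by
    rintro rfl
    exact hz' (dt_symm h')
  have n1 : (lab H).num t = 2 := by
    have h3 := h2 _ hnm.1
    have h4 := M_two (L := lab H) (τ := t) (x := x) hne
    have h5 := dt_iff.1 h
    have h6 := dt_iff.1 h'
    omega
  have n2 : (lab H).num ((lab H).bar t) = 2 := by
    have h3 := h2 _ hnm.2
    have h4 := M_two (L := lab H) (τ := (lab H).bar t) (x := y) hxz
    have h5 := dt_iff.1 (dt_symm h)
    have h6 := dt_iff.1 hz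
    omega
  let σ₁ : {a : LV H × LV H // Dt (lab H) t a.1 a.2} →
      {a : LV H × LV H // Dt (lab H) t a.1 a.2} :=
    fun a => ⟨(a.1.1, cbo H t a.1.1 a.1.2), cbs_dt (cbo_spec n1 a.2)⟩
  let σ₂ : {a : LV H × LV H // Dt (lab H) t a.1 a.2} →
      {a : LV H × LV H // Dt (lab H) t a.1 a.2} :=
    fun a => ⟨(cbo H ((lab H).bar t) a.1.2 a.1.1, a.1.2),
      cb_back (cbs_dt (cbo_spec n2 (dt_symm a.2)))⟩
  have i₁ : ∀ a, σ₁ (σ₁ a) = a := fun a => Subtype.ext (Prod.ext rfl (cbo_inv n1 a.2))
  have i₂ : ∀ a, σ₂ (σ₂ a) = a := fun a => Subtype.ext (Prod.ext (cbo_inv n2 (dt_symm a.2)) rfl)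
  have hnc : σ₁ (σ₂ ⟨(x, y), h⟩) ≠ σ₂ (σ₁ ⟨(x, y), h⟩) := by
    intro h3
    have h4 : cbo H ((lab H).bar t) y x = cbo H ((lab H).bar t) (cbo H t x y) x :=
      congrArg (fun a => a.1.1) h3
    have h5 : cbo H t x y = y' := by
      rcases cbs_or (cbo_spec n1 h) h' with h6 | h6
      · exact (hne h6.symm).elim
      · exact h6.symm
    rw [h5] at h4
    have h7 : cbo H ((lab H).bar t) y x = z := by
      rcases cbs_or (cbo_spec n2 (dt_symm h)) hz with h6 | h6
      · exact (hxz h6.symm).elim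
      · exact h6.symm
    have h8 := cbs_dt (cbo_spec n2 (dt_symm h'))
    rw [← h4, h7] at h8
    exact hz' h8
  obtain ⟨k, R, κ, γ, hk, hR, hκ, hγ⟩ := dihed (F := cbF H t x y) (σ₁ := σ₁) (σ₂ := σ₂)
    (x₀ := ⟨(x, y), h⟩)
    (fun R S hR hS => cb_comp hm hred hR hS)
    (fun m R h0 hR => cb_int hm hred m R h0 hR)
    i₁ i₂
    (cb_g1 hm hred h n1 σ₁ fun _ => rfl)
    (cb_g2 hm hred h n2 σ₂ fun _ => rfl)
    (cb_t1 hm hred h n1 σ₁ fun _ => rfl)
    (cb_t2 hm hred h n2 σ₂ fun _ => rfl)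
    (cb_const hm hred h)
    hnc
  refine fd_hard hn (J := Bool) (κ := cbk x y) hR hk
    (fun u => if h : Dt (lab H) t (u false) (u true) then κ ⟨(u false, u true), h⟩
      else ⟨0, by omega⟩) ?_
    (fun s b => if b then (γ s).1.2 else (γ s).1.1) ?_ ?_
  · intro u hu
    obtain ⟨h3, h4, h5⟩ := cb_key.mp hu
    have h6 := hκ _ _ h5
    show (if h : Dt (lab H) t (u (false, false)) (u (false, true)) then
      κ ⟨(u (false, false), u (false, true)), h⟩ else ⟨0, by omega⟩) ≠
      (if h : Dt (lab H) t (u (true, false)) (u (true, true)) then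
      κ ⟨(u (true, false), u (true, true)), h⟩ else ⟨0, by omega⟩)
    rw [dif_pos h3, dif_pos h4]
    exact h6
  · intro s b
    have h3 := dt_cl (γ s).2
    have h4 := dt_cl h
    cases b
    · exact h3.1.trans h4.1.symm
    · exact h3.2.trans h4.2.symm
  · intro s' t' hst
    exact ⟨γ s', γ t', hγ s' t' hst, rfl, rfl, rfl, rfl⟩

end Pool.Agent.H24.GL
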