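import Pool.Agent.H24.GL.CaseB

/-!
# JOB GL-7: swaps which do not commute

`Swl t x x'`: `x ≠ x'` have a common end for the type `t`. Suppose `hb` (no case of `case_b`) and `h2`.
`swl_uniq`: let `u` be a common end of `x, x'`, `u'` a common end of `x, x''`. By `hb` `Dt (bar t) u' x'` (as `Dt t x u`, `Dt t x u'`,
`Dt (bar t) u x'`), so `x, x', x''` are ends of `u'` for `bar t`, and `num (bar t) ≤ 2`: if `x', x''` are different from `x` and from each
other then `num (bar t) ≥ 3`, so `bar t` is matched (`h2`), but `x ≠ x'` are both ends of `u'`, contradiction.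
`case_c`: `O = {v : LV H // cl v = cl x}`. Let `σ₁ v` be `v'` if `Swl s v v'`, and `v` if there is no such `v'` (`swl_uniq`); `σ₂` the same for `r`.
They are involutions. If `σ₁ (σ₂ x) = σ₂ (σ₁ x)` then: `σ₁ x = x₁`, `σ₂ x₁ = x₂`, so `σ₁ (σ₂ x) = x₂`; if `Swl r x x₃` then `σ₁ x₃ = x₂`, and either
`Swl s x₃ x₂`, excluded by `hx`, or `x₃ = x₂`, so `Swl r x x₂` and `Swl r x₁ x₂`, so `x = x₁` (`swl_uniq`), contradiction; otherwise `σ₂ x = x`,
`x₁ = x₂`, contradiction to `Swl r x₁ x₂`.
`F R` iff `FD H (fun _ : Bool × Unit => x) (fun u => ∃ a b : O, R a b ∧ u (false, ()) = a ∧ u (true, ()) = b)`. Composition, intersections: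
as in `case_b`. `Θ₁`: `v' = v` or `Swl s v v'` iff `∃ w, Dt s v w ∧ Dt s v' w` (`fd_ex` for the variable `w`, of the class `sc (bar s)`, `fd_dt`;
every `v` of the class `sc s` has an end). The graph of `σ₁`: if `num (bar s) = 2` it is: `∃ w`, the ends of `w` for `bar s` are `v, v'`
(`fd_st2`); for `Swl s v v'` and for `v' = v` (then `M (bar s) w v = 2`, as `v` is the only end of `w`). Otherwise `num (bar s) ≠ 2`: as
`Swl s x x₁`, `bar s` is not matched and has `2 ≤ num (bar s)` (`M_two`), so `num (bar s) = 2` by `h2`: this case does not occur. The same for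
`r`. `b = x₀`: `fd_const`. `dihed`, `fd_hard` with `J = Unit`.
(`s` and `r` are types at the class of `x`, by `Swl`.)
-/

namespace Pool.Agent.H24.GL

open Pool.Agent.H24.GC Pool.Agent.H24.GE Pool.Agent.H24.GG Pool.Agent.H24.GH Pool.Agent.H24.GI
  Pool.Agent.H24.GK Pool.Agent.PPS Pool.Agent.H64.Cook Pool.Agent.H79.Thr

variable {n : ℕ} {H : SimpleGraph (Fin n)}

/-- `x` and `x'` are different and have a common end for the type `t` -/
def Swl (H : SimpleGraph (Fin n)) (t : LT H) (x x' : LV H) : Prop :=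
  x ≠ x' ∧ ∃ u, Dt (lab H) t x u ∧ Dt (lab H) t x' u

/-- the reversed dart -/
private theorem glc_back {t : LT H} {x y : LV H} (h : Dt (lab H) ((lab H).bar t) x y) :
    Dt (lab H) t y x := by
  have h1 := dt_symm h
  rwa [(lab H).bar_bar] at h1

private theorem glc_three {t : LT H} {w a b c : LV H} (ha : Dt (lab H) t w a)
    (hb : Dt (lab H) t w b) (hc : Dt (lab H) t w c) (h1 : a ≠ b) (h2 : a ≠ c) (h3 : b ≠ c) :
    3 ≤ (lab H).num t := by
  rw [← (lab H).num_eq w t (dt_cl ha).1]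
  obtain ⟨d₁, p1, q1, r1⟩ := ha
  obtain ⟨d₂, p2, q2, r2⟩ := hb
  obtain ⟨d₃, p3, q3, r3⟩ := hc
  have e1 : d₁ ≠ d₂ := by
    rintro rfl
    exact h1 (q1.symm.trans q2)
  have e2 : d₁ ≠ d₃ := by
    rintro rfl
    exact h2 (q1.symm.trans q3)
  have e3 : d₂ ≠ d₃ := by
    rintro rfl
    exact h3 (q2.symm.trans q3)
  have h4 : ({d₁, d₂, d₃} : Set (LD H)).ncard = 3 := Set.ncard_eq_three.2 ⟨d₁, d₂, d₃, e1, e2, e3, rfl⟩
  rw [← h4]
  refine Set.ncard_le_ncard ?_ (Set.toFinite _)
  rintro d (rfl | rfl | rfl)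
  · exact ⟨p1, r1⟩
  · exact ⟨p2, r2⟩
  · exact ⟨p3, r3⟩

private theorem glc_nm {t : LT H} {w a b : LV H} (ha : Dt (lab H) t w a)
    (hb : Dt (lab H) t w b) (h1 : a ≠ b) : ¬ Mtd (lab H) t := by
  intro hm
  obtain ⟨d₁, p1, q1, r1⟩ := ha
  obtain ⟨d₂, p2, q2, r2⟩ := hb
  exact h1 (q1.symm.trans ((hm.1 d₁ d₂ r1 r2 (p1.trans p2.symm)).trans q2))

theorem swl_uniq (h2 : ∀ t, ¬ Mtd (lab H) t → (lab H).num t ≤ 2)
    (hb : ∀ (t : LT H) (x y y' z : LV H), Dt (lab H) t x y → Dt (lab H) t x y' →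
      Dt (lab H) ((lab H).bar t) y z → Dt (lab H) ((lab H).bar t) y' z)
    {t : LT H} {x x' x'' : LV H} (h : Swl H t x x') (h' : Swl H t x x'') : x'' = x' := by
  obtain ⟨hne, u, hu, hu'⟩ := h
  obtain ⟨hne', v, hv, hv'⟩ := h'
  by_contra hc
  have h3 := hb t x u v x' hu hv (dt_symm hu')
  have h4 := glc_three (dt_symm hv) h3 (dt_symm hv') hne hne' (fun h => hc h.symm)
  have h5 := h2 _ (glc_nm (dt_symm hv) h3 hne)
  omega

private theorem glc_symm {t : LT H} {x x' : LV H} (h : Swl H t x x') : Swl H t x' x := by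
  obtain ⟨hne, u, hu, hu'⟩ := h
  exact ⟨hne.symm, u, hu', hu⟩

private theorem glc_cl {t : LT H} {x x' : LV H} (h : Swl H t x x') :
    (lab H).cl x = (lab H).sc t ∧ (lab H).cl x' = (lab H).sc t := by
  obtain ⟨hne, u, hu, hu'⟩ := h
  exact ⟨(dt_cl hu).1, (dt_cl hu').1⟩

open Classical in
/-- the swap of the type `t` -/
noncomputable def glc_sw (H : SimpleGraph (Fin n)) (t : LT H) (v : LV H) : LV H :=
  if h : ∃ v', Swl H t v v' then h.choose else v

private theorem glc_spec (t : LT H) (v : LV H) : Swl H t v (glc_sw H t v) ∨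
    (glc_sw H t v = v ∧ ∀ v', ¬ Swl H t v v') := by
  unfold glc_sw
  by_cases h : ∃ v', Swl H t v v'
  · left
    rw [dif_pos h]
    exact h.choose_spec
  · right
    rw [dif_neg h]
    exact ⟨rfl, fun v' h' => h ⟨v', h'⟩⟩

private theorem glc_swcl (t : LT H) (v : LV H) :
    (lab H).cl (glc_sw H t v) = (lab H).cl v := by
  rcases glc_spec t v with h | h
  · rw [(glc_cl h).1, (glc_cl h).2]
  · rw [h.1]

section

variable (h2 : ∀ t, ¬ Mtd (lab H) t → (lab H).num t ≤ 2)
    (hb : ∀ (t : LT H) (x y y' z : LV H), Dt (lab H) t x y → Dt (lab H) t x y' →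
      Dt (lab H) ((lab H).bar t) y z → Dt (lab H) ((lab H).bar t) y' z)

include h2 hb

private theorem glc_eq {t : LT H} {v v' : LV H} (h : Swl H t v v') : glc_sw H t v = v' := by
  rcases glc_spec t v with h' | h'
  · exact swl_uniq h2 hb h h'
  · exact (h'.2 v' h).elim

private theorem glc_inv (t : LT H) (v : LV H) : glc_sw H t (glc_sw H t v) = v := by
  rcases glc_spec t v with h' | h'
  · exact glc_eq h2 hb (glc_symm h')
  · rw [h'.1, h'.1]

private theorem glc_ends {t : LT H} {a w : LV H} (h : Dt (lab H) t a w) :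
    Dt (lab H) ((lab H).bar t) w (glc_sw H t a) ∧
      ∀ z, Dt (lab H) ((lab H).bar t) w z → z = a ∨ z = glc_sw H t a := by
  constructor
  · rcases glc_spec t a with h' | h'
    · obtain ⟨-, u, hu, hu'⟩ := h'
      exact hb t a u w _ hu h (dt_symm hu')
    · rw [h'.1]
      exact dt_symm h
  · intro z hz
    by_cases hza : z = a
    · exact Or.inl hza
    · right
      exact (glc_eq h2 hb ⟨fun e => hza e.symm, w, h, glc_back hz⟩).symm

end

private theorem glc_star {t : LT H} (ht : (lab H).num t = 2) {w a b : LV H}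
    (ha : Dt (lab H) t w a) (hb : Dt (lab H) t w b)
    (h : ∀ z, Dt (lab H) t w z → z = a ∨ z = b) (u : Fin 3 → LV H) (h0 : u 0 = w)
    (h1 : u 1 = a) (h2 : u 2 = b) (z : LV H) :
    {i : Fin 3 | i ≠ 0 ∧ u i = z}.ncard = (lab H).M t (u 0) z := by
  rw [h0]
  have hM : ∀ z, ¬ (z = a ∨ z = b) → (lab H).M t w z = 0 := by
    intro z hz
    by_contra h3
    exact hz (h z (dt_iff.2 h3))
  by_cases hab : a = b
  · subst hab
    by_cases hz : z = a
    · subst hz
      have h3 : {i : Fin 3 | i ≠ 0 ∧ u i = z} = {1, 2} := by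
        ext i
        fin_cases i <;> simp [h1, h2]
      rw [h3, Set.ncard_pair (by decide), ← ht, ← (lab H).num_eq w t (dt_cl ha).1]
      unfold LS.M
      congr 1
      ext d
      constructor
      · rintro ⟨e1, e2⟩
        refine ⟨e1, e2, ?_⟩
        rcases h _ ⟨d, e1, rfl, e2⟩ with e3 | e3 <;> exact e3
      · rintro ⟨e1, e2, -⟩
        exact ⟨e1, e2⟩
    · rw [hM z (by tauto)]
      have h3 : {i : Fin 3 | i ≠ 0 ∧ u i = z} = ∅ := by
        ext i
        fin_cases i
        · simp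
        · simp [h1]
          exact fun e => hz e.symm
        · simp [h2]
          exact fun e => hz e.symm
      rw [h3, Set.ncard_empty]
  · have h4 := dt_iff.1 ha
    have h5 := dt_iff.1 hb
    have h6 := M_two (L := lab H) (τ := t) (x := w) hab
    rw [ht] at h6
    by_cases hz : z = a
    · subst hz
      have h3 : {i : Fin 3 | i ≠ 0 ∧ u i = z} = {1} := by
        ext i
        fin_cases i
        · simp
        · simp [h1]
        · simp [h2]
          exact fun e => hab e.symm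
      rw [h3, Set.ncard_singleton]
      omega
    · by_cases hz' : z = b
      · subst hz'
        have h3 : {i : Fin 3 | i ≠ 0 ∧ u i = z} = {2} := by
          ext i
          fin_cases i
          · simp
          · simp [h1]
            exact hab
          · simp [h2]
        rw [h3, Set.ncard_singleton]
        omega
      · rw [hM z (by tauto)]
        have h3 : {i : Fin 3 | i ≠ 0 ∧ u i = z} = ∅ := by
          ext i
          fin_cases i
          · simp
          · simp [h1]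
            exact fun e => hz e.symm
          · simp [h2]
            exact fun e => hz' e.symm
        rw [h3, Set.ncard_empty]

/-- the family of relations -/
private def glcF (H : SimpleGraph (Fin n)) (x : LV H)
    (R : {v : LV H // (lab H).cl v = (lab H).cl x} → {v : LV H // (lab H).cl v = (lab H).cl x} →
      Prop) : Prop :=
  FD H (fun _ : Bool × Unit => x) (fun u => ∃ a b, R a b ∧ u (false, ()) = a.1 ∧
    u (true, ()) = b.1)

private theorem glc_key {x : LV H} {R : {v : LV H // (lab H).cl v = (lab H).cl x} →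
      {v : LV H // (lab H).cl v = (lab H).cl x} → Prop} {u : Bool × Unit → LV H}
    (hu : ∀ p, (lab H).cl (u p) = (lab H).cl x) :
    (∃ a b, R a b ∧ u (false, ()) = a.1 ∧ u (true, ()) = b.1) ↔
      R ⟨u (false, ()), hu _⟩ ⟨u (true, ()), hu _⟩ := by
  constructor
  · rintro ⟨a, b, h, ha, hb⟩
    have e1 : a = ⟨u (false, ()), hu _⟩ := Subtype.ext ha.symm
    have e2 : b = ⟨u (true, ()), hu _⟩ := Subtype.ext hb.symm
    rw [← e1, ← e2]
    exact h
  · intro h
    exact ⟨_, _, h, rfl, rfl⟩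

private theorem glc_mk {x : LV H} {R : {v : LV H // (lab H).cl v = (lab H).cl x} →
      {v : LV H // (lab H).cl v = (lab H).cl x} → Prop} {ρ : (Bool × Unit → LV H) → Prop}
    (h : FD H (fun _ : Bool × Unit => x) ρ)
    (h' : ∀ u (hu : ∀ p : Bool × Unit, (lab H).cl (u p) = (lab H).cl x),
      R ⟨u (false, ()), hu _⟩ ⟨u (true, ()), hu _⟩ ↔ ρ u) : glcF H x R :=
  fd_iff h fun u hu => (glc_key hu).trans (h' u hu)

section

variable (hm : Mul H) (hred : Redc (lab H))

include hm hred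

private theorem glc_comp {x : LV H} {R S : {v : LV H // (lab H).cl v = (lab H).cl x} →
      {v : LV H // (lab H).cl v = (lab H).cl x} → Prop} (hR : glcF H x R) (hS : glcF H x S) :
    glcF H x (fun a b => ∃ c, R a c ∧ S c b) := by
  have h1 := fd_comap hm hred (κ' := Sum.elim (fun _ : Bool × Unit => x) (fun _ : Unit => x)) hR
    (fun p : Bool × Unit => (if p.1 then Sum.inr () else Sum.inl (false, ()) :
      (Bool × Unit) ⊕ Unit)) (by rintro ⟨_ | _, _⟩ <;> rfl)
  have h2 := fd_comap hm hred (κ' := Sum.elim (fun _ : Bool × Unit => x) (fun _ : Unit => x)) hS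
    (fun p : Bool × Unit => (if p.1 then Sum.inl (true, ()) else Sum.inr () :
      (Bool × Unit) ⊕ Unit)) (by rintro ⟨_ | _, _⟩ <;> rfl)
  refine glc_mk (fd_ex (κ := fun _ : Bool × Unit => x) (κ₁ := fun _ : Unit => x)
    (fd_and h1 h2)) fun u hu => ?_
  constructor
  · rintro ⟨c, h3, h4⟩
    exact ⟨fun _ => c.1, fun _ => c.2, ⟨_, _, h3, rfl, rfl⟩, ⟨_, _, h4, rfl, rfl⟩⟩
  · rintro ⟨u₁, hu₁, ⟨a, c, h3, ha, hc⟩, ⟨c', b, h4, hc', hb⟩⟩
    have e1 : a = ⟨u (false, ()), hu _⟩ := Subtype.ext ha.symm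
    have e2 : b = ⟨u (true, ()), hu _⟩ := Subtype.ext hb.symm
    have e3 : c' = c := Subtype.ext (hc'.symm.trans hc)
    rw [← e1, ← e2]
    rw [e3] at h4
    exact ⟨c, h3, h4⟩

private theorem glc_int {x : LV H} (m : ℕ) (R : Fin m →
      {v : LV H // (lab H).cl v = (lab H).cl x} → {v : LV H // (lab H).cl v = (lab H).cl x} →
        Prop) (hR : ∀ i, glcF H x (R i)) : glcF H x (fun a b => ∀ i, R i a b) := by
  refine glc_mk (fd_all hm hred hR) fun u hu => ?_
  exact forall_congr' fun i => (glc_key hu).symm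

private theorem glc_const (x : LV H) :
    glcF H x (fun _ b => b = ⟨x, rfl⟩) := by
  refine glc_mk (fd_comap hm hred (κ' := fun _ : Bool × Unit => x) (fd_const hm hred x)
    (fun _ : Unit => ((true, ()) : Bool × Unit)) (fun _ => rfl)) fun u hu => ?_
  exact Subtype.ext_iff

private theorem glc_theta (h2 : ∀ t, ¬ Mtd (lab H) t → (lab H).num t ≤ 2)
    (hb : ∀ (t : LT H) (x y y' z : LV H), Dt (lab H) t x y → Dt (lab H) t x y' →
      Dt (lab H) ((lab H).bar t) y z → Dt (lab H) ((lab H).bar t) y' z)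
    {x : LV H} {t : LT H} (hx : (lab H).cl x = (lab H).sc t) :
    glcF H x (fun a b => b = a ∨ b = ⟨glc_sw H t a.1, (glc_swcl t a.1).trans a.2⟩) := by
  obtain ⟨w, hw⟩ : ∃ w, Dt (lab H) t x w := dt_exists hx
  have hcx := (dt_cl hw).1
  have hcw := (dt_cl hw).2
  have d0 := fd_dt hm hred (t := t) (κ := fun b : Bool => if b then w else x) hcx hcw
  have h1 := fd_comap hm hred (κ' := Sum.elim (fun _ : Bool × Unit => x) (fun _ : Unit => w)) d0
    (fun b : Bool => (if b then Sum.inr () else Sum.inl (false, ()) : (Bool × Unit) ⊕ Unit))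
    (by rintro (_ | _) <;> rfl)
  have h3 := fd_comap hm hred (κ' := Sum.elim (fun _ : Bool × Unit => x) (fun _ : Unit => w)) d0
    (fun b : Bool => (if b then Sum.inr () else Sum.inl (true, ()) : (Bool × Unit) ⊕ Unit))
    (by rintro (_ | _) <;> rfl)
  refine glc_mk (fd_ex (κ := fun _ : Bool × Unit => x) (κ₁ := fun _ : Unit => w)
    (fd_and h1 h3)) fun u hu => ?_
  constructor
  · intro h4
    obtain ⟨w', hw'⟩ : ∃ w', Dt (lab H) t (u (false, ())) w' :=
      dt_exists ((hu (false, ())).trans hcx)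
    refine ⟨fun _ => w', fun _ => (dt_cl hw').2.trans hcw.symm, hw', ?_⟩
    rcases h4 with h4 | h4
    · have h5 : u (true, ()) = u (false, ()) := congrArg Subtype.val h4
      show Dt (lab H) t (u (true, ())) w'
      rw [h5]
      exact hw'
    · have h5 : u (true, ()) = glc_sw H t (u (false, ())) := congrArg Subtype.val h4
      show Dt (lab H) t (u (true, ())) w'
      rw [h5]
      exact glc_back (glc_ends h2 hb hw').1
  · rintro ⟨u₁, -, h4, h5⟩
    have h4' : Dt (lab H) t (u (false, ())) (u₁ ()) := h4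
    have h5' : Dt (lab H) t (u (true, ())) (u₁ ()) := h5
    rcases (glc_ends h2 hb h4').2 _ (dt_symm h5') with h6 | h6
    · exact Or.inl (Subtype.ext h6)
    · exact Or.inr (Subtype.ext h6)

private theorem glc_graph (h2 : ∀ t, ¬ Mtd (lab H) t → (lab H).num t ≤ 2)
    (hb : ∀ (t : LT H) (x y y' z : LV H), Dt (lab H) t x y → Dt (lab H) t x y' →
      Dt (lab H) ((lab H).bar t) y z → Dt (lab H) ((lab H).bar t) y' z)
    {x v v' : LV H} {t : LT H} (h : Swl H t v v') (hx : (lab H).cl x = (lab H).sc t) :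
    glcF H x (fun a b => b = ⟨glc_sw H t a.1, (glc_swcl t a.1).trans a.2⟩) := by
  have hnum : (lab H).num ((lab H).bar t) = 2 := by
    obtain ⟨hne, w, h3, h4⟩ := h
    have h5 := h2 _ (glc_nm (dt_symm h3) (dt_symm h4) hne)
    have h6 := M_two (L := lab H) (τ := (lab H).bar t) (x := w) hne
    have h7 := dt_iff.1 (dt_symm h3)
    have h8 := dt_iff.1 (dt_symm h4)
    omega
  obtain ⟨w, hw⟩ : ∃ w, Dt (lab H) t x w := dt_exists hx
  have hcx := (dt_cl hw).1
  have hcw := (dt_cl hw).2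
  have d0 := fd_st2 hm hred (t := (lab H).bar t) hnum (κ := ![w, x, x]) hcw
    (by rw [(lab H).bar_bar]; exact hcx) (by rw [(lab H).bar_bar]; exact hcx)
  have h1 := fd_comap hm hred (κ' := Sum.elim (fun _ : Bool × Unit => x) (fun _ : Unit => w)) d0
    (![Sum.inr (), Sum.inl (false, ()), Sum.inl (true, ())] : Fin 3 → (Bool × Unit) ⊕ Unit)
    (by intro i; fin_cases i <;> rfl)
  refine glc_mk (fd_ex (κ := fun _ : Bool × Unit => x) (κ₁ := fun _ : Unit => w) h1)
    fun u hu => ?_
  constructor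
  · intro h4
    obtain ⟨w', hw'⟩ : ∃ w', Dt (lab H) t (u (false, ())) w' :=
      dt_exists ((hu (false, ())).trans hcx)
    have h5 : u (true, ()) = glc_sw H t (u (false, ())) := congrArg Subtype.val h4
    refine ⟨fun _ => w', fun _ => (dt_cl hw').2.trans hcw.symm, ?_⟩
    have h6 := glc_ends h2 hb hw'
    exact glc_star hnum (dt_symm hw') h6.1 h6.2 _ rfl rfl h5
  · rintro ⟨u₁, -, h4⟩
    obtain ⟨a, ha⟩ : ∃ a, a = u (false, ()) := ⟨_, rfl⟩
    obtain ⟨b, hb'⟩ : ∃ b, b = u (true, ()) := ⟨_, rfl⟩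
    obtain ⟨q, hq⟩ : ∃ q : Fin 3 → LV H, q = fun i => Sum.elim u u₁
      ((![Sum.inr (), Sum.inl (false, ()), Sum.inl (true, ())] :
        Fin 3 → (Bool × Unit) ⊕ Unit) i) := ⟨_, rfl⟩
    have q0 : q 0 = u₁ () := by rw [hq]; rfl
    have q1 : q 1 = a := by rw [hq, ha]; rfl
    have q2 : q 2 = b := by rw [hq, hb']; rfl
    have h5 : ∀ z, {i : Fin 3 | i ≠ 0 ∧ q i = z}.ncard =
        (lab H).M ((lab H).bar t) (u₁ ()) z := by
      intro z
      rw [← q0, hq]
      exact h4 z
    have h6 : ∀ i : Fin 3, i ≠ 0 → Dt (lab H) ((lab H).bar t) (u₁ ()) (q i) := by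
      intro i hi
      rw [dt_iff, ← h5 (q i)]
      intro h7
      rw [Set.ncard_eq_zero (Set.toFinite _)] at h7
      have h8 : i ∈ {i' : Fin 3 | i' ≠ 0 ∧ q i' = q i} := ⟨hi, rfl⟩
      rw [h7] at h8
      exact h8
    have h7 := h6 1 (by decide)
    have h8 := h6 2 (by decide)
    rw [q1] at h7
    rw [q2] at h8
    have h9 := glc_ends h2 hb (glc_back h7)
    have goal : b = glc_sw H t a := by
      rcases h9.2 _ h8 with h10 | h10
      · by_contra hne
        rw [h10] at hne
        have h11 := M_two (L := lab H) (τ := (lab H).bar t) (x := u₁ ()) hne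
        have h12 := dt_iff.1 h9.1
        have h13 : {i : Fin 3 | i ≠ 0 ∧ q i = a} = {1, 2} := by
          ext i
          fin_cases i
          · simp
          · simp [q1]
          · simp [q2, h10]
        have h14 := h5 a
        rw [h13, Set.ncard_pair (by decide)] at h14
        omega
      · exact h10
    refine Subtype.ext ?_
    show u (true, ()) = glc_sw H t (u (false, ()))
    rw [← ha, ← hb']
    exact goal

end

open Classical in
theorem case_c (hn : 0 < n) (hm : Mul H) (hred : Redc (lab H))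
    (h2 : ∀ t, ¬ Mtd (lab H) t → (lab H).num t ≤ 2)
    (hb : ∀ (t : LT H) (x y y' z : LV H), Dt (lab H) t x y → Dt (lab H) t x y' →
      Dt (lab H) ((lab H).bar t) y z → Dt (lab H) ((lab H).bar t) y' z)
    {s r : LT H} {x x₁ x₂ : LV H} (h1 : Swl H s x x₁) (h2' : Swl H r x₁ x₂)
    (hx : ∀ x₃, Swl H r x x₃ → ¬ Swl H s x₃ x₂) : ∀ L ∈ NP, Red L (CSet (TR H)) := by
  have hcr : (lab H).cl x = (lab H).sc r := by
    rw [(glc_cl h1).1, ← (glc_cl h1).2, (glc_cl h2').1]
  have i₁ : ∀ t : LT H, ∀ a : {v : LV H // (lab H).cl v = (lab H).cl x},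
      (⟨glc_sw H t (glc_sw H t a.1), (glc_swcl t _).trans ((glc_swcl t a.1).trans a.2)⟩ :
        {v : LV H // (lab H).cl v = (lab H).cl x}) = a :=
    fun t a => Subtype.ext (glc_inv h2 hb t a.1)
  have hne : glc_sw H s (glc_sw H r x) ≠ glc_sw H r (glc_sw H s x) := by
    rw [glc_eq h2 hb h1, glc_eq h2 hb h2']
    intro h3
    rcases glc_spec r x with h4 | h4
    · rcases glc_spec s (glc_sw H r x) with h5 | h5
      · rw [h3] at h5
        exact hx _ h4 h5
      · have h6 : glc_sw H r x = x₂ := h5.1.symm.trans h3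
        rw [h6] at h4
        exact h1.1 (swl_uniq h2 hb (glc_symm h2') (glc_symm h4))
    · rw [h4.1, glc_eq h2 hb h1] at h3
      exact h2'.1 h3
  obtain ⟨k, R, κ, γ, hk, hR, hκ, hγ⟩ := dihed (F := glcF H x)
    (σ₁ := fun a => ⟨glc_sw H s a.1, (glc_swcl s a.1).trans a.2⟩)
    (σ₂ := fun a => ⟨glc_sw H r a.1, (glc_swcl r a.1).trans a.2⟩)
    (x₀ := ⟨x, rfl⟩)
    (fun R S hR hS => glc_comp hm hred hR hS)
    (fun m R _ hR => glc_int hm hred m R hR)
    (i₁ s) (i₁ r)
    (glc_graph hm hred h2 hb h1 (glc_cl h1).1)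
    (glc_graph hm hred h2 hb h2' hcr)
    (glc_theta hm hred h2 hb (glc_cl h1).1)
    (glc_theta hm hred h2 hb hcr)
    (glc_const hm hred x)
    (fun h => hne (congrArg Subtype.val h))
  refine fd_hard hn (J := Unit) (κ := fun _ => x) hR hk
    (fun u => if h : (lab H).cl (u ()) = (lab H).cl x then κ ⟨u (), h⟩ else ⟨0, by omega⟩) ?_
    (fun s _ => (γ s).1) (fun s _ => (γ s).2) ?_
  · rintro u ⟨a, b, h3, h4, h5⟩
    have h6 := hκ a b h3
    show (if h : (lab H).cl (u (false, ())) = (lab H).cl x then κ ⟨u (false, ()), h⟩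
      else ⟨0, by omega⟩) ≠ (if h : (lab H).cl (u (true, ())) = (lab H).cl x then
        κ ⟨u (true, ()), h⟩ else ⟨0, by omega⟩)
    rw [dif_pos (by rw [h4]; exact a.2), dif_pos (by rw [h5]; exact b.2)]
    have e1 : (⟨u (false, ()), by rw [h4]; exact a.2⟩ :
        {v : LV H // (lab H).cl v = (lab H).cl x}) = a := Subtype.ext h4
    have e2 : (⟨u (true, ()), by rw [h5]; exact b.2⟩ :
        {v : LV H // (lab H).cl v = (lab H).cl x}) = b := Subtype.ext h5
    rw [e1, e2]
    exact h6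
  · intro s' t' hst
    exact ⟨γ s', γ t', hγ s' t' hst, rfl, rfl⟩

end Pool.Agent.H24.GL
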