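import Pool.Agent.H24.GL.Pd
import Pool.Agent.H24.GE.CspNP
import Pool.Agent.H79.Thr.ColK

/-!
# JOB GL-2: NP-hardness from a colouring pattern

Reduction from `k`-colourability: `hardk` (file `Pool.Agent.H79.Thr.ColK`) gives `φ x`, a list of `q` edges (pairs of names
`ℕ × V3`), in polynomial time. Let `W, c` be from `Pd`, and choose equivalences of `J₀, J, W` with `Fin j₀, Fin j, Fin w`. Let `l` be the
list of the `2 q` ends of the edges (`l[2 i]`, `l[2 i + 1]` are the ends of the edge `i`), and for an end `m < 2 q` let `r m` be the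
smallest `m'` with `l[m'] = l[m]`. The instance has `N = j₀ + 2 q * j + q * w` variables: `J₀` first, then `j` for every `m < 2 q`, then `w`
for every edge. For the edge `i` the variables of `J₀ ⊕ (Bool × J) ⊕ W` are the variables of `J₀`, the variable
`j₀ + r (2 i + b) * j + u` for `(b, u)`, and `j₀ + 2 q * j + i * w + v` for `v`. The constraints are the constraints `c` for all edges. (Variables
which do not occur are free.) `encM_eq` (file `Pool.Agent.H24.GE.Csp`): the word is `encM M N F` with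
`F s p p' = true` iff some edge `i < q` and some `(u, v)` with `c s u v` (a constant finite list) have the numbers `p, p'`. In
polynomial time: `PT.encM'`, `H64.Cook.PT.any'`, `PT.getD'`; `r m = ((List.range m).filter fun m' => l[m'] = l[m]).headD m`.
Correct: (⇒) from a colouring `κ'` of the names take `c₀` for `J₀`, `γ (κ' l[m])` for the end `m`, and for every edge the values of `W`
from `h2` and `Pd`; the ends of an edge have different colours. (`D` is not empty: otherwise `J₀, J` are empty and `h1`, `h2`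
(`0 ≠ 1`) give a contradiction; so free variables have values.) (⇐) From a solution `a` colour a name by `β` of the values at `J₀` and at
the variables `r m * j + u` of one of its ends `m`; `h1` for every edge. Use `encI_inj`/`R1_cset` (file `Pool.Agent.H24.GE.R1`) or the
definition of `CSet`.
-/

namespace Pool.Agent.H24.GL

open Pool.Agent.H24.GE Pool.Agent.PPS Pool.Agent.H64.Cook Pool.Agent.H79.Thr

/-! ### instances -/

theorem cpat_encI_inj {M N N' : ℕ} (hM : 0 < M) {c : Fin M → Fin N → Fin N → Bool}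
    {c' : Fin M → Fin N' → Fin N' → Bool} (h : encI c = encI c') :
    ∃ e : N' = N, ∀ s i j, c' s i j = c s (Fin.cast e i) (Fin.cast e j) := by
  have h1 : M * (N * N) = M * (N' * N') := by
    rw [← encI_len c, ← encI_len c', h]
  have h2 : N * N = N' * N' := Nat.eq_of_mul_eq_mul_left hM h1
  have h3 : N' = N := (Nat.mul_self_inj.1 h2).symm
  subst h3
  refine ⟨rfl, fun s i j => ?_⟩
  show c' s i j = c s i j
  rw [← ient_encI c s i j, ← ient_encI c' s i j, h]

theorem cpat_cset {D : Type} {M N : ℕ} (hM : 0 < M) (R : Fin M → D → D → Prop)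
    (c : Fin M → Fin N → Fin N → Bool) :
    encI c ∈ CSet R ↔ ∃ a : Fin N → D, ∀ s i j, c s i j = true → R s (a i) (a j) := by
  constructor
  · rintro ⟨N', c', h, a, ha⟩
    obtain ⟨e, he⟩ := cpat_encI_inj hM h
    subst e
    refine ⟨a, fun s i j hc => ha s i j ?_⟩
    rw [he]
    exact hc
  · rintro ⟨a, ha⟩
    exact ⟨N, c, rfl, a, ha⟩

/-! ### the instance of the reduction -/

section defs

variable {α : Type} [DecidableEq α] [Inhabited α]

set_option linter.unusedSectionVars false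

/-- the list of the ends of the edges -/
def cpat_l (E : List (α × α)) : List α := E.map Prod.fst ++ E.map Prod.snd

/-- the first place of a name in the list of the ends -/
def cpat_r (E : List (α × α)) (y : α) : ℕ :=
  ((List.range (cpat_l E).length).filter fun m =>
    decide ((cpat_l E).getD m default = y)).headD 0

theorem cpat_l_len (E : List (α × α)) : (cpat_l E).length = E.length + E.length := by
  unfold cpat_l
  rw [List.length_append, List.length_map, List.length_map]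

theorem cpat_r_spec {E : List (α × α)} {y : α} (hy : y ∈ cpat_l E) :
    cpat_r E y < (cpat_l E).length ∧ (cpat_l E).getD (cpat_r E y) default = y := by
  unfold cpat_r
  obtain ⟨m, hm, hmy⟩ := List.getElem_of_mem hy
  have h1 : m ∈ (List.range (cpat_l E).length).filter fun m =>
      decide ((cpat_l E).getD m default = y) := by
    rw [List.mem_filter, List.mem_range, decide_eq_true_eq, List.getD_eq_getElem _ _ hm]
    exact ⟨hm, hmy⟩
  have h2 : ∀ m' ∈ (List.range (cpat_l E).length).filter fun m =>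
      decide ((cpat_l E).getD m default = y),
      m' < (cpat_l E).length ∧ (cpat_l E).getD m' default = y := by
    intro m' hm'
    rw [List.mem_filter, List.mem_range, decide_eq_true_eq] at hm'
    exact hm'
  generalize (List.range (cpat_l E).length).filter (fun m =>
      decide ((cpat_l E).getD m default = y)) = l at h1 h2
  rcases l with _ | ⟨b, l⟩
  · simp at h1
  · exact h2 b (by simp)

theorem cpat_fst_mem {E : List (α × α)} {i : ℕ} (hi : i < E.length) :
    (E.getD i default).1 ∈ cpat_l E := by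
  unfold cpat_l
  rw [List.getD_eq_getElem _ _ hi, List.mem_append]
  exact Or.inl (List.mem_map_of_mem (List.getElem_mem hi))

theorem cpat_snd_mem {E : List (α × α)} {i : ℕ} (hi : i < E.length) :
    (E.getD i default).2 ∈ cpat_l E := by
  unfold cpat_l
  rw [List.getD_eq_getElem _ _ hi, List.mem_append]
  exact Or.inr (List.mem_map_of_mem (List.getElem_mem hi))

/-- the block of the kind `k` of the edge `i` -/
def cpat_blk (E : List (α × α)) (i k : ℕ) : ℕ :=
  bif decide (k = 0) then 0 else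
    bif decide (k = 1) then 1 + cpat_r E (E.getD i default).1 else
      bif decide (k = 2) then 1 + cpat_r E (E.getD i default).2 else
        1 + ((cpat_l E).length + i)

/-- the number of blocks -/
def cpat_n (E : List (α × α)) : ℕ := 1 + ((cpat_l E).length + E.length)

theorem cpat_blk_lt {E : List (α × α)} {i : ℕ} (hi : i < E.length) (k : ℕ) :
    cpat_blk E i k < cpat_n E := by
  unfold cpat_blk cpat_n
  have h1 := (cpat_r_spec (cpat_fst_mem hi)).1
  have h2 := (cpat_r_spec (cpat_snd_mem hi)).1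
  by_cases h3 : k = 0
  · rw [decide_eq_true h3, cond_true]
    omega
  · rw [decide_eq_false h3, cond_false]
    by_cases h4 : k = 1
    · rw [decide_eq_true h4, cond_true]
      omega
    · rw [decide_eq_false h4, cond_false]
      by_cases h5 : k = 2
      · rw [decide_eq_true h5, cond_true]
        omega
      · rw [decide_eq_false h5, cond_false]
        omega

/-- the entries of the instance -/
def cpat_F (CL : List (ℕ × ((ℕ × ℕ) × (ℕ × ℕ)))) (B : ℕ) (E : List (α × α)) (s p p' : ℕ) :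
    Bool :=
  (List.range E.length).any fun i => CL.any fun z =>
    decide (z.1 = s) && (decide (cpat_blk E i z.2.1.1 * B + z.2.1.2 = p) &&
      decide (cpat_blk E i z.2.2.1 * B + z.2.2.2 = p'))

theorem cpat_F_iff {CL : List (ℕ × ((ℕ × ℕ) × (ℕ × ℕ)))} {B : ℕ} {E : List (α × α)}
    {s p p' : ℕ} : cpat_F CL B E s p p' = true ↔ ∃ i, i < E.length ∧ ∃ z ∈ CL, z.1 = s ∧
      cpat_blk E i z.2.1.1 * B + z.2.1.2 = p ∧ cpat_blk E i z.2.2.1 * B + z.2.2.2 = p' := by
  unfold cpat_F
  simp only [List.any_eq_true, List.mem_range, Bool.and_eq_true, decide_eq_true_eq]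

end defs

/-! ### the reduction is in polynomial time -/

section pt

variable {m : Bool} {β α : Type} [Rep β] [Rep α] [DecidableEq α] [Inhabited α]

set_option linter.unusedSectionVars false

theorem cpat_l_PT {E : β → List (α × α)} (hE : PT m E) : PT m (fun b => cpat_l (E b)) := by
  unfold cpat_l
  exact PT.append' (PT.map' (m := m) (l := E) (f := fun z : β × (α × α) => z.2.1) hE
    (by fun_prop)) (PT.map' (m := m) (l := E) (f := fun z : β × (α × α) => z.2.2) hE
    (by fun_prop))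

theorem cpat_r_PT {E : β → List (α × α)} {y : β → α} (hE : PT m E) (hy : PT m y) :
    PT m (fun b => cpat_r (E b) (y b)) := by
  unfold cpat_r
  have h1 := cpat_l_PT hE
  have h2 : PT m (fun z : β × ℕ => cpat_l (E z.1)) := h1.comp' (by fun_prop)
  have h3 : PT m (fun z : β × ℕ => decide ((cpat_l (E z.1)).getD z.2 default = y z.1)) :=
    PT.decideEq (PT.getD' (by fun_prop) h2 (PT.const' _)) (hy.comp' (by fun_prop))
  exact PT.headD' (H64.Cook.PT.filter' (m := m)
    (l := fun b => List.range (cpat_l (E b)).length)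
    (f := fun z : β × ℕ => decide ((cpat_l (E z.1)).getD z.2 default = y z.1))
    (PT.range' (PT.length' h1)) h3) (PT.const' 0)

theorem cpat_blk_PT {E : β → List (α × α)} {i k : β → ℕ} (hE : PT m E) (hi : PT m i)
    (hk : PT m k) : PT m (fun b => cpat_blk (E b) (i b) (k b)) := by
  unfold cpat_blk
  have h0 : PT m (fun b => (E b).getD (i b) default) := PT.getD' hi hE (PT.const' _)
  have h1 : PT m (fun b => cpat_r (E b) ((E b).getD (i b) default).1) :=
    cpat_r_PT hE (PT.fst' h0)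
  have h2 : PT m (fun b => cpat_r (E b) ((E b).getD (i b) default).2) :=
    cpat_r_PT hE (PT.snd' h0)
  have h3 := PT.length' (cpat_l_PT hE)
  refine PT.cond (PT.decideEq hk (PT.const' _)) (PT.const' _) ?_
  refine PT.cond (PT.decideEq hk (PT.const' _)) (PT.add' (PT.const' _) h1) ?_
  refine PT.cond (PT.decideEq hk (PT.const' _)) (PT.add' (PT.const' _) h2) ?_
  exact PT.add' (PT.const' _) (PT.add' h3 hi)

theorem cpat_F_PT (CL : List (ℕ × ((ℕ × ℕ) × (ℕ × ℕ)))) (B : ℕ) {E : β → List (α × α)}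
    {s p p' : β → ℕ} (hE : PT m E) (hs : PT m s) (hp : PT m p) (hp' : PT m p') :
    PT m (fun b => cpat_F CL B (E b) (s b) (p b) (p' b)) := by
  unfold cpat_F
  have hE2 : PT m (fun z : (β × ℕ) × (ℕ × ((ℕ × ℕ) × (ℕ × ℕ))) => E z.1.1) :=
    hE.comp' (by fun_prop)
  have h1 : PT m (fun z : (β × ℕ) × (ℕ × ((ℕ × ℕ) × (ℕ × ℕ))) =>
      cpat_blk (E z.1.1) z.1.2 z.2.2.1.1) := cpat_blk_PT hE2 (by fun_prop) (by fun_prop)
  have h2 : PT m (fun z : (β × ℕ) × (ℕ × ((ℕ × ℕ) × (ℕ × ℕ))) =>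
      cpat_blk (E z.1.1) z.1.2 z.2.2.2.1) := cpat_blk_PT hE2 (by fun_prop) (by fun_prop)
  have hs2 : PT m (fun z : (β × ℕ) × (ℕ × ((ℕ × ℕ) × (ℕ × ℕ))) => s z.1.1) :=
    hs.comp' (by fun_prop)
  have hp2 : PT m (fun z : (β × ℕ) × (ℕ × ((ℕ × ℕ) × (ℕ × ℕ))) => p z.1.1) :=
    hp.comp' (by fun_prop)
  have hp2' : PT m (fun z : (β × ℕ) × (ℕ × ((ℕ × ℕ) × (ℕ × ℕ))) => p' z.1.1) :=
    hp'.comp' (by fun_prop)
  have h3 : PT m (fun z : β × ℕ => CL.any fun w =>
      decide (w.1 = s z.1) && (decide (cpat_blk (E z.1) z.2 w.2.1.1 * B + w.2.1.2 = p z.1) &&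
        decide (cpat_blk (E z.1) z.2 w.2.2.1 * B + w.2.2.2 = p' z.1))) := by
    refine H64.Cook.PT.any' (m := m) (l := fun _ : β × ℕ => CL)
      (f := fun z : (β × ℕ) × (ℕ × ((ℕ × ℕ) × (ℕ × ℕ))) =>
        decide (z.2.1 = s z.1.1) && (decide (cpat_blk (E z.1.1) z.1.2 z.2.2.1.1 * B +
          z.2.2.1.2 = p z.1.1) &&
        decide (cpat_blk (E z.1.1) z.1.2 z.2.2.2.1 * B + z.2.2.2.2 = p' z.1.1)))
      (PT.const' _) ?_
    refine PT.and' (PT.decideEq (by fun_prop) hs2) (PT.and' ?_ ?_)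
    · exact PT.decideEq (PT.add' (PT.mul' h1 (PT.const' _)) (by fun_prop)) hp2
    · exact PT.decideEq (PT.add' (PT.mul' h2 (PT.const' _)) (by fun_prop)) hp2'
  exact H64.Cook.PT.any' (m := m) (l := fun b => List.range (E b).length)
    (f := fun z : β × ℕ => CL.any fun w =>
      decide (w.1 = s z.1) && (decide (cpat_blk (E z.1) z.2 w.2.1.1 * B + w.2.1.2 = p z.1) &&
        decide (cpat_blk (E z.1) z.2 w.2.2.1 * B + w.2.2.2 = p' z.1)))
    (PT.range' (PT.length' hE)) h3

theorem cpat_word_PT (CL : List (ℕ × ((ℕ × ℕ) × (ℕ × ℕ)))) (M B : ℕ) {E : β → List (α × α)}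
    (hE : PT m E) :
    PT m (fun b => encM M (cpat_n (E b) * B) (cpat_F CL B (E b))) := by
  refine PT.encM' M (N := fun b => cpat_n (E b) * B) (F := fun b => cpat_F CL B (E b)) ?_ ?_
  · unfold cpat_n
    exact PT.mul' (PT.add' (PT.const' _) (PT.add' (PT.length' (cpat_l_PT hE))
      (PT.length' hE))) (PT.const' _)
  · exact cpat_F_PT CL B (E := fun z : β × (ℕ × (ℕ × ℕ)) => E z.1)
      (s := fun z => z.2.1) (p := fun z => z.2.2.1) (p' := fun z => z.2.2.2)
      (hE.comp' (by fun_prop)) (by fun_prop) (by fun_prop) (by fun_prop)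

end pt

/-! ### correctness -/

/-- the numbers of the elements of a finite type -/
theorem cpat_num (T : Type) [Finite T] : ∃ (n : ℕ) (f : T → ℕ), Function.Injective f ∧
    ∀ t, f t < n := by
  obtain ⟨n, ⟨e⟩⟩ := Finite.exists_equiv_fin T
  exact ⟨n, fun t => e t, fun t t' h => e.injective (Fin.ext h), fun t => (e t).2⟩

section corr

variable {J₀ J W : Type}

/-- the kind of a variable -/
def cpat_kd : (J₀ ⊕ (Bool × J)) ⊕ W → ℕ
  | Sum.inl (Sum.inl _) => 0
  | Sum.inl (Sum.inr p) => if p.1 then 2 else 1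
  | Sum.inr _ => 3

/-- the number of a variable in its block -/
def cpat_of (n₀ : J₀ → ℕ) (n₁ : J → ℕ) (n₂ : W → ℕ) : (J₀ ⊕ (Bool × J)) ⊕ W → ℕ
  | Sum.inl (Sum.inl u) => n₀ u
  | Sum.inl (Sum.inr p) => n₁ p.2
  | Sum.inr v => n₂ v

theorem cpat_CL [Finite J₀] [Finite J] [Finite W] {M : ℕ} (n₀ : J₀ → ℕ) (n₁ : J → ℕ)
    (n₂ : W → ℕ) (c : Fin M → (J₀ ⊕ (Bool × J)) ⊕ W → (J₀ ⊕ (Bool × J)) ⊕ W → Prop) :
    ∃ CL : List (ℕ × ((ℕ × ℕ) × (ℕ × ℕ))), ∀ z, z ∈ CL ↔ ∃ s u v, c s u v ∧
      z = ((s : ℕ), ((cpat_kd u, cpat_of n₀ n₁ n₂ u), (cpat_kd v, cpat_of n₀ n₁ n₂ v))) := by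
  classical
  have hfin : Set.Finite {z : Fin M × ((J₀ ⊕ (Bool × J)) ⊕ W) × ((J₀ ⊕ (Bool × J)) ⊕ W) |
      c z.1 z.2.1 z.2.2} := Set.toFinite _
  refine ⟨hfin.toFinset.toList.map fun z => ((z.1 : ℕ), ((cpat_kd z.2.1,
    cpat_of n₀ n₁ n₂ z.2.1), (cpat_kd z.2.2, cpat_of n₀ n₁ n₂ z.2.2))), fun z => ?_⟩
  rw [List.mem_map]
  constructor
  · rintro ⟨⟨s, u, v⟩, hy, rfl⟩
    rw [Finset.mem_toList, Set.Finite.mem_toFinset] at hy
    exact ⟨s, u, v, hy, rfl⟩
  · rintro ⟨s, u, v, hc, rfl⟩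
    refine ⟨(s, u, v), ?_, rfl⟩
    rw [Finset.mem_toList, Set.Finite.mem_toFinset]
    exact hc

end corr

theorem cpat_core {D : Type} {M : ℕ} (hM : 0 < M) {R : Fin M → D → D → Prop}
    {J₀ J W : Type} {ρ : (J₀ ⊕ (Bool × J) → D) → Prop}
    {c : Fin M → (J₀ ⊕ (Bool × J)) ⊕ W → (J₀ ⊕ (Bool × J)) ⊕ W → Prop}
    (hρ : ∀ a, ρ a ↔ ∃ b : W → D, ∀ s u v, c s u v → R s (Sum.elim a b u) (Sum.elim a b v))
    {k : ℕ} (β : (J₀ → D) → (J → D) → Fin k)
    (h1 : ∀ a, ρ a → β (fun j => a (Sum.inl j)) (fun j => a (Sum.inr (false, j))) ≠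
      β (fun j => a (Sum.inl j)) (fun j => a (Sum.inr (true, j))))
    (c₀ : J₀ → D) (γ : Fin k → J → D)
    (h2 : ∀ s t, s ≠ t → ρ (Sum.elim c₀ (fun p => if p.1 then γ t p.2 else γ s p.2)))
    (d₀ : D) {n₀ : J₀ → ℕ} {n₁ : J → ℕ} {n₂ : W → ℕ} (i₀ : Function.Injective n₀)
    (i₁ : Function.Injective n₁) (i₂ : Function.Injective n₂) {B : ℕ}
    (hB : ∀ ξ, cpat_of n₀ n₁ n₂ ξ < B) {CL : List (ℕ × ((ℕ × ℕ) × (ℕ × ℕ)))}
    (hCL : ∀ z, z ∈ CL ↔ ∃ s u v, c s u v ∧
      z = ((s : ℕ), ((cpat_kd u, cpat_of n₀ n₁ n₂ u), (cpat_kd v, cpat_of n₀ n₁ n₂ v))))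
    {α : Type} [DecidableEq α] [Inhabited α] (E : List (α × α)) :
    EColourable k E ↔ encM M (cpat_n E * B) (cpat_F CL B E) ∈ CSet R := by
  classical
  rw [encM_eq, cpat_cset hM]
  have hpos : ∀ {i : ℕ}, i < E.length → ∀ ξ : (J₀ ⊕ (Bool × J)) ⊕ W,
      cpat_blk E i (cpat_kd ξ) * B + cpat_of n₀ n₁ n₂ ξ < cpat_n E * B := by
    intro i hi ξ
    have h3 := cpat_blk_lt hi (cpat_kd ξ)
    have h4 := hB ξ
    calc cpat_blk E i (cpat_kd ξ) * B + cpat_of n₀ n₁ n₂ ξ
        < cpat_blk E i (cpat_kd ξ) * B + B := by omega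
      _ = (cpat_blk E i (cpat_kd ξ) + 1) * B := by rw [Nat.add_mul, Nat.one_mul]
      _ ≤ cpat_n E * B := Nat.mul_le_mul_right _ h3
  constructor
  · rintro ⟨κ, hκ⟩
    have h3 : ∀ i : ℕ, ∃ b : W → D, i < E.length → ∀ s u v, c s u v →
        R s (Sum.elim (Sum.elim c₀ (fun p : Bool × J => if p.1 then
          γ (κ (E.getD i default).2) p.2 else γ (κ (E.getD i default).1) p.2)) b u)
          (Sum.elim (Sum.elim c₀ (fun p : Bool × J => if p.1 then
          γ (κ (E.getD i default).2) p.2 else γ (κ (E.getD i default).1) p.2)) b v) := by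
      intro i
      by_cases hi : i < E.length
      · have h4 : E.getD i default ∈ E := by
          rw [List.getD_eq_getElem _ _ hi]
          exact List.getElem_mem hi
        obtain ⟨b, hb⟩ := (hρ _).1 (h2 _ _ (hκ _ h4))
        exact ⟨b, fun _ => hb⟩
      · exact ⟨fun _ => d₀, fun h => absurd h hi⟩
    choose w hw using h3
    let A0 : ℕ → D := Function.extend n₀ c₀ (fun _ => d₀)
    let A1 : Fin k → ℕ → D := fun q => Function.extend n₁ (γ q) (fun _ => d₀)
    let A2 : ℕ → ℕ → D := fun i => Function.extend n₂ (w i) (fun _ => d₀)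
    let V : ℕ → ℕ → D := fun t o => if t = 0 then A0 o else
      if t - 1 < (cpat_l E).length then A1 (κ ((cpat_l E).getD (t - 1) default)) o else
        A2 (t - 1 - (cpat_l E).length) o
    have hV : ∀ i, i < E.length → ∀ ξ : (J₀ ⊕ (Bool × J)) ⊕ W,
        V (cpat_blk E i (cpat_kd ξ)) (cpat_of n₀ n₁ n₂ ξ) =
          Sum.elim (Sum.elim c₀ (fun p : Bool × J => if p.1 then
          γ (κ (E.getD i default).2) p.2 else γ (κ (E.getD i default).1) p.2)) (w i) ξ := by
      intro i hi ξ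
      rcases ξ with (u | ⟨b, u⟩) | v
      · show V 0 (n₀ u) = c₀ u
        show (if (0 : ℕ) = 0 then A0 (n₀ u) else _) = c₀ u
        rw [if_pos rfl]
        exact i₀.extend_apply _ _ _
      · cases b with
        | false =>
          have h5 := cpat_r_spec (cpat_fst_mem hi)
          show V (1 + cpat_r E (E.getD i default).1) (n₁ u) = γ (κ (E.getD i default).1) u
          show (if 1 + cpat_r E (E.getD i default).1 = 0 then A0 (n₁ u) else
            if 1 + cpat_r E (E.getD i default).1 - 1 < (cpat_l E).length then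
              A1 (κ ((cpat_l E).getD (1 + cpat_r E (E.getD i default).1 - 1) default)) (n₁ u)
            else _) = _
          rw [if_neg (by omega), Nat.add_sub_cancel_left, if_pos h5.1, h5.2]
          exact i₁.extend_apply _ _ _
        | true =>
          have h5 := cpat_r_spec (cpat_snd_mem hi)
          show V (1 + cpat_r E (E.getD i default).2) (n₁ u) = γ (κ (E.getD i default).2) u
          show (if 1 + cpat_r E (E.getD i default).2 = 0 then A0 (n₁ u) else
            if 1 + cpat_r E (E.getD i default).2 - 1 < (cpat_l E).length then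
              A1 (κ ((cpat_l E).getD (1 + cpat_r E (E.getD i default).2 - 1) default)) (n₁ u)
            else _) = _
          rw [if_neg (by omega), Nat.add_sub_cancel_left, if_pos h5.1, h5.2]
          exact i₁.extend_apply _ _ _
      · show V (1 + ((cpat_l E).length + i)) (n₂ v) = w i v
        show (if 1 + ((cpat_l E).length + i) = 0 then A0 (n₂ v) else
          if 1 + ((cpat_l E).length + i) - 1 < (cpat_l E).length then
            A1 (κ ((cpat_l E).getD (1 + ((cpat_l E).length + i) - 1) default)) (n₂ v)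
          else A2 (1 + ((cpat_l E).length + i) - 1 - (cpat_l E).length) (n₂ v)) = _
        rw [if_neg (by omega), Nat.add_sub_cancel_left, if_neg (by omega),
          Nat.add_sub_cancel_left]
        exact i₂.extend_apply _ _ _
    refine ⟨fun p => V ((p : ℕ) / B) ((p : ℕ) % B), ?_⟩
    intro s p p' hF
    rw [cpat_F_iff] at hF
    obtain ⟨i, hi, z, hz, hzs, hzp, hzp'⟩ := hF
    obtain ⟨s', u, v, hc, rfl⟩ := (hCL z).1 hz
    have hs : s' = s := Fin.ext hzs
    subst hs
    have h5 := hw i hi s' u v hc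
    rw [← hV i hi u, ← hV i hi v] at h5
    have h6 : ∀ ξ : (J₀ ⊕ (Bool × J)) ⊕ W, ∀ q : ℕ,
        cpat_blk E i (cpat_kd ξ) * B + cpat_of n₀ n₁ n₂ ξ = q →
        q / B = cpat_blk E i (cpat_kd ξ) ∧ q % B = cpat_of n₀ n₁ n₂ ξ := by
      intro ξ q hq
      have h7 := hB ξ
      rw [← hq]
      constructor
      · rw [Nat.add_comm, Nat.add_mul_div_right _ _ (by omega), Nat.div_eq_of_lt h7,
          Nat.zero_add]
      · rw [Nat.add_comm, Nat.add_mul_mod_self_right, Nat.mod_eq_of_lt h7]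
    show R s' (V ((p : ℕ) / B) ((p : ℕ) % B)) (V ((p' : ℕ) / B) ((p' : ℕ) % B))
    rw [(h6 u p hzp).1, (h6 u p hzp).2, (h6 v p' hzp').1, (h6 v p' hzp').2]
    exact h5
  · rintro ⟨a, ha⟩
    let A : ℕ → D := fun p => if h : p < cpat_n E * B then a ⟨p, h⟩ else d₀
    have hA : ∀ (p : ℕ) (h : p < cpat_n E * B), A p = a ⟨p, h⟩ := fun p h => dif_pos h
    refine ⟨fun y => β (fun j => A (0 * B + n₀ j)) (fun u => A ((1 + cpat_r E y) * B + n₁ u)),
      ?_⟩
    intro e he
    obtain ⟨i, hi, hie⟩ := List.getElem_of_mem he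
    have he' : E.getD i default = e := by rw [List.getD_eq_getElem _ _ hi, hie]
    have h3 : ρ (fun ξ => A (cpat_blk E i (cpat_kd (Sum.inl ξ : (J₀ ⊕ (Bool × J)) ⊕ W)) * B +
        cpat_of n₀ n₁ n₂ (Sum.inl ξ))) := by
      rw [hρ]
      refine ⟨fun v => A (cpat_blk E i (cpat_kd (Sum.inr v : (J₀ ⊕ (Bool × J)) ⊕ W)) * B +
        cpat_of n₀ n₁ n₂ (Sum.inr v)), ?_⟩
      have h4 : ∀ ξ : (J₀ ⊕ (Bool × J)) ⊕ W, Sum.elim
          (fun ξ => A (cpat_blk E i (cpat_kd (Sum.inl ξ : (J₀ ⊕ (Bool × J)) ⊕ W)) * B +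
            cpat_of n₀ n₁ n₂ (Sum.inl ξ)))
          (fun v => A (cpat_blk E i (cpat_kd (Sum.inr v : (J₀ ⊕ (Bool × J)) ⊕ W)) * B +
            cpat_of n₀ n₁ n₂ (Sum.inr v))) ξ =
          A (cpat_blk E i (cpat_kd ξ) * B + cpat_of n₀ n₁ n₂ ξ) := by
        intro ξ
        rcases ξ with ξ | v <;> rfl
      intro s u v hc
      rw [h4, h4, hA _ (hpos hi u), hA _ (hpos hi v)]
      refine ha s _ _ ?_
      rw [cpat_F_iff]
      exact ⟨i, hi, _, (hCL _).2 ⟨s, u, v, hc, rfl⟩, rfl, rfl, rfl⟩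
    have h4 := h1 _ h3
    rw [← he']
    exact h4

theorem cpat_hard {D : Type} [Finite D] {M : ℕ} (hM : 0 < M) {R : Fin M → D → D → Prop}
    {J₀ J : Type} [Finite J₀] [Finite J] {ρ : (J₀ ⊕ (Bool × J) → D) → Prop} (hρ : Pd R ρ)
    {k : ℕ} (hk : 3 ≤ k) (β : (J₀ → D) → (J → D) → Fin k)
    (h1 : ∀ a, ρ a → β (fun j => a (Sum.inl j)) (fun j => a (Sum.inr (false, j))) ≠
      β (fun j => a (Sum.inl j)) (fun j => a (Sum.inr (true, j))))
    (c₀ : J₀ → D) (γ : Fin k → J → D)
    (h2 : ∀ s t, s ≠ t → ρ (Sum.elim c₀ (fun p => if p.1 then γ t p.2 else γ s p.2))) :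
    ∀ L ∈ NP, Red L (CSet R) := by
  classical
  intro L hL
  obtain ⟨W, hW, c, hc⟩ := hρ
  -- `J` is not empty
  have hJ : Nonempty J := by
    by_contra hJ
    rw [not_nonempty_iff] at hJ
    have h3 := h1 _ (h2 (⟨0, by omega⟩ : Fin k) ⟨1, by omega⟩ (by simp))
    exact h3 (congrArg _ (Subsingleton.elim _ _))
  obtain ⟨j₁⟩ := hJ
  have d₀ : D := γ ⟨0, by omega⟩ j₁
  obtain ⟨m₀, n₀, i₀, b₀⟩ := cpat_num J₀
  obtain ⟨m₁, n₁, i₁, b₁⟩ := cpat_num J
  obtain ⟨m₂, n₂, i₂, b₂⟩ := cpat_num W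
  obtain ⟨CL, hCL⟩ := cpat_CL n₀ n₁ n₂ c
  obtain ⟨φ, hφ, h⟩ := hardk hk hL
  have hB : ∀ ξ, cpat_of n₀ n₁ n₂ ξ < m₀ + m₁ + m₂ := by
    rintro ((u | ⟨b, u⟩) | v)
    · have := b₀ u
      show n₀ u < _
      omega
    · have := b₁ u
      show n₁ u < _
      omega
    · have := b₂ v
      show n₂ v < _
      omega
  refine ⟨fun x => encM M (cpat_n (φ x) * (m₀ + m₁ + m₂)) (cpat_F CL (m₀ + m₁ + m₂) (φ x)),
    mem_FP_iff.2 (cpat_word_PT CL M (m₀ + m₁ + m₂) hφ), fun x => ?_⟩
  rw [(h x).2]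
  exact cpat_core hM hc β h1 c₀ γ h2 d₀ i₀ i₁ i₂ hB hCL (φ x)

end Pool.Agent.H24.GL
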