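import Pool.Agent.H24.GL.PdStar
import Pool.Agent.H24.GL.Cpat
import Pool.Agent.H24.GG.MFin

/-!
# JOB GL-4: relations of vertices

`FD H κ ρ`: `κ x` is a vertex which gives the class of the variable `x : X`; `ρ` is a relation of vertices (the values of the
variables). It is defined by an instance, together with the variables `LV H` for the diagram: up to an automorphism `g`, which is
given by the values of the diagram.

All proofs: `g` is determined by the values of the diagram and `u` by `g` and the values at `X` (`g` is injective).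
`fd_iff`. `fd_base`: a relation of stars which is invariant under automorphisms: `pd_comap` (for `Sum.inl` and for the variables), `pd_and`
with `pd_diag`; `u x` is the vertex with `g (u x) = (a (inr x)).1` (`Aut.bij`, `Aut.cl`).
`fd_true`: `fd_base` with the conjunction of the `pd_star` (`pd_all`). `fd_eq`: `pd_eqf`. `fd_dt`: `pd_dt`, `aut_dt`. `fd_st2`: `pd_st2`,
`Aut.M`, `Aut.bij`. `fd_const`: `pd_eqf` for the variables `inl v` and `inr ()`.
`fd_and`, `fd_all` (`X` finite, `ι` finite; for `ι` empty `fd_true`): `pd_and`, `pd_all`. `fd_comap`: `pd_comap` with `Sum.map id φ`, and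
`pd_and` with `fd_true` for `X'`. `fd_ex`: `pd_comap` with the equivalence `LV H ⊕ (X ⊕ X₁) ≃ (LV H ⊕ X) ⊕ X₁`, `pd_ex`; `st_ex` gives
stars of the vertices `g (u₁ x)`.
`fd_hard`: `cpat_hard` with `J₀ = LV H`, `β a₀ a = κ₀ (the u with (a x).1 = g (u x))`, where `g v = (a₀ v).1` (`Function.invFun`),
`c₀ v` a star of `v` (`st_ex`), `γ' s j` a star of `γ s j`.
-/

namespace Pool.Agent.H24.GL

open Pool.Agent.H24.GC Pool.Agent.H24.GE Pool.Agent.H24.GG Pool.Agent.H24.GH Pool.Agent.H24.GI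
  Pool.Agent.H24.GK Pool.Agent.PPS Pool.Agent.H64.Cook Pool.Agent.H79.Thr

variable {n : ℕ} {H : SimpleGraph (Fin n)}

/-- the stars `a` have the vertices `g (u x)`, where `g` is the automorphism given by the diagram -/
def FDR (H : SimpleGraph (Fin n)) {X : Type} (κ : X → LV H) (ρ : (X → LV H) → Prop)
    (a : LV H ⊕ X → TD H) : Prop :=
  ∃ g, Aut (lab H) g ∧ (∀ v, TV H (a (Sum.inl v)) ∧ (a (Sum.inl v)).1 = g v) ∧
    ∃ u : X → LV H, ρ u ∧ ∀ x, (lab H).cl (u x) = (lab H).cl (κ x) ∧ TV H (a (Sum.inr x)) ∧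
      (a (Sum.inr x)).1 = g (u x)

/-- the relation `ρ` of vertices is defined by an instance with a diagram -/
def FD (H : SimpleGraph (Fin n)) {X : Type} (κ : X → LV H) (ρ : (X → LV H) → Prop) : Prop :=
  Pd (TR H) (FDR H κ ρ)

variable {X : Type} {κ : X → LV H}

private theorem gl4_un {g g' : LV H → LV H} {a : LV H → TD H} (h : ∀ v, TV H (a v) ∧ (a v).1 = g v)
    (h' : ∀ v, TV H (a v) ∧ (a v).1 = g' v) : g = g' := by
  funext v
  rw [← (h v).2, (h' v).2]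

theorem fd_iff {ρ ρ' : (X → LV H) → Prop} (h : FD H κ ρ)
    (h' : ∀ u, (∀ x, (lab H).cl (u x) = (lab H).cl (κ x)) → (ρ' u ↔ ρ u)) : FD H κ ρ' := by
  refine pd_iff h fun a => ?_
  constructor
  · rintro ⟨g, hg, h1, u, hu, h2⟩
    exact ⟨g, hg, h1, u, (h' u fun x => (h2 x).1).mp hu, h2⟩
  · rintro ⟨g, hg, h1, u, hu, h2⟩
    exact ⟨g, hg, h1, u, (h' u fun x => (h2 x).1).mpr hu, h2⟩

theorem fd_base (hm : Mul H) (hred : Redc (lab H)) [Finite X] {σ : (X → TD H) → Prop}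
    (hσ : Pd (TR H) σ) {ρ : (X → LV H) → Prop}
    (h : ∀ g, Aut (lab H) g → ∀ (u : X → LV H) (a : X → TD H),
      (∀ x, TV H (a x) ∧ (lab H).cl (u x) = (lab H).cl (κ x) ∧ (a x).1 = g (u x)) →
        (σ a ↔ ρ u))
    (h' : ∀ a, σ a → ∀ x, TV H (a x) ∧ (lab H).cl (a x).1 = (lab H).cl (κ x)) : FD H κ ρ := by
  refine pd_iff (pd_and (pd_comap (pd_diag hm hred) (Sum.inl : LV H → LV H ⊕ X))
    (pd_comap hσ (Sum.inr : X → LV H ⊕ X))) fun a => ?_
  constructor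
  · rintro ⟨g, hg, h1, u, hu, h2⟩
    refine ⟨⟨g, hg, h1⟩, (h g hg u (fun x => a (Sum.inr x)) fun x => ?_).mpr hu⟩
    exact ⟨(h2 x).2.1, (h2 x).1, (h2 x).2.2⟩
  · rintro ⟨⟨g, hg, h1⟩, h3⟩
    have h4 := h' _ h3
    choose u hu using fun x => hg.bij.2 (a (Sum.inr x)).1
    have h5 : ∀ x, (lab H).cl (u x) = (lab H).cl (κ x) := by
      intro x
      rw [← hg.cl, hu x]
      exact (h4 x).2
    refine ⟨g, hg, h1, u, (h g hg u (fun x => a (Sum.inr x)) fun x => ?_).mp h3, fun x => ?_⟩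
    · exact ⟨(h4 x).1, h5 x, (hu x).symm⟩
    · exact ⟨h5 x, (h4 x).1, (hu x).symm⟩

theorem fd_true (hm : Mul H) (hred : Redc (lab H)) [Finite X] :
    FD H κ (fun _ => True) := by
  refine fd_base hm hred (σ := fun a : X → TD H => ∀ x, StK H ((lab H).cl (κ x)) (a x))
    (pd_all fun x => pd_comap (pd_star hm (κ x)) (fun _ : Unit => x)) ?_ ?_
  · intro g hg u a h1
    refine iff_of_true (fun x => ⟨(h1 x).1, ?_⟩) trivial
    rw [(h1 x).2.2, hg.cl, (h1 x).2.1]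
  · intro a h1 x
    exact h1 x

theorem fd_and {ρ ρ' : (X → LV H) → Prop} (h : FD H κ ρ) (h' : FD H κ ρ') :
    FD H κ (fun u => ρ u ∧ ρ' u) := by
  refine pd_iff (pd_and h h') fun a => ?_
  constructor
  · rintro ⟨g, hg, h1, u, hu, h2⟩
    exact ⟨⟨g, hg, h1, u, hu.1, h2⟩, ⟨g, hg, h1, u, hu.2, h2⟩⟩
  · rintro ⟨⟨g, hg, h1, u, hu, h2⟩, ⟨g', hg', h1', u', hu', h2'⟩⟩
    have e1 : g = g' := gl4_un h1 h1'
    subst e1
    have e2 : u = u' := by
      funext x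
      exact hg.bij.1 (((h2 x).2.2).symm.trans (h2' x).2.2)
    subst e2
    exact ⟨g, hg, h1, u, ⟨hu, hu'⟩, h2⟩

theorem fd_all (hm : Mul H) (hred : Redc (lab H)) [Finite X] {ι : Type} [Finite ι]
    {ρ : ι → (X → LV H) → Prop} (h : ∀ i, FD H κ (ρ i)) : FD H κ (fun u => ∀ i, ρ i u) := by
  rcases isEmpty_or_nonempty ι with hι | ⟨⟨i₀⟩⟩
  · exact fd_iff (fd_true hm hred) fun u _ => iff_of_true (fun i => (hι.false i).elim) trivial
  · refine pd_iff (pd_all h) fun a => ?_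
    constructor
    · rintro ⟨g, hg, h1, u, hu, h2⟩ i
      exact ⟨g, hg, h1, u, hu i, h2⟩
    · intro h3
      obtain ⟨g, hg, h1, u, hu, h2⟩ := h3 i₀
      refine ⟨g, hg, h1, u, fun i => ?_, h2⟩
      obtain ⟨g', hg', h1', u', hu', h2'⟩ := h3 i
      have e1 : g = g' := gl4_un h1 h1'
      subst e1
      have e2 : u = u' := by
        funext x
        exact hg.bij.1 (((h2 x).2.2).symm.trans (h2' x).2.2)
      subst e2
      exact hu'

theorem fd_comap (hm : Mul H) (hred : Redc (lab H)) {X' : Type} [Finite X'] {κ' : X' → LV H}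
    {ρ : (X → LV H) → Prop} (h : FD H κ ρ) (φ : X → X')
    (hφ : ∀ x, (lab H).cl (κ x) = (lab H).cl (κ' (φ x))) :
    FD H κ' (fun u => ρ (fun x => u (φ x))) := by
  refine pd_iff (pd_and (pd_comap h (Sum.map id φ : LV H ⊕ X → LV H ⊕ X'))
    (fd_true (κ := κ') hm hred)) fun a => ?_
  constructor
  · rintro ⟨g, hg, h1, u, hu, h2⟩
    refine ⟨⟨g, hg, h1, fun x => u (φ x), hu, fun x => ?_⟩, ⟨g, hg, h1, u, trivial, h2⟩⟩
    exact ⟨(h2 (φ x)).1.trans (hφ x).symm, (h2 (φ x)).2⟩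
  · rintro ⟨⟨g, hg, h1, u, hu, h2⟩, ⟨g', hg', h1', u', -, h2'⟩⟩
    have e1 : g = g' := gl4_un h1 h1'
    subst e1
    have e2 : u = fun x => u' (φ x) := by
      funext x
      exact hg.bij.1 (((h2 x).2.2).symm.trans (h2' (φ x)).2.2)
    subst e2
    exact ⟨g, hg, h1, u', hu, h2'⟩

theorem fd_ex {X₁ : Type} [Finite X₁] {κ₁ : X₁ → LV H} {ρ : (X ⊕ X₁ → LV H) → Prop}
    (h : FD H (Sum.elim κ κ₁) ρ) :
    FD H κ (fun u => ∃ u₁ : X₁ → LV H, (∀ x, (lab H).cl (u₁ x) = (lab H).cl (κ₁ x)) ∧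
      ρ (Sum.elim u u₁)) := by
  refine pd_iff (pd_ex (pd_comap h ((Equiv.sumAssoc (LV H) X X₁).symm :
    LV H ⊕ (X ⊕ X₁) → (LV H ⊕ X) ⊕ X₁))) fun a => ?_
  constructor
  · rintro ⟨g, hg, h1, u, ⟨u₁, hu₁, hu⟩, h2⟩
    choose b hb using fun x => st_ex (H := H) (g (u₁ x))
    refine ⟨fun x => (g (u₁ x), b x), g, hg, h1, Sum.elim u u₁, hu, ?_⟩
    rintro (x | x)
    · exact h2 x
    · exact ⟨hu₁ x, hb x, rfl⟩
  · rintro ⟨b, g, hg, h1, u, hu, h2⟩
    refine ⟨g, hg, h1, fun x => u (Sum.inl x), ⟨fun x => u (Sum.inr x),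
      fun x => (h2 (Sum.inr x)).1, ?_⟩, fun x => h2 (Sum.inl x)⟩
    have e : Sum.elim (fun x => u (Sum.inl x)) (fun x => u (Sum.inr x)) = u := by
      funext x
      rcases x with x | x <;> rfl
    rw [e]
    exact hu

theorem fd_eq (hm : Mul H) (hred : Redc (lab H)) (v : LV H) :
    FD H (fun _ : Bool => v) (fun u => u false = u true) := by
  refine fd_base hm hred (pd_eqf hm v) ?_ ?_
  · intro g hg u a h1
    constructor
    · rintro ⟨-, -, h2⟩
      rw [(h1 false).2.2, (h1 true).2.2] at h2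
      exact hg.bij.1 h2
    · intro h2
      refine ⟨⟨(h1 false).1, ?_⟩, ⟨(h1 true).1, ?_⟩, ?_⟩
      · rw [(h1 false).2.2, hg.cl, (h1 false).2.1]
      · rw [(h1 true).2.2, hg.cl, (h1 true).2.1]
      · rw [(h1 false).2.2, (h1 true).2.2, h2]
  · rintro a ⟨h1, h2, -⟩ (_ | _)
    · exact h1
    · exact h2

theorem fd_const (hm : Mul H) (hred : Redc (lab H)) (v : LV H) :
    FD H (fun _ : Unit => v) (fun u => u () = v) := by
  refine pd_iff (pd_and (fd_true (κ := fun _ : Unit => v) hm hred)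
    (pd_comap (pd_eqf hm v) (fun b : Bool => (if b then Sum.inr () else Sum.inl v :
      LV H ⊕ Unit)))) fun a => ?_
  constructor
  · rintro ⟨g, hg, h1, u, hu, h2⟩
    refine ⟨⟨g, hg, h1, u, trivial, h2⟩, ⟨(h1 v).1, ?_⟩, ⟨(h2 ()).2.1, ?_⟩, ?_⟩
    · show (lab H).cl (a (Sum.inl v)).1 = _
      rw [(h1 v).2, hg.cl]
    · show (lab H).cl (a (Sum.inr ())).1 = _
      rw [(h2 ()).2.2, hg.cl, (h2 ()).1]
    · show (a (Sum.inl v)).1 = (a (Sum.inr ())).1
      rw [(h1 v).2, (h2 ()).2.2, hu]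
  · rintro ⟨⟨g, hg, h1, u, -, h2⟩, -, -, h3⟩
    refine ⟨g, hg, h1, u, ?_, h2⟩
    have h4 : (a (Sum.inl v)).1 = (a (Sum.inr ())).1 := h3
    rw [(h1 v).2, (h2 ()).2.2] at h4
    exact (hg.bij.1 h4).symm

theorem fd_dt (hm : Mul H) (hred : Redc (lab H)) {t : LT H} {κ : Bool → LV H}
    (h1 : (lab H).cl (κ false) = (lab H).sc t)
    (h2 : (lab H).cl (κ true) = (lab H).sc ((lab H).bar t)) :
    FD H κ (fun u => Dt (lab H) t (u false) (u true)) := by
  refine fd_base hm hred (pd_dt hm t) ?_ ?_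
  · intro g hg u a h3
    rw [(h3 false).2.2, (h3 true).2.2, aut_dt hg]
    constructor
    · rintro ⟨-, -, h4⟩
      exact h4
    · intro h4
      refine ⟨⟨(h3 false).1, ?_⟩, ⟨(h3 true).1, ?_⟩, h4⟩
      · rw [(h3 false).2.2, hg.cl, (h3 false).2.1, h1]
      · rw [(h3 true).2.2, hg.cl, (h3 true).2.1, h2]
  · rintro a ⟨h3, h4, -⟩ (_ | _)
    · exact ⟨h3.1, h3.2.trans h1.symm⟩
    · exact ⟨h4.1, h4.2.trans h2.symm⟩

theorem fd_st2 (hm : Mul H) (hred : Redc (lab H)) {t : LT H} (ht : (lab H).num t = 2)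
    {κ : Fin 3 → LV H} (h0 : (lab H).cl (κ 0) = (lab H).sc t)
    (h1 : (lab H).cl (κ 1) = (lab H).sc ((lab H).bar t))
    (h2 : (lab H).cl (κ 2) = (lab H).sc ((lab H).bar t)) :
    FD H κ (fun u => ∀ z, {b : Fin 3 | b ≠ 0 ∧ u b = z}.ncard = (lab H).M t (u 0) z) := by
  refine fd_base hm hred (pd_st2 hm ht) ?_ ?_
  · intro g hg u a h3
    have e : ∀ w, {b : Fin 3 | b ≠ 0 ∧ (a b).1 = g w} = {b : Fin 3 | b ≠ 0 ∧ u b = w} := by
      intro w
      ext b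
      show b ≠ 0 ∧ (a b).1 = g w ↔ b ≠ 0 ∧ u b = w
      rw [(h3 b).2.2]
      exact and_congr_right fun _ => ⟨fun h => hg.bij.1 h, fun h => congrArg g h⟩
    constructor
    · rintro ⟨-, -, -, h4⟩ w
      rw [← e w, h4 (g w), (h3 0).2.2, hg.M]
    · intro h4
      refine ⟨⟨(h3 0).1, ?_⟩, ⟨(h3 1).1, ?_⟩, ⟨(h3 2).1, ?_⟩, fun z => ?_⟩
      · rw [(h3 0).2.2, hg.cl, (h3 0).2.1, h0]
      · rw [(h3 1).2.2, hg.cl, (h3 1).2.1, h1]
      · rw [(h3 2).2.2, hg.cl, (h3 2).2.1, h2]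
      · obtain ⟨w, rfl⟩ := hg.bij.2 z
        rw [e w, h4 w, (h3 0).2.2, hg.M]
  · rintro a ⟨h3, h4, h5, -⟩ x
    fin_cases x
    · exact ⟨h3.1, h3.2.trans h0.symm⟩
    · exact ⟨h4.1, h4.2.trans h1.symm⟩
    · exact ⟨h5.1, h5.2.trans h2.symm⟩

private theorem gl4_aut_id : Aut (lab H) (id : LV H → LV H) :=
  ⟨Function.bijective_id, fun _ => rfl, fun _ _ _ => rfl⟩

open Classical in
theorem fd_hard (hn : 0 < n) {J : Type} [Finite J] {κ : J → LV H}
    {ρ : (Bool × J → LV H) → Prop} (h : FD H (fun p => κ p.2) ρ) {k : ℕ} (hk : 3 ≤ k)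
    (κ₀ : (J → LV H) → Fin k)
    (h1 : ∀ u, ρ u → κ₀ (fun j => u (false, j)) ≠ κ₀ (fun j => u (true, j)))
    (γ : Fin k → J → LV H) (hγ : ∀ s j, (lab H).cl (γ s j) = (lab H).cl (κ j))
    (h2 : ∀ s t, s ≠ t → ρ (fun p => if p.1 then γ t p.2 else γ s p.2)) :
    ∀ L ∈ NP, Red L (CSet (TR H)) := by
  choose st hst using fun v => st_ex (H := H) v
  let β : (LV H → TD H) → (J → TD H) → Fin k := fun a₀ a =>
    if hh : ∃ u : J → LV H, ∀ j, (a j).1 = (a₀ (u j)).1 then κ₀ hh.choose else ⟨0, by omega⟩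
  have hβ : ∀ (a₀ : LV H → TD H) (a : J → TD H) (g : LV H → LV H) (u : J → LV H),
      Function.Injective g → (∀ v, (a₀ v).1 = g v) → (∀ j, (a j).1 = g (u j)) →
      β a₀ a = κ₀ u := by
    intro a₀ a g u hg h3 h4
    have hh : ∃ u : J → LV H, ∀ j, (a j).1 = (a₀ (u j)).1 :=
      ⟨u, fun j => by rw [h4 j, h3]⟩
    show (if hh : ∃ u : J → LV H, ∀ j, (a j).1 = (a₀ (u j)).1 then κ₀ hh.choose
      else ⟨0, by omega⟩) = κ₀ u
    rw [dif_pos hh]
    congr 1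
    funext j
    apply hg
    rw [← h4 j, ← h3]
    exact (hh.choose_spec j).symm
  refine cpat_hard (Nat.mul_pos hn (Nat.mul_pos hn (Nat.mul_pos hn hn))) h hk β ?_
    (fun v => (v, st v)) (fun s j => (γ s j, st (γ s j))) ?_
  · rintro a ⟨g, hg, h3, u, hu, h4⟩
    rw [hβ _ _ g (fun j => u (false, j)) hg.bij.1 (fun v => (h3 v).2)
      (fun j => (h4 (false, j)).2.2),
      hβ _ _ g (fun j => u (true, j)) hg.bij.1 (fun v => (h3 v).2)
      (fun j => (h4 (true, j)).2.2)]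
    exact h1 u hu
  · intro s t hs
    refine ⟨id, gl4_aut_id, fun v => ⟨hst v, rfl⟩, _, h2 s t hs, ?_⟩
    rintro ⟨b, j⟩
    cases b
    · exact ⟨hγ s j, hst (γ s j), rfl⟩
    · exact ⟨hγ t j, hst (γ t j), rfl⟩

end Pool.Agent.H24.GL
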