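import Pool.Agent.H24.GL.CaseC
import Pool.Agent.H24.GK.FinalK

/-!
# NP-completeness if the base is not tame
-/

namespace Pool.Agent.H24.GL

open Pool.Agent.H24.GC Pool.Agent.H24.GD Pool.Agent.H24.GE Pool.Agent.H24.GG Pool.Agent.H24.GH
  Pool.Agent.H24.GI Pool.Agent.H24.GK Pool.Agent.PPS Pool.Agent.H64.Cook Pool.Agent.H79.Thr

/-- the types which are not matched are not alone at their sources, have at most two links, the graphs of the types are
unions of complete bipartite graphs, and the swaps commute -/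
structure Tame {n : ℕ} (H : SimpleGraph (Fin n)) : Prop where
  mul : ∀ t : LT H, ¬ Mtd (lab H) t → ∃ t', (lab H).sc t' = (lab H).sc t ∧ t' ≠ t
  two : ∀ t : LT H, ¬ Mtd (lab H) t → (lab H).num t ≤ 2
  thick : ∀ (t : LT H) (x y y' z : LV H), Dt (lab H) t x y → Dt (lab H) t x y' →
    Dt (lab H) ((lab H).bar t) y z → Dt (lab H) ((lab H).bar t) y' z
  comm : ∀ (s r : LT H) (x x₁ x₂ : LV H), Swl H s x x₁ → Swl H r x₁ x₂ →
    ∃ x₃, Swl H r x x₃ ∧ Swl H s x₃ x₂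

theorem tame_hard {n m : ℕ} {H : SimpleGraph (Fin n)} {ι : Fin m → Fin n} (hι : Base H ι)
    (h : ¬ Tame (H.comap ι)) : LB H ∈ NP ∧ ∀ L ∈ NP, Red L (LB H) := by
  have hred : Redc (lab (H.comap ι)) := redc_lab (base_gd hι) fun F hF v => base_red hι hF v
  by_cases hm : ∀ t : LT (H.comap ι), ¬ Mtd (lab (H.comap ι)) t →
      ∃ t', (lab (H.comap ι)).sc t' = (lab (H.comap ι)).sc t ∧ t' ≠ t
  swap
  · push Not at hm
    obtain ⟨t, ht, hu⟩ := hm
    exact final_hard hι ⟨t, ht, Or.inr hu⟩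
  by_cases h2 : ∀ t : LT (H.comap ι), ¬ Mtd (lab (H.comap ι)) t → (lab (H.comap ι)).num t ≤ 2
  swap
  · push Not at h2
    obtain ⟨t, ht, hu⟩ := h2
    exact final_hard hι ⟨t, ht, Or.inl hu⟩
  refine ⟨mem_cover H, fun L hL => ?_⟩
  have key : ∀ hn : 0 < m, (∀ L ∈ NP, Red L (CSet (TR (H.comap ι)))) → Red L (LB H) :=
    fun hn h3 =>
      red_tr (red_tr (h3 L hL) (csp_red hn (base_gd hι) fun F hF v => base_red hι hF v).2)
        (red_dn hι)
  by_cases hb : ∀ (t : LT (H.comap ι)) (x y y' z : LV (H.comap ι)),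
      Dt (lab (H.comap ι)) t x y → Dt (lab (H.comap ι)) t x y' →
      Dt (lab (H.comap ι)) ((lab (H.comap ι)).bar t) y z →
      Dt (lab (H.comap ι)) ((lab (H.comap ι)).bar t) y' z
  swap
  · push Not at hb
    obtain ⟨t, x, y, y', z, h3, h4, h5, h6⟩ := hb
    exact key x.1.pos (case_b x.1.pos hm hred h2 h3 h4 h5 h6)
  by_cases hc : ∀ (s r : LT (H.comap ι)) (x x₁ x₂ : LV (H.comap ι)),
      Swl (H.comap ι) s x x₁ → Swl (H.comap ι) r x₁ x₂ →
      ∃ x₃, Swl (H.comap ι) r x x₃ ∧ Swl (H.comap ι) s x₃ x₂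
  · exact absurd ⟨hm, h2, hb, hc⟩ h
  · push Not at hc
    obtain ⟨s, r, x, x₁, x₂, h3, h4, h5⟩ := hc
    exact key x.1.pos (case_c x.1.pos hm hred h2 hb h3 h4 h5)

end Pool.Agent.H24.GL
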