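import Pool.Agent.H24.GE.Csp

/-!
# JOB GL-1: relations defined by instances

`Pd R ρ`: the relation `ρ` on the values of the variables `X` is defined by an instance of the template `R` with the variables
`X ⊕ W`, `W` finite.

`pd_basic`: `W = Empty`, one constraint. `pd_and`, `pd_all`: the disjoint unions of the `W`s (`W₁ ⊕ W₂`, `Σ i, W i`); a constraint of a
part is a pair `(s, u, v)` whose variables are images of variables of the part. `pd_comap`: `Sum.map φ id`. `pd_ex`: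
`W' = X₁ ⊕ W`. `pd_iff`: clear.
-/

namespace Pool.Agent.H24.GL

open Pool.Agent.H24.GE

variable {D : Type} {M : ℕ} {R : Fin M → D → D → Prop}

/-- `ρ` is defined by an instance of `R` -/
def Pd (R : Fin M → D → D → Prop) {X : Type} (ρ : (X → D) → Prop) : Prop :=
  ∃ (W : Type) (_ : Finite W) (c : Fin M → X ⊕ W → X ⊕ W → Prop),
    ∀ a : X → D, ρ a ↔ ∃ b : W → D, ∀ s u v, c s u v → R s (Sum.elim a b u) (Sum.elim a b v)

variable {X : Type}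

theorem pd_iff {ρ ρ' : (X → D) → Prop} (h : Pd R ρ) (h' : ∀ a, ρ' a ↔ ρ a) : Pd R ρ' := by
  obtain ⟨W, hW, c, hc⟩ := h
  exact ⟨W, hW, c, fun a => (h' a).trans (hc a)⟩

theorem pd_true : Pd R (fun _ : X → D => True) :=
  ⟨Empty, inferInstance, fun _ _ _ => False, fun _ =>
    ⟨fun _ => ⟨fun w => w.elim, fun _ _ _ h => h.elim⟩, fun _ => trivial⟩⟩

theorem pd_basic (s : Fin M) (u v : X) : Pd R (fun a : X → D => R s (a u) (a v)) := by
  refine ⟨Empty, inferInstance, fun s' u' v' => s' = s ∧ u' = Sum.inl u ∧ v' = Sum.inl v,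
    fun a => ⟨fun h => ⟨fun w => w.elim, ?_⟩, ?_⟩⟩
  · rintro s' u' v' ⟨rfl, rfl, rfl⟩
    exact h
  · rintro ⟨b, hb⟩
    exact hb s (Sum.inl u) (Sum.inl v) ⟨rfl, rfl, rfl⟩

private theorem pd_aux_map {W W' : Type} (a : X → D) (b : W' → D) (f : W → W') (u : X ⊕ W) :
    Sum.elim a b (Sum.map id f u) = Sum.elim a (fun w => b (f w)) u := by
  rcases u with u | u <;> rfl

theorem pd_and {ρ ρ' : (X → D) → Prop} (h : Pd R ρ) (h' : Pd R ρ') :
    Pd R (fun a => ρ a ∧ ρ' a) := by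
  obtain ⟨W, hW, c, hc⟩ := h
  obtain ⟨W', hW', c', hc'⟩ := h'
  refine ⟨W ⊕ W', inferInstance, fun s u v =>
    (∃ u' v', c s u' v' ∧ u = Sum.map id Sum.inl u' ∧ v = Sum.map id Sum.inl v') ∨
      ∃ u' v', c' s u' v' ∧ u = Sum.map id Sum.inr u' ∧ v = Sum.map id Sum.inr v',
    fun a => ⟨?_, ?_⟩⟩
  · rintro ⟨h1, h2⟩
    obtain ⟨b, hb⟩ := (hc a).1 h1
    obtain ⟨b', hb'⟩ := (hc' a).1 h2
    refine ⟨Sum.elim b b', ?_⟩
    rintro s u v (⟨u', v', h3, rfl, rfl⟩ | ⟨u', v', h3, rfl, rfl⟩)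
    · rw [pd_aux_map, pd_aux_map]
      exact hb s u' v' h3
    · rw [pd_aux_map, pd_aux_map]
      exact hb' s u' v' h3
  · rintro ⟨b, hb⟩
    refine ⟨(hc a).2 ⟨fun w => b (Sum.inl w), fun s u v h3 => ?_⟩,
      (hc' a).2 ⟨fun w => b (Sum.inr w), fun s u v h3 => ?_⟩⟩
    · have h4 := hb s _ _ (Or.inl ⟨u, v, h3, rfl, rfl⟩)
      rwa [pd_aux_map, pd_aux_map] at h4
    · have h4 := hb s _ _ (Or.inr ⟨u, v, h3, rfl, rfl⟩)
      rwa [pd_aux_map, pd_aux_map] at h4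

theorem pd_all {ι : Type} [Finite ι] {ρ : ι → (X → D) → Prop} (h : ∀ i, Pd R (ρ i)) :
    Pd R (fun a => ∀ i, ρ i a) := by
  choose W hW c hc using h
  refine ⟨Σ i, W i, inferInstance, fun s u v =>
    ∃ i u' v', c i s u' v' ∧ u = Sum.map id (fun w => (⟨i, w⟩ : Σ i, W i)) u' ∧
      v = Sum.map id (fun w => (⟨i, w⟩ : Σ i, W i)) v', fun a => ⟨?_, ?_⟩⟩
  · intro h1
    choose b hb using fun i => (hc i a).1 (h1 i)
    refine ⟨fun w => b w.1 w.2, ?_⟩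
    rintro s u v ⟨i, u', v', h3, rfl, rfl⟩
    rw [pd_aux_map, pd_aux_map]
    exact hb i s u' v' h3
  · rintro ⟨b, hb⟩ i
    refine (hc i a).2 ⟨fun w => b ⟨i, w⟩, fun s u v h3 => ?_⟩
    have h4 := hb s _ _ ⟨i, u, v, h3, rfl, rfl⟩
    rwa [pd_aux_map, pd_aux_map] at h4

theorem pd_comap {X' : Type} {ρ : (X → D) → Prop} (h : Pd R ρ) (φ : X → X') :
    Pd R (fun a : X' → D => ρ (fun x => a (φ x))) := by
  obtain ⟨W, hW, c, hc⟩ := h
  have key : ∀ (a : X' → D) (b : W → D) (u : X ⊕ W),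
      Sum.elim a b (Sum.map φ id u) = Sum.elim (fun x => a (φ x)) b u := by
    rintro a b (u | u) <;> rfl
  refine ⟨W, hW, fun s u v => ∃ u' v', c s u' v' ∧ u = Sum.map φ id u' ∧ v = Sum.map φ id v',
    fun a => (hc _).trans ⟨?_, ?_⟩⟩
  · rintro ⟨b, hb⟩
    refine ⟨b, ?_⟩
    rintro s u v ⟨u', v', h3, rfl, rfl⟩
    rw [key, key]
    exact hb s u' v' h3
  · rintro ⟨b, hb⟩
    refine ⟨b, fun s u v h3 => ?_⟩
    have h4 := hb s _ _ ⟨u, v, h3, rfl, rfl⟩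
    rwa [key, key] at h4

theorem pd_ex {X₁ : Type} [Finite X₁] {ρ : (X ⊕ X₁ → D) → Prop} (h : Pd R ρ) :
    Pd R (fun a : X → D => ∃ b : X₁ → D, ρ (Sum.elim a b)) := by
  obtain ⟨W, hW, c, hc⟩ := h
  have key : ∀ (a : X → D) (b : X₁ ⊕ W → D) (u : (X ⊕ X₁) ⊕ W),
      Sum.elim a b (Equiv.sumAssoc X X₁ W u) =
        Sum.elim (Sum.elim a (fun x => b (Sum.inl x))) (fun w => b (Sum.inr w)) u := by
    rintro a b ((u | u) | u) <;> rfl
  refine ⟨X₁ ⊕ W, inferInstance, fun s u v => ∃ u' v', c s u' v' ∧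
    u = Equiv.sumAssoc X X₁ W u' ∧ v = Equiv.sumAssoc X X₁ W v', fun a => ⟨?_, ?_⟩⟩
  · rintro ⟨b₁, h1⟩
    obtain ⟨b, hb⟩ := (hc _).1 h1
    refine ⟨Sum.elim b₁ b, ?_⟩
    rintro s u v ⟨u', v', h3, rfl, rfl⟩
    rw [key, key]
    exact hb s u' v' h3
  · rintro ⟨b, hb⟩
    refine ⟨fun x => b (Sum.inl x), (hc _).2 ⟨fun w => b (Sum.inr w), fun s u v h3 => ?_⟩⟩
    have h4 := hb s _ _ ⟨u, v, h3, rfl, rfl⟩
    rwa [key, key] at h4

end Pool.Agent.H24.GL
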