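import Pool.Agent.H24.GL.Pd
import Pool.Agent.H24.GG.Up3
import Pool.Agent.H24.GG.MFin
import Pool.Agent.H24.GH.NTie
import Pool.Agent.H24.GK.RNet

/-!
# JOB GL-3: relations of stars

The template is `TR H` (file `Pool.Agent.H24.GG.Tmpl`), its relations are the `TJ H u v i j` (`up3_sym`). For an arc `d : LD H`, of the
type `t`, and `i < num t`, `j < num (bar t)`, the relation `TJ` for `d.1, i, j` is `Lk t i j a b`: `a, b` are stars of the classes
`sc t`, `sc (bar t)`, `a.2 t i = b.1`, `b.2 (bar t) j = a.1`.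

`st_ex`: number the darts of type `t` at `v`, `y t i = hd` of the dart number `i` (arbitrary for the other `t, i`). `st_fix`: permute
(a value `z` with `Dt t v z` can be put in the place `i`, for several types independently).
`pd_lk`: `pd_basic`, `up3_sym`. 
`pd_eqf`. Let `k` be the class of `v`, `t` the type of a dart at `v` (`lab_deg`, file `Pool.Agent.H24.GG.MFin`). (1) If some type `t` with
`sc t = k` is matched: `∃ q, Lk t 0 0 a q ∧ Lk t 0 0 b q`. (⇐) if `a.1 = b.1 = x` let `z` be the only vertex with `Dt t x z`; all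
`a.2 t i`, `b.2 t i` (`i < num t`) are `z`; take for `q` a star of `z` (`st_ex`); all `q.2 (bar t) j` are `x` (`Mtd`). (2) Otherwise let `t' ≠ t`,
`sc t' = sc t` (`hm`): `∃ q s q', Lk t' 0 0 a q ∧ Lk t' 0 0 s q ∧ Lk t 0 0 s q' ∧ Lk t 0 0 b q'`. (⇐) `q` a star of `a.2 t' 0` with
`q.2 (bar t') 0 = a.1` (`st_fix`), `q'` a star of `b.2 t 0` with `q'.2 (bar t) 0 = b.1`, `s` a star of `a.1` with `s.2 t' 0 = a.2 t' 0`,
`s.2 t 0 = b.2 t 0`.
`pd_star`: `∃ b`, `pd_eqf` for `a, b`. `pd_dt`: `∃ a' b'`, `pd_eqf`, `pd_eqf`, `Lk t 0 0 a' b'`. `pd_st2`: `∃ a' b' c'`, `pd_eqf` three times,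
`Lk t 0 0 a' b'`, `Lk t 1 0 a' c'`; the numbers `i < 2` with `a'.2 t i = z` (`TV`); conversely `a'` is a star of `a 0` with
`a'.2 t 0 = (a 1).1`, `a'.2 t 1 = (a 2).1` (the other types arbitrary, `st_ex`), `b'` a star of `(a 1).1` with `b'.2 (bar t) 0 = (a 0).1`.
`pd_diag`: number the darts: `i d < num (ty d)`, injective on the darts of a type at a vertex (`rkG`-like, or by `st_ex`). The relation
is: there are stars `s v` with `pd_eqf` for `a v, s v` (class of `v`) and `Lk (ty d) (i d) (i (rv d)) (s (tl d)) (s (hd d))` for all `d`.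
(⇒) `f v = (s v).1`, `e d = f (hd d)` is a labelling of the unit kit (`Lk` gives `(s (tl d)).2 (ty d) (i d) = f (hd d)`, `TV`); so `f` is an
automorphism: for every component `A` (`comp_of`) `pl_redc`, `pl_aut` (file `Pool.Agent.H24.GK.RNet`). (⇐) `s v = (g v, y)`,
`y t (i d) = g (hd d)` for the darts `d` at `v` of the type `t`.
-/

namespace Pool.Agent.H24.GL

open Pool.Agent.H24.GC Pool.Agent.H24.GE Pool.Agent.H24.GG Pool.Agent.H24.GH Pool.Agent.H24.GI
  Pool.Agent.H24.GK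

variable {n : ℕ} {H : SimpleGraph (Fin n)}

/-- `a` is a star of the class `k` -/
def StK (H : SimpleGraph (Fin n)) (k : LK H) (a : TD H) : Prop := TV H a ∧ (lab H).cl a.1 = k

/-- every type which is not matched has another type at its source -/
def Mul (H : SimpleGraph (Fin n)) : Prop :=
  ∀ t : LT H, ¬ Mtd (lab H) t → ∃ t', (lab H).sc t' = (lab H).sc t ∧ t' ≠ t

/-! ### numberings of the darts -/

/-- a numbering of the darts: the darts of a type at a vertex have different numbers -/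
private structure PdsN (H : SimpleGraph (Fin n)) (ν : LD H → Fin n) : Prop where
  lt : ∀ d, (ν d : ℕ) < (lab H).num ((lab H).ty d)
  inj : ∀ d d', (lab H).tl d = (lab H).tl d' → (lab H).ty d = (lab H).ty d' → ν d = ν d' → d = d'
  sur : ∀ v t, (lab H).cl v = (lab H).sc t → ∀ i : Fin n, (i : ℕ) < (lab H).num t →
    ∃ d, (lab H).tl d = v ∧ (lab H).ty d = t ∧ ν d = i

private theorem pds_lt {m : ℕ} (h : m ≤ n) : {i : Fin n | (i : ℕ) < m}.ncard = m := by
  have e : {i : Fin n | (i : ℕ) < m} = Fin.castLE h '' Set.univ := by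
    ext i
    constructor
    · intro hi
      exact ⟨⟨i, hi⟩, trivial, rfl⟩
    · rintro ⟨j, -, rfl⟩
      exact j.2
  rw [e, Set.ncard_image_of_injective _ (Fin.castLE_injective h), Set.ncard_univ, Nat.card_fin]

/-- a bijection of the darts of a type at a vertex to the numbers -/
private theorem pds_bij (H : SimpleGraph (Fin n)) (v : LV H) (t : LT H) :
    ∃ g : LD H → Fin n, (lab H).cl v = (lab H).sc t →
      Set.BijOn g {d | (lab H).tl d = v ∧ (lab H).ty d = t} {i : Fin n | (i : ℕ) < (lab H).num t} := by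
  classical
  by_cases h : (lab H).cl v = (lab H).sc t
  · have h1 : {d | (lab H).tl d = v ∧ (lab H).ty d = t}.ncard =
        {i : Fin n | (i : ℕ) < (lab H).num t}.ncard := by
      rw [(lab H).num_eq v t h, pds_lt (num_le H t)]
    have hpos := (lab H).num_pos t
    have hn : 0 < n := lt_of_lt_of_le hpos (num_le H _)
    obtain ⟨e⟩ : Nonempty ({d | (lab H).tl d = v ∧ (lab H).ty d = t} ≃
        {i : Fin n | (i : ℕ) < (lab H).num t}) := by
      have := Fintype.ofFinite {d | (lab H).tl d = v ∧ (lab H).ty d = t}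
      have := Fintype.ofFinite {i : Fin n | (i : ℕ) < (lab H).num t}
      exact ⟨Fintype.equivOfCardEq (by
        rw [← Nat.card_eq_fintype_card, ← Nat.card_eq_fintype_card, Nat.card_coe_set_eq,
          Nat.card_coe_set_eq, h1])⟩
    refine ⟨fun d => if hd : d ∈ {d | (lab H).tl d = v ∧ (lab H).ty d = t} then (e ⟨d, hd⟩).1
      else ⟨0, hn⟩, fun _ => ⟨?_, ?_, ?_⟩⟩
    · intro x hx
      simp only [hx, dite_true]
      exact (e ⟨x, hx⟩).2
    · intro x hx y hy hxy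
      simp only [hx, hy, dite_true] at hxy
      have h1 := e.injective (Subtype.ext hxy)
      exact congrArg Subtype.val h1
    · intro y hy
      refine ⟨(e.symm ⟨y, hy⟩).1, (e.symm ⟨y, hy⟩).2, ?_⟩
      simp only [Subtype.coe_prop, dite_true, Subtype.coe_eta, Equiv.apply_symm_apply]
  · by_cases hn : 0 < n
    · exact ⟨fun _ => ⟨0, hn⟩, fun h' => absurd h' h⟩
    · exact ⟨fun _ => absurd v.1.pos hn, fun h' => absurd h' h⟩

private theorem pds_num (H : SimpleGraph (Fin n)) : ∃ ν : LD H → Fin n, PdsN H ν := by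
  choose g hg using pds_bij H
  refine ⟨fun d => g ((lab H).tl d) ((lab H).ty d) d, ?_, ?_, ?_⟩
  · intro d
    exact (hg _ _ ((lab H).cl_tl d)).mapsTo ⟨rfl, rfl⟩
  · intro d d' h1 h2 h3
    have h4 : g ((lab H).tl d) ((lab H).ty d) d = g ((lab H).tl d') ((lab H).ty d') d' := h3
    rw [← h1, ← h2] at h4
    exact (hg _ _ ((lab H).cl_tl d)).injOn ⟨rfl, rfl⟩ ⟨h1.symm, h2.symm⟩ h4
  · intro v t h i hi
    obtain ⟨d, ⟨rfl, rfl⟩, h1⟩ := (hg v t h).surjOn hi
    exact ⟨d, rfl, rfl, h1⟩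

/-- the star of `x` with the values `F d` for the darts `d` at `v` -/
private theorem pds_mk {ν : LD H → Fin n} (hν : PdsN H ν) {x v : LV H}
    (hx : (lab H).cl x = (lab H).cl v) (F : LD H → LV H)
    (hF : ∀ t z, (lab H).sc t = (lab H).cl v →
      {d | (lab H).tl d = v ∧ (lab H).ty d = t ∧ F d = z}.ncard = (lab H).M t x z) :
    ∃ y : LT H → Fin n → LV H, TV H (x, y) ∧ ∀ d, (lab H).tl d = v → y ((lab H).ty d) (ν d) = F d := by
  classical
  have key : ∀ (t : LT H) (i : Fin n), ∃ z, ∀ d, (lab H).tl d = v → (lab H).ty d = t → ν d = i →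
      z = F d := by
    intro t i
    by_cases h : ∃ d, (lab H).tl d = v ∧ (lab H).ty d = t ∧ ν d = i
    · obtain ⟨d, h1, h2, h3⟩ := h
      refine ⟨F d, fun d' h1' h2' h3' => ?_⟩
      rw [hν.inj d d' (h1.trans h1'.symm) (h2.trans h2'.symm) (h3.trans h3'.symm)]
    · exact ⟨x, fun d h1 h2 h3 => absurd ⟨d, h1, h2, h3⟩ h⟩
  choose y hy using key
  refine ⟨y, ?_, fun d hd => hy _ _ d hd rfl rfl⟩
  intro t ht z
  have ht' : (lab H).sc t = (lab H).cl v := ht.trans hx
  show {i : Fin n | (i : ℕ) < (lab H).num t ∧ y t i = z}.ncard = (lab H).M t x z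
  rw [← hF t z ht']
  have e : {i : Fin n | (i : ℕ) < (lab H).num t ∧ y t i = z} =
      ν '' {d | (lab H).tl d = v ∧ (lab H).ty d = t ∧ F d = z} := by
    ext i
    constructor
    · rintro ⟨h1, h2⟩
      obtain ⟨d, h3, h4, h5⟩ := hν.sur v t ht'.symm i h1
      exact ⟨d, ⟨h3, h4, by rw [← hy t i d h3 h4 h5]; exact h2⟩, h5⟩
    · rintro ⟨d, ⟨h3, h4, h5⟩, rfl⟩
      refine ⟨?_, ?_⟩
      · have h6 := hν.lt d
        rw [h4] at h6
        exact h6
      · rw [hy t (ν d) d h3 h4 rfl]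
        exact h5
  rw [e, Set.InjOn.ncard_image]
  rintro d ⟨h1, h2, -⟩ d' ⟨h1', h2', -⟩ h3
  exact hν.inj d d' (h1.trans h1'.symm) (h2.trans h2'.symm) h3

/-- a value of a star -/
private theorem pds_dt {a : TD H} (ha : TV H a) {t : LT H} (ht : (lab H).cl a.1 = (lab H).sc t)
    {i : Fin n} (hi : (i : ℕ) < (lab H).num t) : Dt (lab H) t a.1 (a.2 t i) := by
  rw [dt_iff, ← ha t ht.symm (a.2 t i)]
  refine ((Set.ncard_pos (Set.toFinite _)).2 ?_).ne'
  exact ⟨i, hi, rfl⟩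

/-- one value of a star is given -/
private theorem pds_fix1 {v : LV H} {t : LT H} {z : LV H} (h : Dt (lab H) t v z) {i : Fin n}
    (hi : (i : ℕ) < (lab H).num t) : ∃ y, TV H (v, y) ∧ y t i = z := by
  classical
  obtain ⟨ν, hν⟩ := pds_num H
  obtain ⟨d, h1, h2, h3⟩ := hν.sur v t (dt_cl h).1 i hi
  obtain ⟨e, g1, g2, g3⟩ := h
  have hsw : DP (lab H) v v (Equiv.swap d e) :=
    nTie_swap (h2.trans g3.symm) (iff_of_true h1 g1)
  obtain ⟨y, hy, hy'⟩ := pds_mk hν (x := v) (v := v) rfl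
    (fun d' => (lab H).hd (Equiv.swap d e d')) (fun s z' _ => nTie_cnt hsw s z')
  refine ⟨y, hy, ?_⟩
  have h4 := hy' d h1
  rw [h2, h3, Equiv.swap_apply_left, g2] at h4
  exact h4

theorem st_ex (v : LV H) : ∃ y, TV H (v, y) := by
  obtain ⟨ν, hν⟩ := pds_num H
  obtain ⟨y, hy, -⟩ := pds_mk hν (x := v) (v := v) rfl (fun d => (lab H).hd d)
    (fun t z _ => rfl)
  exact ⟨y, hy⟩

theorem st_fix {v : LV H} {t t' : LT H} {z z' : LV H} (h : Dt (lab H) t v z)
    (h' : Dt (lab H) t' v z') (hne : t' = t → z' = z) {i i' : Fin n}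
    (hi : (i : ℕ) < (lab H).num t) (hi' : (i' : ℕ) < (lab H).num t') (hii : t' = t → i' = i) :
    ∃ y, TV H (v, y) ∧ y t i = z ∧ y t' i' = z' := by
  classical
  obtain ⟨y, hy, hy'⟩ := pds_fix1 h hi
  by_cases htt : t' = t
  · refine ⟨y, hy, hy', ?_⟩
    rw [htt, hii htt, hne htt]
    exact hy'
  · obtain ⟨x, hx, hx'⟩ := pds_fix1 h' hi'
    refine ⟨fun s => if s = t' then x s else y s, ?_, ?_, ?_⟩
    · intro s hs w
      by_cases hst : s = t'
      · have h1 := hx s hs w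
        show {j : Fin n | (j : ℕ) < (lab H).num s ∧ (if s = t' then x s else y s) j = w}.ncard = _
        rw [if_pos hst]
        exact h1
      · have h1 := hy s hs w
        show {j : Fin n | (j : ℕ) < (lab H).num s ∧ (if s = t' then x s else y s) j = w}.ncard = _
        rw [if_neg hst]
        exact h1
    · show (if t = t' then x t else y t) i = z
      rw [if_neg (fun h1 => htt h1.symm)]
      exact hy'
    · show (if t' = t' then x t' else y t') i' = z'
      rw [if_pos rfl]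
      exact hx'

/-- the link number `i` of `a` of the type `t` leads to `b`, where it has the number `j` -/
private def PdsLk (H : SimpleGraph (Fin n)) (t : LT H) (i j : Fin n) (a b : TD H) : Prop :=
  StK H ((lab H).sc t) a ∧ StK H ((lab H).sc ((lab H).bar t)) b ∧ a.2 t i = b.1 ∧
    b.2 ((lab H).bar t) j = a.1

theorem pd_lk (t : LT H) (i j : Fin n) (hi : (i : ℕ) < (lab H).num t)
    (hj : (j : ℕ) < (lab H).num ((lab H).bar t)) :
    Pd (TR H) (fun a : Bool → TD H => StK H ((lab H).sc t) (a false) ∧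
      StK H ((lab H).sc ((lab H).bar t)) (a true) ∧ (a false).2 t i = (a true).1 ∧
      (a true).2 ((lab H).bar t) j = (a false).1) := by
  obtain ⟨d, rfl⟩ := refi_surj (lab H) t
  obtain ⟨s, h1, h2, h3, h4⟩ := up3_sym d.1.1 d.1.2 i j
  refine pd_iff (pd_basic s false true) fun a => ?_
  unfold TR TJ
  rw [h1, h2, h3, h4]
  constructor
  · rintro ⟨⟨g1, g2⟩, ⟨g3, g4⟩, g5, g6⟩
    exact ⟨g1, g3, d, rfl, g2, g4, hi, hj, g5, g6⟩
  · rintro ⟨g1, g3, d', e, g2, g4, -, -, g5, g6⟩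
    have hd : d' = d := Subtype.ext e
    subst hd
    exact ⟨⟨g1, g2⟩, ⟨g3, g4⟩, g5, g6⟩

private theorem pds_lk {X : Type} (t : LT H) (i j : Fin n) (hi : (i : ℕ) < (lab H).num t)
    (hj : (j : ℕ) < (lab H).num ((lab H).bar t)) (u v : X) :
    Pd (TR H) (fun a : X → TD H => PdsLk H t i j (a u) (a v)) :=
  pd_iff (pd_comap (pd_lk t i j hi hj) (fun b => bif b then v else u)) fun _ => Iff.rfl

private theorem pds_pos (H : SimpleGraph (Fin n)) (t : LT H) :
    ∃ i : Fin n, (i : ℕ) = 0 ∧ ∀ s, (i : ℕ) < (lab H).num s := by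
  have hn : 0 < n := lt_of_lt_of_le ((lab H).num_pos t) (num_le H _)
  exact ⟨⟨0, hn⟩, rfl, fun s => (lab H).num_pos s⟩

private theorem pds_type (v : LV H) : ∃ t, (lab H).sc t = (lab H).cl v := by
  have h1 := lab_deg H v
  obtain ⟨d, hd⟩ := Set.nonempty_of_ncard_ne_zero (show {d | (lab H).tl d = v}.ncard ≠ 0 by omega)
  have hd' : (lab H).tl d = v := hd
  exact ⟨(lab H).ty d, by rw [← hd', (lab H).cl_tl]⟩

/-- a star `q` of `z` with a given link -/
private theorem pds_q {x z : LV H} {t : LT H} (h : Dt (lab H) t x z) {i : Fin n}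
    (hi : ∀ s, (i : ℕ) < (lab H).num s) : ∃ q : TD H,
      StK H ((lab H).sc ((lab H).bar t)) q ∧ q.1 = z ∧ q.2 ((lab H).bar t) i = x := by
  obtain ⟨y, hy, hy'⟩ := pds_fix1 (dt_symm h) (hi _)
  exact ⟨(z, y), ⟨hy, (dt_cl h).2⟩, rfl, hy'⟩

theorem pd_eqf (hm : Mul H) (v : LV H) :
    Pd (TR H) (fun a : Bool → TD H => StK H ((lab H).cl v) (a false) ∧
      StK H ((lab H).cl v) (a true) ∧ (a false).1 = (a true).1) := by
  obtain ⟨t₀, ht₀⟩ := pds_type v
  obtain ⟨o, ho, hlt⟩ := pds_pos H t₀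
  by_cases hM : ∃ t, (lab H).sc t = (lab H).cl v ∧ Mtd (lab H) t
  · obtain ⟨t, ht, hmt⟩ := hM
    refine pd_iff (pd_ex (X₁ := Unit) (ρ := fun c : Bool ⊕ Unit → TD H =>
      PdsLk H t o o (c (Sum.inl false)) (c (Sum.inr ())) ∧
      PdsLk H t o o (c (Sum.inl true)) (c (Sum.inr ())))
      (pd_and (pds_lk t o o (hlt _) (hlt _) _ _) (pds_lk t o o (hlt _) (hlt _) _ _))) fun a => ?_
    constructor
    · rintro ⟨h1, h2, h3⟩
      have e1 := pds_dt h1.1 (h1.2.trans ht.symm) (hlt t)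
      have e2 := pds_dt h2.1 (h2.2.trans ht.symm) (hlt t)
      have e3 : (a true).2 t o = (a false).2 t o := by
        rw [← h3] at e2
        obtain ⟨d, g1, g2, g3⟩ := e1
        obtain ⟨d', g1', g2', g3'⟩ := e2
        rw [← g2, ← g2']
        exact hmt.1 d' d g3' g3 (g1'.trans g1.symm)
      obtain ⟨q, hq1, hq2, hq3⟩ := pds_q e1 hlt
      refine ⟨fun _ => q, ⟨⟨h1.1, h1.2.trans ht.symm⟩, hq1, hq2.symm, hq3⟩,
        ⟨h2.1, h2.2.trans ht.symm⟩, hq1, ?_, ?_⟩
      · show (a true).2 t o = q.1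
        rw [e3, hq2]
      · show q.2 ((lab H).bar t) o = (a true).1
        rw [hq3, h3]
    · rintro ⟨b, ⟨h1, h2, h3, h4⟩, h5, h6, h7, h8⟩
      have h1' : StK H ((lab H).sc t) (a false) := h1
      have h5' : StK H ((lab H).sc t) (a true) := h5
      have h4' : (b ()).2 ((lab H).bar t) o = (a false).1 := h4
      have h8' : (b ()).2 ((lab H).bar t) o = (a true).1 := h8
      rw [ht] at h1' h5'
      exact ⟨h1', h5', h4'.symm.trans h8'⟩
  · obtain ⟨t', ht', hne⟩ := hm t₀ (fun h => hM ⟨t₀, ht₀, h⟩)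
    have ht'' : (lab H).sc t' = (lab H).cl v := ht'.trans ht₀
    refine pd_iff (pd_ex (X₁ := Fin 3) (ρ := fun c : Bool ⊕ Fin 3 → TD H =>
      PdsLk H t' o o (c (Sum.inl false)) (c (Sum.inr 0)) ∧
      PdsLk H t' o o (c (Sum.inr 1)) (c (Sum.inr 0)) ∧
      PdsLk H t₀ o o (c (Sum.inr 1)) (c (Sum.inr 2)) ∧
      PdsLk H t₀ o o (c (Sum.inl true)) (c (Sum.inr 2)))
      (pd_and (pds_lk t' o o (hlt _) (hlt _) _ _) (pd_and (pds_lk t' o o (hlt _) (hlt _) _ _)
        (pd_and (pds_lk t₀ o o (hlt _) (hlt _) _ _) (pds_lk t₀ o o (hlt _) (hlt _) _ _)))))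
      fun a => ?_
    constructor
    · rintro ⟨h1, h2, h3⟩
      have e1 := pds_dt h1.1 (h1.2.trans ht''.symm) (hlt t')
      have e2 := pds_dt h2.1 (h2.2.trans ht₀.symm) (hlt t₀)
      obtain ⟨q, hq1, hq2, hq3⟩ := pds_q e1 hlt
      obtain ⟨q', hq1', hq2', hq3'⟩ := pds_q e2 hlt
      rw [← h3] at e2 hq3'
      obtain ⟨y, hy1, hy2, hy3⟩ := st_fix e1 e2 (fun h => absurd h.symm hne) (hlt t') (hlt t₀)
        (fun _ => rfl)
      refine ⟨![q, ((a false).1, y), q'], ⟨⟨h1.1, h1.2.trans ht''.symm⟩, hq1, hq2.symm, hq3⟩,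
        ⟨⟨hy1, h1.2.trans ht''.symm⟩, hq1, ?_, hq3⟩, ⟨⟨hy1, h1.2.trans ht₀.symm⟩, hq1', ?_, hq3'⟩,
        ⟨h2.1, h2.2.trans ht₀.symm⟩, hq1', hq2'.symm, ?_⟩
      · show y t' o = q.1
        rw [hy2, hq2]
      · show y t₀ o = q'.1
        rw [hy3, hq2']
      · show q'.2 ((lab H).bar t₀) o = (a true).1
        rw [hq3', h3]
    · rintro ⟨b, ⟨h1, -, -, h4⟩, ⟨-, -, -, h8⟩, ⟨-, -, -, g4⟩, k1, -, -, k4⟩
      have h1' : StK H ((lab H).sc t') (a false) := h1
      have k1' : StK H ((lab H).sc t₀) (a true) := k1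
      have h4' : (b 0).2 ((lab H).bar t') o = (a false).1 := h4
      have h8' : (b 0).2 ((lab H).bar t') o = (b 1).1 := h8
      have g4' : (b 2).2 ((lab H).bar t₀) o = (b 1).1 := g4
      have k4' : (b 2).2 ((lab H).bar t₀) o = (a true).1 := k4
      rw [ht''] at h1'
      rw [ht₀] at k1'
      exact ⟨h1', k1', h4'.symm.trans (h8'.trans (g4'.symm.trans k4'))⟩

/-- the same for two variables -/
private theorem pds_eqf {X : Type} (hm : Mul H) (v : LV H) {k : LK H} (hk : (lab H).cl v = k)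
    (u w : X) : Pd (TR H) (fun a : X → TD H => StK H k (a u) ∧ StK H k (a w) ∧
      (a u).1 = (a w).1) := by
  subst hk
  exact pd_iff (pd_comap (pd_eqf hm v) (fun b => bif b then w else u)) fun _ => Iff.rfl

theorem pd_star (hm : Mul H) (v : LV H) :
    Pd (TR H) (fun a : Unit → TD H => StK H ((lab H).cl v) (a ())) := by
  refine pd_iff (pd_ex (X₁ := Unit) (ρ := fun c : Unit ⊕ Unit → TD H =>
    StK H ((lab H).cl v) (c (Sum.inl ())) ∧ StK H ((lab H).cl v) (c (Sum.inr ())) ∧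
      (c (Sum.inl ())).1 = (c (Sum.inr ())).1) (pds_eqf hm v rfl _ _)) fun a => ?_
  constructor
  · intro h
    exact ⟨fun _ => a (), h, h, rfl⟩
  · rintro ⟨b, h, -, -⟩
    exact h

theorem pd_dt (hm : Mul H) (t : LT H) :
    Pd (TR H) (fun a : Bool → TD H => StK H ((lab H).sc t) (a false) ∧
      StK H ((lab H).sc ((lab H).bar t)) (a true) ∧ Dt (lab H) t (a false).1 (a true).1) := by
  obtain ⟨o, ho, hlt⟩ := pds_pos H t
  obtain ⟨v, hv⟩ := (lab H).cls t
  obtain ⟨w, hw⟩ := (lab H).cls ((lab H).bar t)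
  refine pd_iff (pd_ex (X₁ := Bool) (ρ := fun c : Bool ⊕ Bool → TD H =>
    (StK H ((lab H).sc t) (c (Sum.inl false)) ∧ StK H ((lab H).sc t) (c (Sum.inr false)) ∧
      (c (Sum.inl false)).1 = (c (Sum.inr false)).1) ∧
    (StK H ((lab H).sc ((lab H).bar t)) (c (Sum.inl true)) ∧
      StK H ((lab H).sc ((lab H).bar t)) (c (Sum.inr true)) ∧
      (c (Sum.inl true)).1 = (c (Sum.inr true)).1) ∧
    PdsLk H t o o (c (Sum.inr false)) (c (Sum.inr true)))
    (pd_and (pds_eqf hm v hv _ _) (pd_and (pds_eqf hm w hw _ _)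
      (pds_lk t o o (hlt _) (hlt _) _ _)))) fun a => ?_
  constructor
  · rintro ⟨h1, h2, h3⟩
    obtain ⟨y, hy, hy'⟩ := pds_fix1 h3 (hlt t)
    obtain ⟨q, hq1, hq2, hq3⟩ := pds_q h3 hlt
    refine ⟨fun b => bif b then q else ((a false).1, y), ⟨h1, ⟨hy, h1.2⟩, rfl⟩,
      ⟨h2, hq1, hq2.symm⟩, ⟨hy, h1.2⟩, hq1, ?_, hq3⟩
    show y t o = q.1
    rw [hy', hq2]
  · rintro ⟨b, ⟨h1, h1', h1''⟩, ⟨h2, h2', h2''⟩, h3, -, h5, -⟩
    refine ⟨h1, h2, ?_⟩
    have e1 := pds_dt h1'.1 h1'.2 (hlt t)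
    have e2 : (b false).2 t o = (b true).1 := h5
    have e3 : (a false).1 = (b false).1 := h1''
    have e4 : (a true).1 = (b true).1 := h2''
    rw [e3, e4, ← e2]
    exact e1

/-- the two values of a star of a type with two darts -/
private theorem pds_two {t : LT H} (ht : (lab H).num t = 2) {i j : Fin n} (hi : (i : ℕ) = 0)
    (hj : (j : ℕ) = 1) (y : Fin n → LV H) {a : Fin 3 → TD H} (h1 : y i = (a 1).1)
    (h2 : y j = (a 2).1) (z : LV H) :
    {b : Fin 3 | b ≠ 0 ∧ (a b).1 = z}.ncard =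
      {k : Fin n | (k : ℕ) < (lab H).num t ∧ y k = z}.ncard := by
  have h12 : ∀ b : Fin 3, b ≠ 0 → b = 1 ∨ b = 2 := by decide
  have hij : i ≠ j := by
    intro h
    rw [h] at hi
    omega
  refine Set.ncard_congr (fun b _ => if b = 1 then i else j) ?_ ?_ ?_
  · rintro b ⟨g1, g2⟩
    rcases h12 b g1 with rfl | rfl
    · rw [if_pos rfl]
      exact ⟨by omega, h1.trans g2⟩
    · rw [if_neg (by decide)]
      exact ⟨by omega, h2.trans g2⟩
  · rintro b b' ⟨g1, -⟩ ⟨g1', -⟩ h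
    rcases h12 b g1 with rfl | rfl <;> rcases h12 b' g1' with rfl | rfl
    · rfl
    · rw [if_pos rfl, if_neg (by decide)] at h
      exact absurd h hij
    · rw [if_pos rfl, if_neg (by decide)] at h
      exact absurd h.symm hij
    · rfl
  · rintro k ⟨g1, g2⟩
    have g3 : (k : ℕ) = 0 ∨ (k : ℕ) = 1 := by omega
    rcases g3 with g3 | g3
    · have g4 : k = i := Fin.ext (g3.trans hi.symm)
      refine ⟨1, ⟨by decide, ?_⟩, ?_⟩
      · rw [← h1, ← g4]
        exact g2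
      · rw [if_pos rfl, g4]
    · have g4 : k = j := Fin.ext (g3.trans hj.symm)
      refine ⟨2, ⟨by decide, ?_⟩, ?_⟩
      · rw [← h2, ← g4]
        exact g2
      · rw [if_neg (by decide), g4]

theorem pd_st2 (hm : Mul H) {t : LT H} (ht : (lab H).num t = 2) :
    Pd (TR H) (fun a : Fin 3 → TD H => StK H ((lab H).sc t) (a 0) ∧
      StK H ((lab H).sc ((lab H).bar t)) (a 1) ∧ StK H ((lab H).sc ((lab H).bar t)) (a 2) ∧
      ∀ z, {b : Fin 3 | b ≠ 0 ∧ (a b).1 = z}.ncard = (lab H).M t (a 0).1 z) := by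
  classical
  obtain ⟨o, ho, hlt⟩ := pds_pos H t
  have hn2 : 2 ≤ n := by
    rw [← ht]
    exact num_le H t
  obtain ⟨p, hp⟩ : ∃ p : Fin n, (p : ℕ) = 1 := ⟨⟨1, by omega⟩, rfl⟩
  have hp' : (p : ℕ) < (lab H).num t := by omega
  obtain ⟨v, hv⟩ := (lab H).cls t
  obtain ⟨w, hw⟩ := (lab H).cls ((lab H).bar t)
  refine pd_iff (pd_ex (X₁ := Fin 3) (ρ := fun c : Fin 3 ⊕ Fin 3 → TD H =>
    (StK H ((lab H).sc t) (c (Sum.inl 0)) ∧ StK H ((lab H).sc t) (c (Sum.inr 0)) ∧
      (c (Sum.inl 0)).1 = (c (Sum.inr 0)).1) ∧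
    (StK H ((lab H).sc ((lab H).bar t)) (c (Sum.inl 1)) ∧
      StK H ((lab H).sc ((lab H).bar t)) (c (Sum.inr 1)) ∧
      (c (Sum.inl 1)).1 = (c (Sum.inr 1)).1) ∧
    (StK H ((lab H).sc ((lab H).bar t)) (c (Sum.inl 2)) ∧
      StK H ((lab H).sc ((lab H).bar t)) (c (Sum.inr 2)) ∧
      (c (Sum.inl 2)).1 = (c (Sum.inr 2)).1) ∧
    PdsLk H t o o (c (Sum.inr 0)) (c (Sum.inr 1)) ∧
    PdsLk H t p o (c (Sum.inr 0)) (c (Sum.inr 2)))
    (pd_and (pds_eqf hm v hv _ _) (pd_and (pds_eqf hm w hw _ _) (pd_and (pds_eqf hm w hw _ _)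
      (pd_and (pds_lk t o o (hlt _) (hlt _) _ _) (pds_lk t p o hp' (hlt _) _ _))))))
    fun a => ?_
  constructor
  · rintro ⟨h0, h1, h2, h3⟩
    obtain ⟨y, hy⟩ := st_ex (a 0).1
    obtain ⟨x, hx⟩ : ∃ x : Fin n → LV H, x = fun i => if i = o then (a 1).1 else (a 2).1 :=
      ⟨_, rfl⟩
    have hpo : p ≠ o := by
      intro h
      rw [h] at hp
      omega
    have hxo : x o = (a 1).1 := by rw [hx]; exact if_pos rfl
    have hxp : x p = (a 2).1 := by rw [hx]; exact if_neg hpo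
    have hTV : TV H ((a 0).1, fun s => if s = t then x else y s) := by
      intro s hs z
      by_cases hst : s = t
      · show {j : Fin n | (j : ℕ) < (lab H).num s ∧ (if s = t then x else y s) j = z}.ncard = _
        rw [if_pos hst, hst]
        show _ = (lab H).M t (a 0).1 z
        rw [← h3 z]
        exact (pds_two ht ho hp x hxo hxp z).symm
      · have g1 := hy s hs z
        show {j : Fin n | (j : ℕ) < (lab H).num s ∧ (if s = t then x else y s) j = z}.ncard = _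
        rw [if_neg hst]
        exact g1
    have hyt : (fun s => if s = t then x else y s) t = x := if_pos rfl
    have e1 : Dt (lab H) t (a 0).1 (a 1).1 := by
      have g1 := pds_dt hTV h0.2 (hlt t)
      have g2 : (fun s => if s = t then x else y s) t o = (a 1).1 := by rw [hyt, hxo]
      rw [← g2]
      exact g1
    have e2 : Dt (lab H) t (a 0).1 (a 2).1 := by
      have g1 := pds_dt hTV h0.2 hp'
      have g2 : (fun s => if s = t then x else y s) t p = (a 2).1 := by rw [hyt, hxp]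
      rw [← g2]
      exact g1
    obtain ⟨q, hq1, hq2, hq3⟩ := pds_q e1 hlt
    obtain ⟨r, hr1, hr2, hr3⟩ := pds_q e2 hlt
    refine ⟨![((a 0).1, fun s => if s = t then x else y s), q, r], ⟨h0, ⟨hTV, h0.2⟩, rfl⟩,
      ⟨h1, hq1, hq2.symm⟩, ⟨h2, hr1, hr2.symm⟩, ⟨⟨hTV, h0.2⟩, hq1, ?_, hq3⟩,
      ⟨hTV, h0.2⟩, hr1, ?_, hr3⟩
    · show (fun s => if s = t then x else y s) t o = q.1
      rw [hyt, hxo, hq2]
    · show (fun s => if s = t then x else y s) t p = r.1
      rw [hyt, hxp, hr2]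
  · rintro ⟨b, ⟨h0, h0', h0''⟩, ⟨h1, h1', h1''⟩, ⟨h2, h2', h2''⟩, ⟨-, -, h5, -⟩, -, -, h6, -⟩
    refine ⟨h0, h1, h2, fun z => ?_⟩
    have e0 : (a 0).1 = (b 0).1 := h0''
    have e1 : (a 1).1 = (b 1).1 := h1''
    have e2 : (a 2).1 = (b 2).1 := h2''
    have e3 : (b 0).2 t o = (b 1).1 := h5
    have e4 : (b 0).2 t p = (b 2).1 := h6
    rw [e0, pds_two ht ho hp ((b 0).2 t) (e3.trans e1.symm) (e4.trans e2.symm) z]
    exact h0'.1 t h0'.2.symm z

/-- a class preserving map with the right stars is a labelling -/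
private theorem pds_el {f : LV H → LV H} (hc : ∀ v, (lab H).cl (f v) = (lab H).cl v)
    (hs : ∀ v t z, (lab H).sc t = (lab H).cl v →
      {d | (lab H).tl d = v ∧ (lab H).ty d = t ∧ f ((lab H).hd d) = z}.ncard =
        (lab H).M t (f v) z) {A : Set (LV H)} : PL (lab H) A f := by
  refine ⟨fun x _ => hc x, fun x _ t z => ?_⟩
  by_cases hx : (lab H).sc t = (lab H).cl x
  · exact hs x t z hx
  · have h1 : {d | (lab H).tl d = x ∧ (lab H).ty d = t ∧ f ((lab H).hd d) = z} = ∅ := by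
      rw [Set.eq_empty_iff_forall_notMem]
      rintro d ⟨h1, h2, -⟩
      refine hx ?_
      rw [← h1, ← h2, (lab H).cl_tl]
    have h2 : {d | (lab H).tl d = f x ∧ (lab H).ty d = t ∧ (lab H).hd d = z} = ∅ := by
      rw [Set.eq_empty_iff_forall_notMem]
      rintro d ⟨h1, h2, -⟩
      refine hx ?_
      rw [← hc x, ← h1, ← h2, (lab H).cl_tl]
    unfold LS.M
    rw [h1, h2]

/-- a labelling of a reduced label structure is an automorphism -/
private theorem pds_aut (hred : Redc (lab H)) {f : LV H → LV H}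
    (h : ∀ A : Set (LV H), PL (lab H) A f) : Aut (lab H) f := by
  have hin : ∀ x, f x ∈ {y | Cd (lab H) x y} := fun x =>
    pl_redc hred (comp_of x) (h _) x Relation.ReflTransGen.refl
  have hcomp : ∀ x y, Cd (lab H) (f x) (f y) → Cd (lab H) x y := by
    intro x y hxy
    have h1 : Cd (lab H) x (f x) := hin x
    have h2 : Cd (lab H) y (f y) := hin y
    exact cd_trans h1 (cd_trans hxy (cd_symm h2))
  have hg : ∀ x, ∃ g, Aut (lab H) g ∧ ∀ y, Cd (lab H) x y → g y = f y := by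
    intro x
    obtain ⟨g, g1, g2⟩ := pl_aut (comp_of x) (h _) (pl_redc hred (comp_of x) (h _))
    exact ⟨g, g1, fun y hy => (g2 y hy).1⟩
  refine ⟨(Finite.injective_iff_bijective).1 ?_, fun x => (h Set.univ).cls x trivial, ?_⟩
  · intro x y hxy
    obtain ⟨g, g1, g2⟩ := hg x
    have h1 : Cd (lab H) x y := hcomp x y (by rw [hxy]; exact Relation.ReflTransGen.refl)
    refine g1.bij.1 ?_
    rw [g2 x Relation.ReflTransGen.refl, g2 y h1, hxy]
  · intro t x y
    obtain ⟨g, g1, g2⟩ := hg x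
    by_cases hxy : Cd (lab H) x y
    · rw [← g2 x Relation.ReflTransGen.refl, ← g2 y hxy]
      exact g1.M t x y
    · have h1 : ¬ Cd (lab H) (f x) (f y) := fun h1 => hxy (hcomp x y h1)
      rw [rnet_M_out (comp_of y) (fun h2 : Cd (lab H) y x => hxy (cd_symm h2))
        Relation.ReflTransGen.refl, rnet_M_out (comp_of (f y))
        (fun h2 : Cd (lab H) (f y) (f x) => h1 (cd_symm h2)) Relation.ReflTransGen.refl]

theorem pd_diag (hm : Mul H) (hred : Redc (lab H)) :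
    Pd (TR H) (fun a : LV H → TD H => ∃ g, Aut (lab H) g ∧ ∀ v, TV H (a v) ∧ (a v).1 = g v) := by
  obtain ⟨ν, hν⟩ := pds_num H
  have hrv : ∀ d, (ν ((lab H).rv d) : ℕ) < (lab H).num ((lab H).bar ((lab H).ty d)) := by
    intro d
    rw [← (lab H).ty_rv]
    exact hν.lt _
  refine pd_iff (pd_ex (X₁ := LV H) (ρ := fun c : LV H ⊕ LV H → TD H =>
    (∀ v, StK H ((lab H).cl v) (c (Sum.inl v)) ∧ StK H ((lab H).cl v) (c (Sum.inr v)) ∧
      (c (Sum.inl v)).1 = (c (Sum.inr v)).1) ∧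
    ∀ d, PdsLk H ((lab H).ty d) (ν d) (ν ((lab H).rv d)) (c (Sum.inr ((lab H).tl d)))
      (c (Sum.inr ((lab H).hd d))))
    (pd_and (pd_all fun v => pds_eqf hm v rfl _ _)
      (pd_all fun d => pds_lk _ _ _ (hν.lt d) (hrv d) _ _))) fun a => ?_
  constructor
  · rintro ⟨g, hg, ha⟩
    have hF : ∀ v t z, (lab H).sc t = (lab H).cl v →
        {d | (lab H).tl d = v ∧ (lab H).ty d = t ∧ g ((lab H).hd d) = z}.ncard =
          (lab H).M t (g v) z := by
      intro v t z _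
      obtain ⟨z', rfl⟩ := hg.bij.2 z
      rw [hg.M]
      unfold LS.M
      congr 1
      ext d
      simp only [Set.mem_ofPred_eq, hg.bij.1.eq_iff]
    choose y hy hy' using fun v => pds_mk hν (hg.cl v) (fun d => g ((lab H).hd d)) (hF v)
    refine ⟨fun v => (g v, y v), fun v => ⟨⟨(ha v).1, ?_⟩, ⟨hy v, hg.cl v⟩, (ha v).2⟩, fun d =>
      ⟨⟨hy _, ?_⟩, ⟨hy _, ?_⟩, ?_, ?_⟩⟩
    · show (lab H).cl (a v).1 = (lab H).cl v
      rw [(ha v).2, hg.cl]
    · show (lab H).cl (g ((lab H).tl d)) = _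
      rw [hg.cl, (lab H).cl_tl]
    · show (lab H).cl (g ((lab H).hd d)) = _
      rw [hg.cl, ← (lab H).ty_rv]
      exact (lab H).cl_tl _
    · show y ((lab H).tl d) ((lab H).ty d) (ν d) = g ((lab H).hd d)
      exact hy' _ d rfl
    · show y ((lab H).hd d) ((lab H).bar ((lab H).ty d)) (ν ((lab H).rv d)) = g ((lab H).tl d)
      have h1 := hy' ((lab H).hd d) ((lab H).rv d) rfl
      rw [(lab H).ty_rv, hd_rv] at h1
      exact h1
  · rintro ⟨b, h1, h2⟩
    have h1' : ∀ v, StK H ((lab H).cl v) (a v) ∧ StK H ((lab H).cl v) (b v) ∧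
      (a v).1 = (b v).1 := h1
    have h2' : ∀ d, (b ((lab H).tl d)).2 ((lab H).ty d) (ν d) = (b ((lab H).hd d)).1 :=
      fun d => (h2 d).2.2.1
    have hPL : ∀ A : Set (LV H), PL (lab H) A (fun v => (b v).1) := by
      intro A
      refine pds_el (fun v => (h1' v).2.1.2) ?_
      intro v t z ht
      rw [← (h1' v).2.1.1 t (ht.trans (h1' v).2.1.2.symm) z]
      refine Set.ncard_congr (fun d _ => ν d) ?_ ?_ ?_
      · rintro d ⟨g1, g2, g3⟩
        refine ⟨?_, ?_⟩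
        · rw [← g2]
          exact hν.lt d
        · rw [← g3, ← h2' d, g1, g2]
      · rintro d d' ⟨g1, g2, -⟩ ⟨g1', g2', -⟩ h3
        exact hν.inj d d' (g1.trans g1'.symm) (g2.trans g2'.symm) h3
      · rintro i ⟨g1, g2⟩
        obtain ⟨d, g3, g4, g5⟩ := hν.sur v t ht.symm i g1
        refine ⟨d, ⟨g3, g4, ?_⟩, g5⟩
        show (b ((lab H).hd d)).1 = z
        rw [← h2' d, g3, g4, g5]
        exact g2
    exact ⟨fun v => (b v).1, pds_aut hred hPL, fun v => ⟨(h1' v).1.1, (h1' v).2.2⟩⟩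

end Pool.Agent.H24.GL
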